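import Pool.Agent.K6.H41.FF.Defs

/-!
# Basic facts on the Firefighter process
-/

set_option autoImplicit false

namespace Pool.Agent.K6.H41.FF

variable {V : Type*} {G : SimpleGraph V} {s : V} {c : ℕ → V}

theorem fire_zero : fire G s c 0 = {s} := rfl

theorem prot_zero : prot G s c 0 = ∅ := rfl

theorem prot_succ (i : ℕ) :
    prot G s c (i + 1) = prot G s c i ∪ {u | u = c i ∧ u ∉ fire G s c i} := rfl

theorem fire_succ (i : ℕ) : fire G s c (i + 1) =
    fire G s c i ∪ {v | v ∉ prot G s c (i + 1) ∧ ∃ u ∈ fire G s c i, G.Adj u v} := rfl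

theorem fire_mono : Monotone (fire G s c) :=
  monotone_nat_of_le_succ fun i => by rw [fire_succ]; exact Set.subset_union_left

theorem prot_mono : Monotone (prot G s c) :=
  monotone_nat_of_le_succ fun i => by rw [prot_succ]; exact Set.subset_union_left

theorem fire_prot_disj : ∀ i, ∀ v ∈ fire G s c i, v ∉ prot G s c i := by
  intro i
  induction i with
  | zero => intro v _; rw [prot_zero]; exact Set.notMem_empty v
  | succ i ih =>
    intro v hv
    rw [fire_succ] at hv
    rcases hv with hv | hv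
    · rw [prot_succ]
      rintro (h | h)
      · exact ih v hv h
      · exact h.2 hv
    · exact hv.1

/-- a burning vertex is never protected -/
theorem fire_notMem_prot {i j : ℕ} {v : V} (hv : v ∈ fire G s c i) : v ∉ prot G s c j := by
  intro h
  exact fire_prot_disj (max i j) v (fire_mono (le_max_left i j) hv)
    (prot_mono (le_max_right i j) h)

/-- spread -/
theorem mem_fire_succ {i : ℕ} {u v : V} (hu : u ∈ fire G s c i) (ha : G.Adj u v)
    (hv : v ∉ prot G s c (i + 1)) : v ∈ fire G s c (i + 1) := by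
  rw [fire_succ]; exact Or.inr ⟨hv, u, hu, ha⟩

theorem s_mem (i : ℕ) : s ∈ fire G s c i := fire_mono (Nat.zero_le i) (by rw [fire_zero]; rfl)

/-- all vertices that are ever on fire -/
def burnt (G : SimpleGraph V) (s : V) (c : ℕ → V) : Set V := {v | ∃ i, v ∈ fire G s c i}

open Classical in
/-- the round in which `v` catches fire -/
noncomputable def tm (G : SimpleGraph V) (s : V) (c : ℕ → V) (v : V) : ℕ :=
  if h : ∃ i, v ∈ fire G s c i then Nat.find h else 0

theorem mem_fire_iff {v : V} (hv : v ∈ burnt G s c) (i : ℕ) :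
    v ∈ fire G s c i ↔ tm G s c v ≤ i := by
  classical
  have h : ∃ i, v ∈ fire G s c i := hv
  unfold tm
  rw [dif_pos h]
  constructor
  · intro hi; exact Nat.find_min' h hi
  · intro hi; exact fire_mono hi (Nat.find_spec h)

theorem fire_sub_burnt (i : ℕ) : fire G s c i ⊆ burnt G s c := fun _ h => ⟨i, h⟩

theorem mem_fire_tm {v : V} (hv : v ∈ burnt G s c) : v ∈ fire G s c (tm G s c v) :=
  (mem_fire_iff hv _).mpr le_rfl

/-- a burning vertex other than `s` has a neighbour that caught fire one round earlier -/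
theorem exists_parent {v : V} (hv : v ∈ burnt G s c) (h0 : tm G s c v ≠ 0) :
    ∃ u ∈ burnt G s c, tm G s c u + 1 = tm G s c v ∧ G.Adj u v := by
  obtain ⟨i, hi⟩ : ∃ i, tm G s c v = i + 1 := ⟨tm G s c v - 1, by omega⟩
  have h1 : v ∈ fire G s c (i + 1) := (mem_fire_iff hv _).mpr hi.le
  have h2 : v ∉ fire G s c i := by rw [mem_fire_iff hv]; omega
  rw [fire_succ] at h1
  rcases h1 with h1 | ⟨h1, u, hu, ha⟩
  · exact absurd h1 h2
  · refine ⟨u, fire_sub_burnt i hu, ?_, ha⟩
    have h3 := (mem_fire_iff (fire_sub_burnt i hu) i).mp hu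
    by_contra h4
    apply h2
    have h5 : tm G s c u + 1 ≤ i := by omega
    exact fire_mono h5 (mem_fire_succ (mem_fire_tm (fire_sub_burnt i hu)) ha
      (fun h => h1 (prot_mono (by omega) h)))

theorem tm_zero_iff {v : V} (hv : v ∈ burnt G s c) : tm G s c v = 0 ↔ v = s := by
  constructor
  · intro h
    have := mem_fire_tm hv
    rw [h, fire_zero] at this
    exact this
  · rintro rfl
    have := (mem_fire_iff hv 0).mp (by rw [fire_zero]; rfl)
    omega

/-- a neighbour of a burning vertex burns or is protected in time -/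
theorem burnt_or_prot {u v : V} (hu : u ∈ burnt G s c) (ha : G.Adj u v)
    (hv : v ∉ burnt G s c) : v ∈ prot G s c (tm G s c u + 1) := by
  by_contra h
  exact hv (fire_sub_burnt _ (mem_fire_succ (mem_fire_tm hu) ha h))

theorem tm_adj_le {u v : V} (hu : u ∈ burnt G s c) (ha : G.Adj u v)
    (hv : v ∈ burnt G s c) : tm G s c v ≤ tm G s c u + 1 := by
  rw [← mem_fire_iff hv]
  obtain ⟨j, hj⟩ := hv
  exact mem_fire_succ (mem_fire_tm hu) ha (fire_notMem_prot hj)

/-! ### Connected sets -/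

/-- `a` and `b` are joined by a path in `S` -/
def Jn (G : SimpleGraph V) (S : Set V) (a b : V) : Prop :=
  Relation.ReflTransGen (fun x y => G.Adj x y ∧ x ∈ S ∧ y ∈ S) a b

theorem Jn.refl {S : Set V} (a : V) : Jn G S a a := Relation.ReflTransGen.refl

theorem Jn.trans {S : Set V} {a b d : V} (h : Jn G S a b) (h' : Jn G S b d) : Jn G S a d :=
  Relation.ReflTransGen.trans h h'

theorem Jn.symm {S : Set V} {a b : V} (h : Jn G S a b) : Jn G S b a := by
  unfold Jn at *
  induction h with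
  | refl => exact Relation.ReflTransGen.refl
  | tail _ h2 ih =>
    exact Relation.ReflTransGen.trans (Relation.ReflTransGen.single ⟨h2.1.symm, h2.2.2, h2.2.1⟩) ih

theorem Jn.mono {S S' : Set V} (hS : S ⊆ S') {a b : V} (h : Jn G S a b) : Jn G S' a b :=
  Relation.ReflTransGen.mono (fun _ _ hx => ⟨hx.1, hS hx.2.1, hS hx.2.2⟩) _ _ h

theorem Jn.single {S : Set V} {a b : V} (h : G.Adj a b) (ha : a ∈ S) (hb : b ∈ S) :
    Jn G S a b := Relation.ReflTransGen.single ⟨h, ha, hb⟩

/-- the end of a path in `S` is in `S` -/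
theorem Jn.mem {S : Set V} {a b : V} (h : Jn G S a b) (ha : a ∈ S) : b ∈ S := by
  unfold Jn at h
  induction h with
  | refl => exact ha
  | tail _ h2 _ => exact h2.2.2

/-- connected nonempty set -/
def Cn (G : SimpleGraph V) (S : Set V) : Prop := ∃ a ∈ S, ∀ b ∈ S, Jn G S a b

theorem Cn.joined {S : Set V} (h : Cn G S) {a b : V} (ha : a ∈ S) (hb : b ∈ S) : Jn G S a b := by
  obtain ⟨x, _, hx⟩ := h
  exact (hx a ha).symm.trans (hx b hb)

theorem Cn.singleton (a : V) : Cn G {a} := ⟨a, rfl, by rintro b rfl; exact Jn.refl _⟩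

/-- union of connected sets through a common point -/
theorem Cn.of_center {S : Set V} (a : V) (ha : a ∈ S) (h : ∀ b ∈ S, Jn G S b a) : Cn G S :=
  ⟨a, ha, fun b hb => (h b hb).symm⟩

theorem Cn.connected {S : Set V} (h : Cn G S) : (G.induce S).Connected := by
  obtain ⟨a, ha, hS⟩ := h
  have key : ∀ b, Jn G S a b → ∀ hb : b ∈ S, (G.induce S).Reachable ⟨a, ha⟩ ⟨b, hb⟩ := by
    intro b hb
    unfold Jn at hb
    induction hb with
    | refl => intro _; exact SimpleGraph.Reachable.refl _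
    | tail h1 h2 ih =>
      intro hb
      refine (ih h2.2.1).trans ?_
      exact SimpleGraph.Adj.reachable (by
        rw [SimpleGraph.induce_adj]
        exact h2.1)
  rw [SimpleGraph.connected_iff_exists_forall_reachable]
  exact ⟨⟨a, ha⟩, fun b => key b.1 (hS b.1 b.2) b.2⟩

/-! ### Connectedness of the burning sets -/

/-- ancestors -/
theorem exists_ancestor {v : V} (hv : v ∈ burnt G s c) : ∀ k j, j + k = tm G s c v →
    ∃ w ∈ burnt G s c, tm G s c w = j ∧
      Jn G {x | x ∈ burnt G s c ∧ j ≤ tm G s c x ∧ tm G s c x ≤ tm G s c v} w v := by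
  intro k
  induction k with
  | zero => intro j hj; exact ⟨v, hv, by omega, Jn.refl _⟩
  | succ k ih =>
    intro j hj
    obtain ⟨w, hw, h1, h2⟩ := ih (j + 1) (by omega)
    obtain ⟨u, hu, h3, h4⟩ := exists_parent hw (by omega)
    refine ⟨u, hu, by omega, Jn.trans (Jn.single h4 ⟨hu, by omega, by omega⟩
      ⟨hw, by omega, by omega⟩) (h2.mono ?_)⟩
    rintro x ⟨hx, hx1, hx2⟩
    exact ⟨hx, by omega, hx2⟩

theorem s_burnt : s ∈ burnt G s c := ⟨0, s_mem 0⟩

theorem fire_conn (i : ℕ) : Cn G (fire G s c i) := by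
  refine Cn.of_center s (s_mem i) fun b hb => ?_
  have hb' : b ∈ burnt G s c := ⟨i, hb⟩
  obtain ⟨w, hw, h1, h2⟩ := exists_ancestor hb' (tm G s c b) 0 (by omega)
  rw [tm_zero_iff hw] at h1
  subst h1
  refine (h2.mono ?_).symm
  rintro x ⟨hx, _, hx2⟩
  rw [mem_fire_iff hx]
  exact hx2.trans ((mem_fire_iff hb' i).mp hb)

theorem burnt_conn : Cn G (burnt G s c) := by
  refine Cn.of_center s s_burnt fun b hb => ?_
  obtain ⟨i, hi⟩ := hb
  exact ((fire_conn i).joined hi (s_mem i)).mono (fire_sub_burnt i)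

/-- the vertices that catch fire after round `τ` -/
def late (G : SimpleGraph V) (s : V) (c : ℕ → V) (τ : ℕ) : Set V :=
  {v | v ∈ burnt G s c ∧ τ < tm G s c v}

/-- the vertices that catch fire in round `τ` -/
def layer (G : SimpleGraph V) (s : V) (c : ℕ → V) (τ : ℕ) : Set V :=
  {v | v ∈ burnt G s c ∧ tm G s c v = τ}

/-- the component of `w` in the late set -/
def comp (G : SimpleGraph V) (s : V) (c : ℕ → V) (τ : ℕ) (w : V) : Set V :=
  {v | v ∈ late G s c τ ∧ Jn G (late G s c τ) w v}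

theorem layer_sub_late (τ : ℕ) : layer G s c (τ + 1) ⊆ late G s c τ := by
  rintro v ⟨hv, h⟩; exact ⟨hv, by omega⟩

theorem exists_comp {τ : ℕ} {v : V} (hv : v ∈ late G s c τ) :
    ∃ w ∈ layer G s c (τ + 1), v ∈ comp G s c τ w := by
  obtain ⟨hv, h⟩ := hv
  obtain ⟨w, hw, h1, h2⟩ := exists_ancestor hv (tm G s c v - (τ + 1)) (τ + 1) (by omega)
  refine ⟨w, ⟨hw, h1⟩, ⟨hv, h⟩, h2.mono ?_⟩
  rintro x ⟨hx, hx1, _⟩
  exact ⟨hx, by omega⟩

theorem comp_conn {τ : ℕ} {w : V} (hw : w ∈ late G s c τ) : Cn G (comp G s c τ w) := by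
  refine ⟨w, ⟨hw, Jn.refl _⟩, ?_⟩
  rintro b ⟨hb, hj⟩
  have key : ∀ b, Jn G (late G s c τ) w b → Jn G (comp G s c τ w) w b := by
    intro b hb
    unfold Jn at hb
    induction hb with
    | refl => exact Jn.refl _
    | tail h1 h2 ih =>
      exact ih.trans (Jn.single h2.1 ⟨h2.2.1, h1⟩ ⟨h2.2.2, h1.tail h2⟩)
  exact key b hj

end Pool.Agent.K6.H41.FF
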