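import Pool.Agent.K6.H41.FF.Sum

/-!
# The bound for the number of rounds
-/

set_option autoImplicit false

namespace Pool.Agent.K6.H41.FF

open Relation

variable {V : Type*} {G : SimpleGraph V} {s : V} {c : ℕ → V}

theorem late_ge [Finite V] {v : V} (hv : v ∈ burnt G s c) (τ : ℕ) :
    tm G s c v - τ ≤ (late G s c τ).ncard := by
  classical
  have h : ∀ j, j ≤ tm G s c v → ∃ w ∈ burnt G s c, tm G s c w = j := by
    intro j hj
    obtain ⟨w, hw, h1, _⟩ := exists_ancestor hv (tm G s c v - j) j (by omega)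
    exact ⟨w, hw, h1⟩
  have hne : Nonempty V := ⟨s⟩
  choose! w hw hwt using h
  have h1 : (Finset.Ioc τ (tm G s c v)).card = tm G s c v - τ := by simp
  rw [← h1, ← Set.ncard_coe_finset, ← Set.InjOn.ncard_image (f := w)]
  · apply Set.ncard_le_ncard _ (Set.toFinite _)
    rintro x ⟨j, hj, rfl⟩
    rw [Finset.coe_Ioc, Set.mem_Ioc] at hj
    exact ⟨hw j hj.2, by rw [hwt j hj.2]; exact hj.1⟩
  · intro j hj j' hj' he
    rw [Finset.coe_Ioc, Set.mem_Ioc] at hj hj'
    rw [← hwt j hj.2, ← hwt j' hj'.2, he]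

/-- few large layers -/
theorem large_layers [Finite V] (β : ℕ) (S : Finset ℕ)
    (hS : ∀ τ ∈ S, β < (layer G s c (τ + 1)).ncard) : S.card * (β + 1) ≤ Nat.card V := by
  classical
  have hft := Fintype.ofFinite V
  calc S.card * (β + 1) = ∑ _τ ∈ S, (β + 1) := by rw [Finset.sum_const, smul_eq_mul]
    _ ≤ ∑ τ ∈ S, (layer G s c (τ + 1)).ncard := Finset.sum_le_sum fun τ hτ => hS τ hτ
    _ = ∑ τ ∈ S, ((layer G s c (τ + 1)).toFinset).card := by
      refine Finset.sum_congr rfl fun τ _ => Set.ncard_eq_toFinset_card' _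
    _ = (S.biUnion fun τ => (layer G s c (τ + 1)).toFinset).card := by
      rw [Finset.card_biUnion]
      intro τ _ τ' _ hne
      change Disjoint _ _
      rw [Finset.disjoint_left]
      intro x hx hx'
      rw [Set.mem_toFinset] at hx hx'
      have h1 := hx.2
      have h2 := hx'.2
      omega
    _ ≤ Nat.card V := by
      rw [Nat.card_eq_fintype_card]; exact Finset.card_le_univ _

theorem main_ineq [Finite V] {q β : ℕ} (hq : Free G q) (hq2 : 2 ≤ q) (hβ : 1 ≤ β)
    (hopt : ∀ c', (burnt G s c).ncard ≤ (burnt G s c').ncard) {v : V} (hv : v ∈ burnt G s c)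
    {W T : ℕ} (hW : W = WW q β ((q - 1) * β + 1)) (hT : T = tm G s c v) :
    (T / 2 - W - Nat.card V / (β + 1)) * (T / 2) ≤ (W + 1) * ((q - 1) * Nat.card V) := by
  classical
  have hNN : ∀ k, 0 < NN ((q - 1) * β + 1) k := by
    intro k
    induction k with
    | zero => exact Nat.one_pos
    | succ k ih => simp only [NN]; positivity
  let A : Finset ℕ := (Finset.Ico W (T / 2)).filter (fun τ => (layer G s c (τ + 1)).ncard ≤ β)
  have hA : T / 2 - W - Nat.card V / (β + 1) ≤ A.card := by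
    have h1 := Finset.card_filter_add_card_filter_not (s := Finset.Ico W (T / 2))
      (fun τ => (layer G s c (τ + 1)).ncard ≤ β)
    have h2 := large_layers (G := G) (s := s) (c := c) β ((Finset.Ico W (T / 2)).filter
      (fun τ => ¬ (layer G s c (τ + 1)).ncard ≤ β)) (fun τ hτ => by
        have := (Finset.mem_filter.mp hτ).2; omega)
    rw [← Nat.le_div_iff_mul_le (by omega)] at h2
    rw [Nat.card_Ico] at h1
    have h3 : A.card + ((Finset.Ico W (T / 2)).filter
      (fun τ => ¬ (layer G s c (τ + 1)).ncard ≤ β)).card = T / 2 - W := h1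
    omega
  obtain ⟨ρ, hfib⟩ : ∃ ρ, A.card ≤ (W + 1) * (A.filter (fun τ => τ % (W + 1) = ρ)).card := by
    by_contra hno
    push Not at hno
    have h1 := Finset.card_eq_sum_card_fiberwise (s := A) (t := Finset.range (W + 1))
      (f := fun τ => τ % (W + 1)) (fun i _ => Finset.mem_range.mpr (Nat.mod_lt _ (by omega)))
    have h2 : ∑ ρ ∈ Finset.range (W + 1),
        (W + 1) * (A.filter (fun τ => τ % (W + 1) = ρ)).card <
        ∑ _ρ ∈ Finset.range (W + 1), A.card :=
      Finset.sum_lt_sum_of_nonempty ⟨0, Finset.mem_range.mpr (by omega)⟩ fun ρ _ => hno ρ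
    rw [← Finset.mul_sum, ← h1, Finset.sum_const, Finset.card_range, smul_eq_mul] at h2
    exact lt_irrefl _ h2
  let S : Finset ℕ := A.filter (fun τ => τ % (W + 1) = ρ)
  have hSA : ∀ τ ∈ S, (W ≤ τ ∧ τ < T / 2) ∧ (layer G s c (τ + 1)).ncard ≤ β := by
    intro τ hτ
    have h1 := Finset.mem_filter.mp (Finset.mem_filter.mp hτ).1
    exact ⟨Finset.mem_Ico.mp h1.1, h1.2⟩
  have hgood : ∀ τ ∈ S, ∃ t, τ - W ≤ t ∧ t ≤ τ ∧
      ∀ v ∈ ball G (prot G s c t) (fire G s c t) ((q - 1) * β + 1), v ∉ late G s c τ := by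
    intro τ hτ
    have h1 := hSA τ hτ
    rw [hW]
    exact exists_good hq hq2 (by omega) h1.2 (by rw [← hW]; exact h1.1.1)
      (Nat.mul_pos hβ (hNN _))
  choose! t ht1 ht2 ht3 using hgood
  have hsum := sum_windows (G := G) (s := s) (c := c) hq hq2 S t ?_ ?_
  · have h1 : S.card * (T / 2) ≤ (q - 1) * Nat.card V := by
      refine le_trans ?_ hsum
      rw [← smul_eq_mul, ← Finset.sum_const]
      refine Finset.sum_le_sum fun τ hτ => ?_
      refine le_trans ?_ (late_ge hv τ)
      have := (hSA τ hτ).1.2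
      omega
    calc (T / 2 - W - Nat.card V / (β + 1)) * (T / 2) ≤ A.card * (T / 2) :=
          Nat.mul_le_mul_right _ hA
      _ ≤ ((W + 1) * S.card) * (T / 2) := Nat.mul_le_mul_right _ hfib
      _ = (W + 1) * (S.card * (T / 2)) := by ring
      _ ≤ (W + 1) * ((q - 1) * Nat.card V) := Nat.mul_le_mul_left _ h1
  · intro τ hτ τ' hτ' hlt
    have h1 := (Finset.mem_filter.mp hτ).2
    have h2 := (Finset.mem_filter.mp hτ').2
    have h3 := ht1 τ' hτ'
    have h4 : τ + (W + 1) ≤ τ' := by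
      by_contra hno
      have h5 : (τ' - τ) % (W + 1) = 0 := by
        have h6 : τ ≡ τ' [MOD (W + 1)] := by rw [Nat.ModEq, h1, h2]
        exact Nat.mod_eq_zero_of_dvd ((Nat.modEq_iff_dvd' hlt.le).mp h6)
      rw [Nat.mod_eq_of_lt (by omega)] at h5
      omega
    omega
  · intro τ hτ
    exact exchange hq hopt (hSA τ hτ).2 (ht3 τ hτ)

end Pool.Agent.K6.H41.FF
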