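import Pool.Agent.K6.H41.FF.Basic
import Pool.Agent.Helper17_Spider.Menger

/-!
# Small cuts in graphs without a `K_{2,q}` minor
-/

set_option autoImplicit false

namespace Pool.Agent.K6.H41.FF

open Relation

variable {V : Type*} {G : SimpleGraph V}

/-- no `K_{2,q}` minor -/
def Free (G : SimpleGraph V) (q : ℕ) : Prop :=
  ¬ HasMinor (completeBipartiteGraph (Fin 2) (Fin q)) G

theorem minor_of {q : ℕ} {A B : Set V} {M : Fin q → Set V} (hA : Cn G A) (hB : Cn G B)
    (hM : ∀ i, Cn G (M i)) (hAB : Disjoint A B) (hAM : ∀ i, Disjoint A (M i))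
    (hBM : ∀ i, Disjoint B (M i)) (hMM : ∀ i j, i ≠ j → Disjoint (M i) (M j))
    (h1 : ∀ i, ∃ x ∈ A, ∃ y ∈ M i, G.Adj x y) (h2 : ∀ i, ∃ x ∈ B, ∃ y ∈ M i, G.Adj x y) :
    HasMinor (completeBipartiteGraph (Fin 2) (Fin q)) G := by
  have e : ∀ j : Fin 2, j = 0 ∨ j = 1 := by decide
  refine ⟨Sum.elim ![A, B] M, ?_, ?_, ?_⟩
  · rintro (j | j)
    · rcases e j with rfl | rfl
      · exact hA.connected
      · exact hB.connected
    · exact (hM j).connected
  · rintro (a | a) (b | b) hab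
    · rcases e a with rfl | rfl <;> rcases e b with rfl | rfl
      · exact absurd rfl hab
      · exact hAB
      · exact hAB.symm
      · exact absurd rfl hab
    · rcases e a with rfl | rfl
      · exact hAM b
      · exact hBM b
    · rcases e b with rfl | rfl
      · exact (hAM a).symm
      · exact (hBM a).symm
    · exact hMM a b (fun h => hab (by rw [h]))
  · rintro (a | a) (b | b) hab
    · simp [completeBipartiteGraph] at hab
    · rcases e a with rfl | rfl
      · exact h1 b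
      · exact h2 b
    · rcases e b with rfl | rfl
      · obtain ⟨x, hx, y, hy, h⟩ := h1 a
        exact ⟨y, hy, x, hx, h.symm⟩
      · obtain ⟨x, hx, y, hy, h⟩ := h2 a
        exact ⟨y, hy, x, hx, h.symm⟩
    · simp [completeBipartiteGraph] at hab

/-- two disjoint nonadjacent connected sets are separated by fewer than `q` vertices -/
theorem cut [Finite V] {q : ℕ} (hq : Free G q) {A Y : Set V} (hA : Cn G A) (hY : Cn G Y)
    (hd : Disjoint A Y) (hna : ∀ x ∈ A, ∀ y ∈ Y, ¬ G.Adj x y) :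
    ∃ Z : Finset V, Z.card < q ∧ (∀ z ∈ Z, z ∉ A ∧ z ∉ Y) ∧
      ∀ x ∈ A, ∀ y ∈ Y, ¬ ReflTransGen (fun a b => G.Adj a b ∧ b ∉ Z) x y := by
  classical
  have := Fintype.ofFinite V
  rcases Pool.Agent.H17Sp.menger_sets (fun a b => G.Adj a b ∧ b ∉ A ∧ b ∉ Y)
    {v | v ∉ A ∧ v ∉ Y ∧ ∃ x ∈ A, G.Adj x v} {v | v ∉ A ∧ v ∉ Y ∧ ∃ x ∈ Y, G.Adj x v} q with
    ⟨U, hU, h⟩ | ⟨Z, hZ, hsep⟩
  · exfalso
    choose x hx hxU y hy hxy using h
    refine hq (minor_of (M := fun i => {z | ReflTransGen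
      (fun a b => (G.Adj a b ∧ b ∉ A ∧ b ∉ Y) ∧ b ∈ U i) (x i) z}) hA hY ?_ hd ?_ ?_ ?_ ?_ ?_)
    · intro i
      refine ⟨x i, ReflTransGen.refl, ?_⟩
      intro b hb
      induction hb with
      | refl => exact Jn.refl _
      | tail h1 h2 ih => exact ih.trans (Jn.single h2.1.1 h1 (h1.tail h2))
    · intro i
      rw [Set.disjoint_right]
      intro z hz
      rcases ReflTransGen.cases_tail hz with h | ⟨b, _, hb⟩
      · rw [h]; exact (hx i).1
      · exact hb.1.2.1
    · intro i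
      rw [Set.disjoint_right]
      intro z hz
      rcases ReflTransGen.cases_tail hz with h | ⟨b, _, hb⟩
      · rw [h]; exact (hx i).2.1
      · exact hb.1.2.2
    · intro i j hij
      have hin : ∀ i z, ReflTransGen
          (fun a b => (G.Adj a b ∧ b ∉ A ∧ b ∉ Y) ∧ b ∈ U i) (x i) z → z ∈ U i := by
        intro i z hz
        rcases ReflTransGen.cases_tail hz with h | ⟨b, _, hb⟩
        · rw [h]; exact hxU i
        · exact hb.2
      rw [Set.disjoint_left]
      intro z hz hz'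
      exact hU i j hij z (hin i z hz) (hin j z hz')
    · intro i
      obtain ⟨w, hw, hwx⟩ := (hx i).2.2
      exact ⟨w, hw, x i, ReflTransGen.refl, hwx⟩
    · intro i
      obtain ⟨w, hw, hwx⟩ := (hy i).2.2
      exact ⟨w, hw, y i, hxy i, hwx⟩
  · refine ⟨Z.filter (fun z => z ∉ A ∧ z ∉ Y), lt_of_le_of_lt (Finset.card_filter_le _ _) hZ,
      fun z hz => (Finset.mem_filter.mp hz).2, ?_⟩
    intro x hx y hy hxy
    have key : ∀ v, ReflTransGen
        (fun a b => G.Adj a b ∧ b ∉ Z.filter (fun z => z ∉ A ∧ z ∉ Y)) x v →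
        v ∈ A ∨ (v ∉ A ∧ v ∉ Y ∧ ∃ x' , (x' ∉ A ∧ x' ∉ Y ∧ ∃ x ∈ A, G.Adj x x') ∧ x' ∉ Z ∧
          ReflTransGen (fun a b => (G.Adj a b ∧ b ∉ A ∧ b ∉ Y) ∧ b ∉ Z) x' v) := by
      intro v hv
      induction hv with
      | refl => exact Or.inl hx
      | @tail b d _ h2 ih =>
        by_cases hdA : d ∈ A
        · exact Or.inl hdA
        right
        rcases ih with ih | ⟨hbA, hbY, x', h3, h4, h5⟩
        · have hdY : d ∉ Y := fun h => hna b ih d h h2.1
          have hdZ : d ∉ Z := fun h => h2.2 (Finset.mem_filter.mpr ⟨h, hdA, hdY⟩)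
          exact ⟨hdA, hdY, d, ⟨hdA, hdY, b, ih, h2.1⟩, hdZ, ReflTransGen.refl⟩
        · by_cases hdY : d ∈ Y
          · exact absurd h5 (hsep x' h3 h4 b ⟨hbA, hbY, d, hdY, h2.1.symm⟩)
          · have hdZ : d ∉ Z := fun h => h2.2 (Finset.mem_filter.mpr ⟨h, hdA, hdY⟩)
            exact ⟨hdA, hdY, x', h3, h4, h5.tail ⟨⟨h2.1, hdA, hdY⟩, hdZ⟩⟩
    rcases key y hxy with h | h
    · exact Set.disjoint_left.mp hd h hy
    · exact h.2.1 hy

/-- at most `q - 1` vertices are adjacent to two disjoint connected sets -/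
theorem few_common [Finite V] {q : ℕ} (hq : Free G q) {A Y : Set V} (hA : Cn G A) (hY : Cn G Y)
    (hd : Disjoint A Y) (S : Finset V) (hS : ∀ z ∈ S, z ∉ A ∧ z ∉ Y ∧ (∃ x ∈ A, G.Adj x z) ∧
      ∃ y ∈ Y, G.Adj y z) : S.card < q := by
  classical
  by_contra hcon
  push Not at hcon
  obtain ⟨f⟩ : Nonempty (Fin q ↪ S) := by
    rw [Function.Embedding.nonempty_iff_card_le]
    simpa using hcon
  refine hq (minor_of (M := fun i => {(f i : V)}) hA hY (fun i => Cn.singleton _) hd ?_ ?_ ?_ ?_ ?_)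
  · intro i
    rw [Set.disjoint_right]
    rintro z rfl
    exact (hS _ (f i).2).1
  · intro i
    rw [Set.disjoint_right]
    rintro z rfl
    exact (hS _ (f i).2).2.1
  · intro i j hij
    rw [Set.disjoint_left]
    rintro z rfl h
    exact hij (f.injective (Subtype.ext h))
  · intro i
    obtain ⟨x, hx, h⟩ := (hS _ (f i).2).2.2.1
    exact ⟨x, hx, _, rfl, h⟩
  · intro i
    obtain ⟨x, hx, h⟩ := (hS _ (f i).2).2.2.2
    exact ⟨x, hx, _, rfl, h⟩

end Pool.Agent.K6.H41.FF
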