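import Mathlib
import Pool.Agent.H588R2.Model

/-!
# The Firefighter process

Definitions: the process, legal strategies, minors, and the input of the word RAM.
-/

set_option autoImplicit false

namespace Pool.Agent.K6.H41.FF

open Pool.Agent.H588R2

variable {V : Type*}

/-- One round from the state `(F, P)` (`F` the vertices on fire, `P` the protected vertices): the
vertex `c` becomes protected if it is not on fire; then every vertex that is neither on fire nor
protected and has a neighbour on fire catches fire. -/
def next (G : SimpleGraph V) (c : V) (x : Set V × Set V) : Set V × Set V :=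
  (x.1 ∪ {v | v ∉ x.2 ∪ {u | u = c ∧ u ∉ x.1} ∧ ∃ u ∈ x.1, G.Adj u v},
    x.2 ∪ {u | u = c ∧ u ∉ x.1})

/-- The state after `i` rounds with the moves `c 0, c 1, …`. -/
def state (G : SimpleGraph V) (s : V) (c : ℕ → V) : ℕ → Set V × Set V
  | 0 => ({s}, ∅)
  | i + 1 => next G (c i) (state G s c i)

/-- The vertices on fire after `i` rounds. -/
def fire (G : SimpleGraph V) (s : V) (c : ℕ → V) (i : ℕ) : Set V := (state G s c i).1

/-- The protected vertices after `i` rounds. -/
def prot (G : SimpleGraph V) (s : V) (c : ℕ → V) (i : ℕ) : Set V := (state G s c i).2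

/-- The state after the moves of the list. -/
def after (G : SimpleGraph V) (s : V) (l : List V) : Set V × Set V :=
  l.foldl (fun x c => next G c x) ({s}, ∅)

/-- Each vertex of the list is neither on fire nor protected when it is chosen. -/
def Legal (G : SimpleGraph V) (s : V) (l : List V) : Prop :=
  ∀ l' c, l' ++ [c] <+: l → c ∉ (after G s l').1 ∧ c ∉ (after G s l').2

/-- The process has ended: no vertex that is neither on fire nor protected has a neighbour on
fire. -/
def Ended (G : SimpleGraph V) (x : Set V × Set V) : Prop :=
  ∀ u ∈ x.1, ∀ v, G.Adj u v → v ∈ x.1 ∨ v ∈ x.2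

/-- There is a strategy under which at most `k` vertices are ever on fire. -/
def Yes (G : SimpleGraph V) (s : V) (k : ℕ) : Prop :=
  ∃ l : List V, Legal G s l ∧ Ended G (after G s l) ∧ (after G s l).1.ncard ≤ k

/-- `H` is a minor of `G`: there are pairwise disjoint connected branch sets in `G` for the
vertices of `H`, and the branch sets of adjacent vertices of `H` are joined by an edge of `G`. -/
def HasMinor {W : Type*} (H : SimpleGraph W) (G : SimpleGraph V) : Prop :=
  ∃ φ : W → Set V, (∀ a, (G.induce (φ a)).Connected) ∧
    (Pairwise fun a b => Disjoint (φ a) (φ b)) ∧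
    ∀ a b, H.Adj a b → ∃ x ∈ φ a, ∃ y ∈ φ b, G.Adj x y

/-- The greatest `t ≤ n` with `t ^ D ≤ C * n ^ (D - 1)`. -/
def rounds (C D n : ℕ) : ℕ := Nat.findGreatest (fun t => t ^ D ≤ C * n ^ (D - 1)) n

open Classical in
/-- Initial configuration of the word RAM. Register `0` holds the number `n` of vertices, register
`1` holds `k`, register `2` holds the vertex `s` where the fire starts, the other registers are
zero. The memory holds the adjacency matrix of `G` row by row (cell `u * n + v` is `1` if `u` and
`v` are adjacent, else `0`), followed by zeros. -/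
noncomputable def inputConfig {n : ℕ} (G : SimpleGraph (Fin n)) (s : Fin n) (k : ℕ) : Config where
  pc := 0
  st :=
    { reg := fun i => if i = 0 then n else if i = 1 then k else if i = 2 then (s : ℕ) else 0
      mem := fun x =>
        if h : x / n < n ∧ x % n < n then
          (if G.Adj ⟨x / n, h.1⟩ ⟨x % n, h.2⟩ then 1 else 0)
        else 0 }

end Pool.Agent.K6.H41.FF
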