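import Pool.Agent.K6.H41.FF.Cut

/-!
# The exchange argument
-/

set_option autoImplicit false

namespace Pool.Agent.K6.H41.FF

open Relation

variable {V : Type*} {G : SimpleGraph V} {s : V} {c : ℕ → V}

/-- `j` rounds of spread from `F`, without new protected vertices -/
def ball (G : SimpleGraph V) (P F : Set V) : ℕ → Set V
  | 0 => F
  | j + 1 => ball G P F j ∪ {v | v ∉ P ∧ ∃ u ∈ ball G P F j, G.Adj u v}

theorem ball_mono {P F : Set V} : Monotone (ball G P F) :=
  monotone_nat_of_le_succ fun _ => Set.subset_union_left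

theorem ball_conn {P F : Set V} (hF : Cn G F) : ∀ j, Cn G (ball G P F j) := by
  intro j
  induction j with
  | zero => exact hF
  | succ j ih =>
    obtain ⟨a, ha, h⟩ := ih
    refine ⟨a, Or.inl ha, ?_⟩
    rintro b (hb | ⟨hb, u, hu, hub⟩)
    · exact (h b hb).mono Set.subset_union_left
    · exact ((h u hu).mono Set.subset_union_left).trans
        (Jn.single hub (Or.inl hu) (Or.inr ⟨hb, u, hu, hub⟩))

theorem state_congr {c' : ℕ → V} {t : ℕ} (h : ∀ i < t, c' i = c i) :
    ∀ i ≤ t, state G s c' i = state G s c i := by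
  intro i
  induction i with
  | zero => intro _; rfl
  | succ i ih =>
    intro hi
    change next G (c' i) (state G s c' i) = next G (c i) (state G s c i)
    rw [h i (by omega), ih (by omega)]

/-- the neighbours of the burning vertices -/
def bd (G : SimpleGraph V) (s : V) (c : ℕ → V) : Set V :=
  {v | v ∉ burnt G s c ∧ ∃ u ∈ burnt G s c, G.Adj u v}

/-- the other vertices -/
def inn (G : SimpleGraph V) (s : V) (c : ℕ → V) : Set V :=
  {v | v ∉ burnt G s c ∧ v ∉ bd G s c}

/-- `v` is `p` or lies in a component of the inner vertices adjacent to `p` -/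
def Assoc (G : SimpleGraph V) (s : V) (c : ℕ → V) (v p : V) : Prop :=
  p ∈ bd G s c ∧ (v = p ∨ (v ∈ inn G s c ∧ ∃ u ∈ inn G s c, Jn G (inn G s c) v u ∧ G.Adj u p))

theorem exchange [Finite V] {q β τ t : ℕ} (hq : Free G q)
    (hopt : ∀ c', (burnt G s c).ncard ≤ (burnt G s c').ncard)
    (hβ : (layer G s c (τ + 1)).ncard ≤ β)
    (hgood : ∀ v ∈ ball G (prot G s c t) (fire G s c t) ((q - 1) * β + 1), v ∉ late G s c τ) :
    ∃ D : Set V, (late G s c τ).ncard ≤ D.ncard ∧ ∀ v ∈ D, v ∉ burnt G s c ∧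
      ∃ p, Assoc G s c v p ∧ p ∈ prot G s c (τ + 1) ∧ p ∉ prot G s c t := by
  classical
  obtain ⟨h, hh⟩ : ∃ h, h = (q - 1) * β := ⟨_, rfl⟩
  rw [← hh] at hgood
  set P := prot G s c t with hP
  set F := fire G s c t with hF
  set Φ := ball G P F h with hΦ
  have hΦc : Cn G Φ := ball_conn (fire_conn t) h
  have hΦl : ∀ v ∈ Φ, v ∉ late G s c τ := fun v hv => hgood v (Or.inl hv)
  have hΦa : ∀ x ∈ Φ, ∀ y ∈ late G s c τ, ¬ G.Adj x y := by
    intro x hx y hy ha
    obtain ⟨i, hi⟩ := hy.1
    exact hgood y (Or.inr ⟨fire_notMem_prot hi, x, hx, ha⟩) hy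
  have hcut : ∀ w : layer G s c (τ + 1), ∃ Z : Finset V, Z.card < q ∧
      (∀ z ∈ Z, z ∉ Φ ∧ z ∉ comp G s c τ w) ∧ ∀ x ∈ Φ, ∀ y ∈ comp G s c τ w,
        ¬ ReflTransGen (fun a b => G.Adj a b ∧ b ∉ Z) x y := by
    intro w
    refine cut hq hΦc (comp_conn (layer_sub_late τ w.2)) ?_ ?_
    · rw [Set.disjoint_left]
      intro v hv hv'
      exact hΦl v hv hv'.1
    · intro x hx y hy
      exact hΦa x hx y hy.1
  choose Z hZc hZd hZs using hcut
  have := Fintype.ofFinite V
  let K : Finset V := Finset.univ.biUnion Z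
  have hKc : K.card ≤ h := by
    calc K.card ≤ ∑ w : layer G s c (τ + 1), (Z w).card := Finset.card_biUnion_le
      _ ≤ ∑ w : layer G s c (τ + 1), (q - 1) :=
        Finset.sum_le_sum fun w _ => Nat.le_sub_one_of_lt (hZc w)
      _ = Fintype.card (layer G s c (τ + 1)) * (q - 1) := by simp
      _ ≤ β * (q - 1) := by
        apply Nat.mul_le_mul_right
        rw [← Nat.card_eq_fintype_card]
        exact hβ
      _ = h := by rw [hh, Nat.mul_comm]
  have hKΦ : ∀ z ∈ K, z ∉ Φ := by
    intro z hz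
    obtain ⟨w, _, hw⟩ := Finset.mem_biUnion.mp hz
    exact (hZd w z hw).1
  -- the new moves
  let c' : ℕ → V := fun i => if i < t then c i else K.toList.getD (i - t) s
  have hst : ∀ i ≤ t, state G s c' i = state G s c i :=
    state_congr fun i hi => by simp only [c', if_pos hi]
  have hft : fire G s c' t = F := by rw [hF]; unfold fire; rw [hst t le_rfl]
  have hpt : prot G s c' t = P := by rw [hP]; unfold prot; rw [hst t le_rfl]
  have hball : ∀ j, fire G s c' (t + j) ⊆ ball G P F j := by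
    intro j
    induction j with
    | zero => rw [Nat.add_zero, hft]; exact le_rfl
    | succ j ih =>
      rintro v hv
      change v ∈ fire G s c' (t + j + 1) at hv
      rw [fire_succ] at hv
      rcases hv with hv | ⟨hv, u, hu, ha⟩
      · exact Or.inl (ih hv)
      · refine Or.inr ⟨fun h => hv ?_, u, ih hu, ha⟩
        rw [← hpt] at h
        exact prot_mono (by omega) h
  have hKP : ∀ z ∈ K, z ∈ prot G s c' (t + h) := by
    intro z hz
    obtain ⟨i, hi, hiz⟩ := List.getElem_of_mem (Finset.mem_toList.mpr hz)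
    have hil : i < h := lt_of_lt_of_le (by simpa using hi) hKc
    have hci : c' (t + i) = z := by
      simp only [c']
      rw [if_neg (by omega), Nat.add_sub_cancel_left, List.getD_eq_getElem _ _ hi, hiz]
    have hzf : z ∉ fire G s c' (t + i) := fun hf =>
      hKΦ z hz (ball_mono (by omega) (hball i hf))
    have : z ∈ prot G s c' (t + i + 1) := by
      rw [prot_succ]; exact Or.inr ⟨hci.symm, hzf⟩
    exact prot_mono (by omega) this
  have hreach : ∀ (w : layer G s c (τ + 1)) (j : ℕ), ∀ v ∈ fire G s c' (t + j),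
      ∃ x ∈ Φ, ReflTransGen (fun a b => G.Adj a b ∧ b ∉ Z w) x v := by
    intro w j
    induction j with
    | zero =>
      intro v hv
      exact ⟨v, ball_mono (Nat.zero_le h) (hball 0 hv), ReflTransGen.refl⟩
    | succ j ih =>
      intro v hv
      by_cases hjh : j + 1 ≤ h
      · exact ⟨v, ball_mono hjh (hball (j + 1) hv), ReflTransGen.refl⟩
      · change v ∈ fire G s c' (t + j + 1) at hv
        rw [fire_succ] at hv
        rcases hv with hv | ⟨hv, u, hu, ha⟩
        · exact ih v hv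
        · obtain ⟨x, hx, hxu⟩ := ih u hu
          refine ⟨x, hx, hxu.tail ⟨ha, fun hz => hv ?_⟩⟩
          exact prot_mono (by omega) (hKP v (Finset.mem_biUnion.mpr ⟨w, Finset.mem_univ _, hz⟩))
  have hreach' : ∀ (w : layer G s c (τ + 1)), ∀ v ∈ burnt G s c',
      ∃ x ∈ Φ, ReflTransGen (fun a b => G.Adj a b ∧ b ∉ Z w) x v := by
    rintro w v ⟨i, hi⟩
    exact hreach w i v (fire_mono (by omega) hi)
  have hlate : ∀ v ∈ burnt G s c', v ∉ late G s c τ := by
    intro v hv hvl
    obtain ⟨w, hw, hvw⟩ := exists_comp hvl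
    obtain ⟨x, hx, hxv⟩ := hreach' ⟨w, hw⟩ v hv
    exact hZs ⟨w, hw⟩ x hx v hvw hxv
  have hlate2 : ∀ v ∈ burnt G s c', ∀ b ∈ late G s c τ, ¬ G.Adj b v := by
    intro v hv b hb ha
    obtain ⟨w, hw, hvw⟩ := exists_comp hb
    obtain ⟨x, hx, hxv⟩ := hreach' ⟨w, hw⟩ v hv
    exact hZs ⟨w, hw⟩ x hx b hvw (hxv.tail ⟨ha.symm, fun hz => (hZd ⟨w, hw⟩ b hz).2 hvw⟩)
  refine ⟨burnt G s c' \ burnt G s c, ?_, ?_⟩
  · have h1 := Set.ncard_inter_add_ncard_sdiff_eq_ncard (burnt G s c) (burnt G s c')
      (Set.toFinite _)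
    have h2 := Set.ncard_inter_add_ncard_sdiff_eq_ncard (burnt G s c') (burnt G s c)
      (Set.toFinite _)
    rw [Set.inter_comm] at h2
    have h3 : (late G s c τ).ncard ≤ (burnt G s c \ burnt G s c').ncard := by
      apply Set.ncard_le_ncard _ (Set.toFinite _)
      intro v hv
      exact ⟨hv.1, fun h => hlate v h hv⟩
    have := hopt c'
    omega
  · -- the new burning vertices
    have hbd : ∀ v ∈ burnt G s c', v ∈ bd G s c → v ∈ prot G s c (τ + 1) := by
      rintro v hv ⟨hv1, u, hu, ha⟩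
      have h1 := burnt_or_prot hu ha hv1
      by_cases h2 : τ < tm G s c u
      · exact absurd ha (hlate2 v hv u ⟨hu, h2⟩)
      · exact prot_mono (by omega) h1
    have key : ∀ i, ∀ v ∈ fire G s c' i, v ∉ burnt G s c →
        v ∉ P ∧ ∃ p, Assoc G s c v p ∧ p ∈ prot G s c (τ + 1) ∧ p ∉ P := by
      intro i
      induction i with
      | zero =>
        intro v hv hvb
        rw [fire_zero] at hv
        rw [Set.mem_singleton_iff] at hv
        subst hv
        exact absurd s_burnt hvb
      | succ i ih =>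
        intro v hv hvb
        have hvb' : v ∈ burnt G s c' := ⟨i + 1, hv⟩
        have hti : t ≤ i := by
          by_contra hcon
          apply hvb
          refine ⟨i + 1, ?_⟩
          have := hst (i + 1) (by omega)
          unfold fire at hv ⊢
          rwa [this] at hv
        rw [fire_succ] at hv
        rcases hv with hv | ⟨hv, u, hu, ha⟩
        · exact ih v hv hvb
        have hvP : v ∉ P := by
          intro h
          rw [← hpt] at h
          exact hv (prot_mono (by omega) h)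
        refine ⟨hvP, ?_⟩
        by_cases hvd : v ∈ bd G s c
        · exact ⟨v, ⟨hvd, Or.inl rfl⟩, hbd v hvb' hvd, hvP⟩
        have hvi : v ∈ inn G s c := ⟨hvb, hvd⟩
        have hub : u ∉ burnt G s c := fun hub => hvd ⟨hvb, u, hub, ha⟩
        have hub' : u ∈ burnt G s c' := ⟨i, hu⟩
        obtain ⟨huP, p, ⟨hp, hup⟩, hp1, hp2⟩ := ih u hu hub
        by_cases hud : u ∈ bd G s c
        · exact ⟨u, ⟨hud, Or.inr ⟨hvi, v, hvi, Jn.refl _, ha.symm⟩⟩, hbd u hub' hud, huP⟩
        rcases hup with hup | ⟨hui, u', hu', hj, hup⟩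
        · exact absurd (hup ▸ hp) hud
        · exact ⟨p, ⟨hp, Or.inr ⟨hvi, u', hu', (Jn.single ha.symm hvi hui).trans hj, hup⟩⟩,
            hp1, hp2⟩
    rintro v ⟨⟨i, hi⟩, hv⟩
    exact ⟨hv, (key i v hi hv).2⟩

end Pool.Agent.K6.H41.FF
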