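import Pool.Agent.K6.H41.FF.Defs

set_option autoImplicit false

namespace Pool.Agent.K6.H41.FF

open Pool.Agent.H588R2 Filter Topology

namespace PieceC

variable {V : Type*}

theorem after_append (G : SimpleGraph V) (s : V) (l : List V) (c : V) :
    after G s (l ++ [c]) = next G c (after G s l) := by
  simp [after, List.foldl_append]

theorem legal_nil (G : SimpleGraph V) (s : V) : Legal G s [] := by
  intro l' c h
  have := h.length_le
  simp at this

theorem legal_append (G : SimpleGraph V) (s : V) (l : List V) (c : V) :
    Legal G s (l ++ [c]) ↔ Legal G s l ∧ c ∉ (after G s l).1 ∧ c ∉ (after G s l).2 := by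
  constructor
  · intro h
    refine ⟨fun l' c' h' => h l' c' (h'.trans (List.prefix_append _ _)), h l c (List.prefix_refl _)⟩
  · rintro ⟨h1, h2⟩ l' c' h'
    rcases Nat.lt_or_ge (l'.length) l.length with hlt | hge
    · apply h1 l' c'
      have : l' ++ [c'] <+: l ++ [c] := h'
      exact List.prefix_of_prefix_length_le this (List.prefix_append _ _) (by simp; omega)
    · have hlen := h'.length_le
      have heq : l' ++ [c'] = l ++ [c] := by
        apply List.IsPrefix.eq_of_length h'
        simp at hlen ⊢
        omega
      have h3 := List.append_inj heq (by simp at hlen; omega)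
      obtain ⟨h4, h5⟩ := h3
      simp at h5
      subst h4 h5
      exact h2

theorem next_fst_mono (G : SimpleGraph V) (c : V) (x : Set V × Set V) : x.1 ⊆ (next G c x).1 :=
  fun _ h => Or.inl h

theorem fire_mono (G : SimpleGraph V) (s : V) (m : ℕ → V) : Monotone (fire G s m) :=
  monotone_nat_of_le_succ fun i => next_fst_mono G (m i) (state G s m i)

theorem mem_after (G : SimpleGraph V) (s : V) (l : List V) : s ∈ (after G s l).1 := by
  induction l using List.reverseRecOn with
  | nil => simp [after]
  | append_singleton l c ih => rw [after_append]; exact next_fst_mono G c _ ih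

theorem prot_card [Finite V] (G : SimpleGraph V) (s : V) (l : List V) (h : Legal G s l) :
    (after G s l).2.ncard = l.length := by
  induction l using List.reverseRecOn with
  | nil => simp [after]
  | append_singleton l c ih =>
    rw [legal_append] at h
    have h1 := ih h.1
    rw [after_append]
    have h2 : (next G c (after G s l)).2 = insert c (after G s l).2 := by
      ext v
      simp only [next, Set.mem_union, Set.mem_ofPred_eq, Set.mem_insert_iff]
      constructor
      · rintro (h3 | ⟨h3, -⟩)
        · exact Or.inr h3
        · exact Or.inl h3
      · rintro (h3 | h3)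
        · subst h3
          exact Or.inr ⟨rfl, h.2.1⟩
        · exact Or.inl h3
    rw [h2, Set.ncard_insert_of_notMem h.2.2 (Set.toFinite _), h1]
    simp

theorem next_of_ended (G : SimpleGraph V) (c : V) (x : Set V × Set V) (hx : Ended G x)
    (hc : c ∈ x.1) : next G c x = x := by
  have h1 : {u | u = c ∧ u ∉ x.1} = (∅ : Set V) := by
    ext u
    simp only [Set.mem_ofPred_eq, Set.mem_empty_iff_false, iff_false, not_and, not_not]
    rintro rfl
    exact hc
  refine Prod.ext ?_ ?_
  · simp only [next, h1, Set.union_empty]
    ext v
    simp only [Set.mem_union, Set.mem_ofPred_eq]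
    constructor
    · rintro (h | ⟨h2, u, hu, huv⟩)
      · exact h
      · rcases hx u hu v huv with h3 | h3
        · exact h3
        · exact absurd h3 h2
    · exact Or.inl
  · simp only [next, h1, Set.union_empty]

end PieceC

open PieceC in
/-- Piece C -/
theorem yes_iff {V : Type*} [Finite V] (G : SimpleGraph V) (s : V) (k : ℕ) :
    Yes G s k ↔ ∃ m : ℕ → V, ∀ i, (fire G s m i).ncard ≤ k := by
  constructor
  · rintro ⟨l, hl, he, hk⟩
    refine ⟨fun i => l.getD i s, ?_⟩
    set m : ℕ → V := fun i => l.getD i s with hm
    have h1 : ∀ i, i ≤ l.length → state G s m i = after G s (l.take i) := by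
      intro i
      induction i with
      | zero => intro _; simp [state, after]
      | succ i ih =>
        intro hi
        have h2 := ih (by omega)
        rw [state, h2]
        have h3 : l.take (i + 1) = l.take i ++ [m i] := by
          rw [List.take_add_one]
          congr 1
          simp only [hm]
          have : i < l.length := by omega
          simp [List.getD, this]
        rw [h3, after_append]
    have h2 : ∀ j, state G s m (l.length + j) = after G s l := by
      intro j
      induction j with
      | zero => rw [add_zero, h1 _ le_rfl, List.take_length]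
      | succ j ih =>
        rw [← add_assoc, state, ih]
        have h3 : m (l.length + j) = s := by
          simp [hm, List.getD]
        rw [h3]
        exact next_of_ended G s _ he (mem_after G s l)
    intro i
    have h3 : fire G s m i ⊆ fire G s m (l.length + i) := fire_mono G s m (by omega)
    have h4 : fire G s m (l.length + i) = (after G s l).1 := by
      rw [fire, h2 i]
    rw [h4] at h3
    exact (Set.ncard_le_ncard h3 (Set.toFinite _)).trans hk
  · rintro ⟨m, hm⟩
    have key : ∀ i, ∃ l, Legal G s l ∧ (after G s l).1 ⊆ fire G s m i ∧
        (Ended G (after G s l) ∨ (l.length = i ∧ prot G s m i ⊆ (after G s l).2)) := by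
      intro i
      induction i with
      | zero => exact ⟨[], legal_nil G s, by simp [after, fire, state], Or.inr ⟨rfl, by simp [prot, state]⟩⟩
      | succ i ih =>
        obtain ⟨l, hl, hF, hor⟩ := ih
        by_cases he : Ended G (after G s l)
        · exact ⟨l, hl, hF.trans (fire_mono G s m (Nat.le_succ i)), Or.inl he⟩
        · rcases hor with h | ⟨hlen, hP⟩
          · exact absurd h he
          -- a legal move
          have hc : ∃ c, c ∉ (after G s l).1 ∧ c ∉ (after G s l).2 ∧
              (m i ∉ (after G s l).1 → m i ∉ (after G s l).2 → c = m i) := by
            by_cases hmi : m i ∉ (after G s l).1 ∧ m i ∉ (after G s l).2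
            · exact ⟨m i, hmi.1, hmi.2, fun _ _ => rfl⟩
            · simp only [Ended] at he
              push Not at he
              obtain ⟨u, hu, v, huv, hv1, hv2⟩ := he
              exact ⟨v, hv1, hv2, fun h1 h2 => absurd ⟨h1, h2⟩ hmi⟩
          obtain ⟨c, hc1, hc2, hc3⟩ := hc
          have hP' : prot G s m (i + 1) ⊆ (after G s (l ++ [c])).2 := by
            rw [after_append]
            intro v hv
            rcases hv with hv | ⟨hv1, hv2⟩
            · exact Or.inl (hP hv)
            · subst hv1
              have h1 : m i ∉ (after G s l).1 := fun h => hv2 (hF h)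
              by_cases h2 : m i ∈ (after G s l).2
              · exact Or.inl h2
              · exact Or.inr ⟨(hc3 h1 h2).symm, h1⟩
          refine ⟨l ++ [c], (legal_append G s l c).2 ⟨hl, hc1, hc2⟩, ?_, Or.inr ⟨by simp [hlen], hP'⟩⟩
          intro v hv
          have hv' := hv
          rw [after_append] at hv
          rcases hv with hv | ⟨hv1, u, hu, huv⟩
          · exact fire_mono G s m (Nat.le_succ i) (hF hv)
          · refine Or.inr ⟨?_, u, hF hu, huv⟩
            intro h
            have h2 := hP' (show v ∈ prot G s m (i + 1) from h)
            rw [after_append] at h2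
            exact hv1 h2
    obtain ⟨l, hl, hF, hor⟩ := key (Nat.card V + 1)
    refine ⟨l, hl, ?_, (Set.ncard_le_ncard hF (Set.toFinite _)).trans (hm _)⟩
    rcases hor with h | ⟨hlen, -⟩
    · exact h
    · exfalso
      have h1 := prot_card G s l hl
      have h2 : (after G s l).2.ncard ≤ Nat.card V := by
        rw [← Set.ncard_univ]
        exact Set.ncard_le_ncard (Set.subset_univ _) (Set.toFinite _)
      omega

end Pool.Agent.K6.H41.FF
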