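import Pool.Agent.K6.H41.FF.Defs

set_option autoImplicit false

namespace Pool.Agent.K6.H41.FF

open Pool.Agent.H588R2 Filter Topology

/-- Piece D -/
theorem asym (C D d : ℕ) (K : ℝ) (hD : 2 ≤ D) : ∃ f : ℕ → ℝ,
    Tendsto (fun n : ℕ => f n / n) atTop (𝓝 0) ∧
    ∀ n T : ℕ, T ^ D ≤ C * n ^ (D - 1) → K * ((n : ℝ) + 1) ^ (T + d) ≤ (2 : ℝ) ^ (f n) := by
  have hD0 : (0 : ℝ) < D := by exact_mod_cast (by omega : 0 < D)
  set r : ℝ := 1 / (D : ℝ) with hr
  have hr0 : 0 < r := by positivity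
  set A : ℝ := max 0 (Real.logb 2 (max K 1)) with hA
  set B : ℝ := (C : ℝ) ^ r with hB
  have hB0 : 0 ≤ B := by positivity
  refine ⟨fun n => A + (B * ((n : ℝ) + 1) ^ (1 - r) + d) * Real.logb 2 ((n : ℝ) + 1), ?_, ?_⟩
  · -- asymptotics in a real variable
    have hlog : Tendsto (fun x : ℝ => Real.log x / x ^ r) atTop (𝓝 0) :=
      (isLittleO_log_rpow_atTop hr0).tendsto_div_nhds_zero
    have hlog1 : Tendsto (fun x : ℝ => Real.log x / x ^ (1 : ℝ)) atTop (𝓝 0) :=
      (isLittleO_log_rpow_atTop one_pos).tendsto_div_nhds_zero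
    have hinv : Tendsto (fun x : ℝ => A / x) atTop (𝓝 0) :=
      tendsto_const_nhds.div_atTop tendsto_id
    have h1 : Tendsto (fun x : ℝ => (A + (B * x ^ (1 - r) + d) * Real.logb 2 x) / x) atTop (𝓝 0) := by
      have h2 : Tendsto (fun x : ℝ => A / x + (B / Real.log 2) * (Real.log x / x ^ r)
          + (d / Real.log 2) * (Real.log x / x ^ (1 : ℝ))) atTop (𝓝 0) := by
        have := (hinv.add (hlog.const_mul (B / Real.log 2))).add (hlog1.const_mul (d / Real.log 2))
        simpa using this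
      refine h2.congr' ?_
      filter_upwards [eventually_gt_atTop 0] with x hx
      have hx1 : x ^ (1 - r) = x / x ^ r := by
        rw [Real.rpow_sub hx, Real.rpow_one]
      have hxr : x ^ r ≠ 0 := (Real.rpow_pos_of_pos hx r).ne'
      rw [hx1, Real.rpow_one, Real.logb]
      have hl2 : Real.log 2 ≠ 0 := (Real.log_pos one_lt_two).ne'
      field_simp
      ring
    have h3 : Tendsto (fun n : ℕ => (n : ℝ) + 1) atTop atTop :=
      tendsto_atTop_add_const_right _ _ tendsto_natCast_atTop_atTop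
    have h4 := h1.comp h3
    have h5 : Tendsto (fun n : ℕ => ((n : ℝ) + 1) / n) atTop (𝓝 1) := by
      have h6 : Tendsto (fun n : ℕ => 1 + 1 / (n : ℝ)) atTop (𝓝 (1 + 0)) :=
        tendsto_const_nhds.add tendsto_one_div_atTop_nhds_zero_nat
      rw [add_zero] at h6
      refine h6.congr' ?_
      filter_upwards [eventually_gt_atTop 0] with n hn
      have : (n : ℝ) ≠ 0 := by exact_mod_cast hn.ne'
      field_simp
    have h7 := h4.mul h5
    rw [zero_mul] at h7
    refine h7.congr' ?_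
    filter_upwards [eventually_gt_atTop 0] with n hn
    have hn0 : (n : ℝ) ≠ 0 := by exact_mod_cast hn.ne'
    have hn1 : (n : ℝ) + 1 ≠ 0 := by positivity
    simp only [Function.comp]
    field_simp
  · intro n T hT
    have hn1 : (1 : ℝ) ≤ (n : ℝ) + 1 := by
      have : (0 : ℝ) ≤ n := Nat.cast_nonneg n
      linarith
    have hn0 : (0 : ℝ) < (n : ℝ) + 1 := by linarith
    have hlog0 : 0 ≤ Real.logb 2 ((n : ℝ) + 1) := Real.logb_nonneg one_lt_two hn1
    have hTle : (T : ℝ) ≤ B * ((n : ℝ) + 1) ^ (1 - r) := by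
      have h1 : (T : ℝ) ^ D ≤ C * ((n : ℝ) + 1) ^ (D - 1) := by
        have h2 : (T : ℝ) ^ D ≤ C * (n : ℝ) ^ (D - 1) := by exact_mod_cast hT
        refine h2.trans ?_
        gcongr
        linarith
      have h3 : (T : ℝ) = ((T : ℝ) ^ D) ^ r := by
        rw [hr, ← Real.rpow_natCast, ← Real.rpow_mul (Nat.cast_nonneg T), mul_one_div_cancel hD0.ne',
          Real.rpow_one]
      rw [h3]
      refine (Real.rpow_le_rpow (by positivity) h1 hr0.le).trans (le_of_eq ?_)
      rw [Real.mul_rpow (by positivity) (by positivity), ← Real.rpow_natCast (x := (n : ℝ) + 1),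
        ← Real.rpow_mul hn0.le]
      congr 2
      rw [hr, Nat.cast_sub (by omega)]
      push_cast
      field_simp
    have hK : K ≤ (2 : ℝ) ^ A := by
      have h1 : K ≤ max K 1 := le_max_left _ _
      have h2 : max K 1 = (2 : ℝ) ^ Real.logb 2 (max K 1) :=
        (Real.rpow_logb (by norm_num) (by norm_num) (lt_of_lt_of_le one_pos (le_max_right _ _))).symm
      refine h1.trans ?_
      rw [h2]
      exact Real.rpow_le_rpow_of_exponent_le one_le_two (le_max_right _ _)
    have hp : ((n : ℝ) + 1) ^ (T + d) = (2 : ℝ) ^ (((T : ℝ) + d) * Real.logb 2 ((n : ℝ) + 1)) := by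
      rw [mul_comm, Real.rpow_mul (by norm_num), Real.rpow_logb (by norm_num) (by norm_num) hn0]
      rw [← Real.rpow_natCast]
      push_cast
      ring_nf
    rw [hp]
    have hq : (2 : ℝ) ^ (((T : ℝ) + d) * Real.logb 2 ((n : ℝ) + 1)) ≤
        (2 : ℝ) ^ ((B * ((n : ℝ) + 1) ^ (1 - r) + d) * Real.logb 2 ((n : ℝ) + 1)) := by
      apply Real.rpow_le_rpow_of_exponent_le one_le_two
      gcongr
    calc K * (2 : ℝ) ^ (((T : ℝ) + d) * Real.logb 2 ((n : ℝ) + 1))
        ≤ (2 : ℝ) ^ A * (2 : ℝ) ^ ((B * ((n : ℝ) + 1) ^ (1 - r) + d) * Real.logb 2 ((n : ℝ) + 1)) := by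
          gcongr
      _ = _ := by rw [← Real.rpow_add (by norm_num)]

end Pool.Agent.K6.H41.FF
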