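import Pool.Agent.K6.H41.FF.Num
import Pool.Agent.K6.H41.FF.PieceC
import Pool.Agent.K6.H41.FF.PieceD

/-!
# Conclusions
-/

set_option autoImplicit false

namespace Pool.Agent.K6.H41.FF

open Pool.Agent.H588R2 Filter Topology

/-! ### Minors -/

theorem hasMinor_mono {V : Type*} {G : SimpleGraph V} {q q' : ℕ} (h : q ≤ q')
    (hm : HasMinor (completeBipartiteGraph (Fin 2) (Fin q')) G) :
    HasMinor (completeBipartiteGraph (Fin 2) (Fin q)) G := by
  obtain ⟨φ, h1, h2, h3⟩ := hm
  let g : Fin 2 ⊕ Fin q → Fin 2 ⊕ Fin q' := Sum.map id (Fin.castLE h)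
  have hg : Function.Injective g :=
    Function.Injective.sumMap Function.injective_id (Fin.castLE_injective h)
  refine ⟨fun a => φ (g a), fun a => h1 _, fun a b hab => h2 (hg.ne hab), fun a b hab => h3 _ _ ?_⟩
  rcases a with a | a <;> rcases b with b | b <;> simp_all [g, completeBipartiteGraph]

/-! ### Stabilisation -/

variable {V : Type*} {G : SimpleGraph V} {s : V}

theorem tm_lt [Finite V] {c : ℕ → V} {v : V} (hv : v ∈ burnt G s c) :
    tm G s c v + 1 ≤ Nat.card V := by
  have h1 := late_ge hv 0
  have h2 : (late G s c 0).ncard < (Set.univ : Set V).ncard := by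
    apply Set.ncard_lt_ncard _ (Set.toFinite _)
    rw [Set.ssubset_univ_iff]
    intro h
    have h3 : s ∈ late G s c 0 := h ▸ Set.mem_univ s
    have h4 := (tm_zero_iff (G := G) (s := s) (c := c) s_burnt).mpr rfl
    have := h3.2
    omega
  rw [Set.ncard_univ] at h2
  omega

theorem burnt_eq [Finite V] {c : ℕ → V} {N : ℕ} (hN : Nat.card V ≤ N) :
    fire G s c N = burnt G s c := by
  apply Set.Subset.antisymm (fire_sub_burnt N)
  intro v hv
  rw [mem_fire_iff hv]
  have := tm_lt hv
  omega

/-- an optimal sequence of moves -/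
theorem exists_opt (G : SimpleGraph V) (s : V) :
    ∃ c : ℕ → V, ∀ c', (burnt G s c).ncard ≤ (burnt G s c').ncard := by
  have hne : Nonempty (ℕ → V) := ⟨fun _ => s⟩
  exact ⟨Function.argmin (fun c => (burnt G s c).ncard),
    fun c' => Function.argmin_le (fun c => (burnt G s c).ncard) c'⟩

/-- truncation of the moves -/
theorem truncate {c : ℕ → V} {R : ℕ} (hR : ∀ v ∈ burnt G s c, tm G s c v + 1 ≤ R) :
    burnt G s (fun i => if i < R then c i else s) ⊆ burnt G s c := by
  set m : ℕ → V := fun i => if i < R then c i else s with hm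
  have hst : ∀ i ≤ R, state G s m i = state G s c i :=
    state_congr fun i hi => by simp only [hm, if_pos hi]
  have hp : prot G s m R = prot G s c R := by unfold prot; rw [hst R le_rfl]
  have key : ∀ i, fire G s m i ⊆ burnt G s c := by
    intro i
    induction i with
    | zero =>
      intro v hv
      rw [fire_zero] at hv
      rw [Set.mem_singleton_iff] at hv
      rw [hv]; exact s_burnt
    | succ i ih =>
      intro v hv
      by_cases hiR : i + 1 ≤ R
      · refine ⟨i + 1, ?_⟩
        unfold fire at hv ⊢
        rwa [hst _ hiR] at hv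
      · rw [fire_succ] at hv
        rcases hv with hv | ⟨hv, u, hu, ha⟩
        · exact ih hv
        · by_contra hvb
          have h1 := burnt_or_prot (ih hu) ha hvb
          have h2 := prot_mono (hR u (ih hu)) h1
          rw [← hp] at h2
          exact hv (prot_mono (by omega) h2)
  rintro v ⟨i, hi⟩
  exact key i hi

/-- The decision problem, by moves in the first `R` rounds. -/
theorem yes_iff_moves {V : Type} [Finite V] (G : SimpleGraph V) (s : V) (k R : ℕ)
    (hR : ∀ c, (∀ c', (burnt G s c).ncard ≤ (burnt G s c').ncard) →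
      ∀ v ∈ burnt G s c, tm G s c v + 1 ≤ R) :
    Yes G s k ↔ ∃ m : ℕ → V, (∀ i, R ≤ i → m i = s) ∧
      (fire G s m (R + Nat.card V)).ncard ≤ k := by
  rw [yes_iff]
  constructor
  · rintro ⟨m, hm⟩
    obtain ⟨c, hc⟩ := exists_opt G s
    refine ⟨fun i => if i < R then c i else s, fun i hi => by
      simp only; rw [if_neg (by omega)], ?_⟩
    calc (fire G s (fun i => if i < R then c i else s) (R + Nat.card V)).ncard
        ≤ (burnt G s c).ncard := Set.ncard_le_ncard
          ((fire_sub_burnt _).trans (truncate (hR c hc))) (Set.toFinite _)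
      _ ≤ (burnt G s m).ncard := hc m
      _ ≤ k := by rw [← burnt_eq le_rfl]; exact hm _
  · rintro ⟨m, _, hm⟩
    refine ⟨m, fun i => le_trans (Set.ncard_le_ncard ?_ (Set.toFinite _)) hm⟩
    rw [burnt_eq (show Nat.card V ≤ R + Nat.card V by omega)]
    exact fire_sub_burnt i

/-! ### Lists of moves -/

theorem after_take (G : SimpleGraph V) (s : V) (l : List V) :
    ∀ i ≤ l.length, state G s (fun i => l.getD i s) i = after G s (l.take i) := by
  intro i
  induction i with
  | zero => intro _; rfl
  | succ i ih =>
    intro hi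
    change next G (l.getD i s) (state G s (fun i => l.getD i s) i) = _
    rw [ih (by omega), List.take_succ_eq_append_getElem (by omega), PieceC.after_append,
      List.getD_eq_getElem _ _ (by omega)]

theorem fire_ended (G : SimpleGraph V) (s : V) (l : List V) (he : Ended G (after G s l)) :
    ∀ i, l.length ≤ i → state G s (fun i => l.getD i s) i = after G s l := by
  intro i hi
  induction i, hi using Nat.le_induction with
  | base => rw [after_take G s l _ le_rfl, List.take_length]
  | succ i hi ih =>
    change next G (l.getD i s) (state G s (fun i => l.getD i s) i) = _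
    rw [ih, List.getD_eq_default _ _ hi]
    exact PieceC.next_of_ended G s _ he (PieceC.mem_after G s l)

theorem burnt_list (G : SimpleGraph V) (s : V) (l : List V) (he : Ended G (after G s l)) :
    burnt G s (fun i => l.getD i s) = (after G s l).1 := by
  apply Set.Subset.antisymm
  · rintro v ⟨i, hi⟩
    have h1 := fire_mono (le_max_left i l.length) hi
    unfold fire at h1
    rwa [fire_ended G s l he _ (le_max_right _ _)] at h1
  · intro v hv
    refine ⟨l.length, ?_⟩
    unfold fire
    rwa [fire_ended G s l he _ le_rfl]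

/-- optimal lists are optimal among all the sequences of moves -/
theorem opt_list [Finite V] (G : SimpleGraph V) (s : V) (l : List V)
    (he : Ended G (after G s l)) (hopt : ∀ l', Legal G s l' → Ended G (after G s l') →
      (after G s l).1.ncard ≤ (after G s l').1.ncard) (c' : ℕ → V) :
    (burnt G s (fun i => l.getD i s)).ncard ≤ (burnt G s c').ncard := by
  rw [burnt_list G s l he]
  obtain ⟨l', h1, h2, h3⟩ := (yes_iff G s (burnt G s c').ncard).mpr
    ⟨c', fun i => Set.ncard_le_ncard (fire_sub_burnt i) (Set.toFinite _)⟩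
  exact (hopt l' h1 h2).trans h3

/-- **Optimal strategies are short.** -/
theorem rounds_bound (q : ℕ) : ∃ C D : ℕ, 2 ≤ D ∧ ∀ (V : Type) [Finite V] (G : SimpleGraph V),
    ¬ HasMinor (completeBipartiteGraph (Fin 2) (Fin q)) G → ∀ (s : V),
    (∀ c, (∀ c', (burnt G s c).ncard ≤ (burnt G s c').ncard) →
      ∀ v ∈ burnt G s c, (tm G s c v + 1) ^ D ≤ C * Nat.card V ^ (D - 1)) ∧
    ∀ l : List V, Legal G s l → Ended G (after G s l) →
    (∀ l', Legal G s l' → Ended G (after G s l') →
      (after G s l).1.ncard ≤ (after G s l').1.ncard) →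
    ∀ i, (after G s (l.take i)).1 ≠ (after G s l).1 → i ^ D ≤ C * Nat.card V ^ (D - 1) := by
  obtain ⟨q', hq', hq2⟩ : ∃ q', q ≤ q' ∧ 2 ≤ q' := ⟨max q 2, le_max_left _ _, le_max_right _ _⟩
  obtain ⟨C, hC⟩ := time_bound q' hq2
  refine ⟨C, 8 * q', by omega, fun V _ G hG s => ⟨?_, ?_⟩⟩
  · intro c hc v hv
    exact hC V G (fun h => hG (hasMinor_mono hq' h)) s c hc v hv
  · intro l _ he hopt i hi
    have hb := burnt_list G s l he
    have hil : i ≤ l.length := by
      by_contra hno
      exact hi (by rw [List.take_of_length_le (by omega)])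
    obtain ⟨v, hv, hvi⟩ : ∃ v ∈ burnt G s (fun i => l.getD i s),
        v ∉ fire G s (fun i => l.getD i s) i := by
      by_contra hno
      push Not at hno
      apply hi
      rw [← hb]
      apply Set.Subset.antisymm
      · rw [← after_take G s l i hil]
        exact fire_sub_burnt i
      · rw [← after_take G s l i hil]
        exact hno
    rw [mem_fire_iff hv] at hvi
    have h1 := hC V G (fun h => hG (hasMinor_mono hq' h)) s _ (opt_list G s l he hopt) v hv
    exact (Nat.pow_le_pow_left (by omega) _).trans h1

end Pool.Agent.K6.H41.FF
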