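import Pool.Agent.K6.H41.FF.Defs

/-!
# Piece E: the combinatorial lemma on families of paths
-/

set_option autoImplicit false

namespace Pool.Agent.K6.H41.FF

/-- the length of the family needed in `comb` -/
def NN (r : ℕ) : ℕ → ℕ
  | 0 => 1
  | k + 1 => r * (r * NN r k + 1)

/-- A monotone function with values below `r` on `r` consecutive blocks of length `L` is constant
on one of them. -/
theorem exists_const_block (f : ℕ → ℕ) (a L r : ℕ) (hL : 1 ≤ L)
    (hf : ∀ j j', a ≤ j → j ≤ j' → j' < a + r * L → f j ≤ f j')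
    (hlt : ∀ j, a ≤ j → j < a + r * L → f j < r) (hr : 1 ≤ r) :
    ∃ t < r, ∀ j, a + t * L ≤ j → j < a + t * L + L → f j = f (a + t * L) := by
  by_contra hcon
  push Not at hcon
  have key : ∀ t, t ≤ r → ∀ j, a + t * L ≤ j + 1 → 1 ≤ t → j < a + r * L → t ≤ f j := by
    intro t
    induction t with
    | zero => intro _ j _ h; omega
    | succ t ih =>
      intro ht j hj _ hjr
      obtain ⟨q, hq1, hq2, hq3⟩ := hcon t (by omega)
      have e1 : (t + 1) * L = t * L + L := by ring
      have e2 : (t + 1) * L ≤ r * L := Nat.mul_le_mul_right L ht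
      have hq4 : q < a + r * L := by omega
      have h1 : f (a + t * L) ≤ f q := hf _ _ (by omega) hq1 hq4
      have h2 : f q ≤ f j := hf _ _ (by omega) (by omega) hjr
      by_cases ht0 : t = 0
      · subst ht0; omega
      · have h3 := ih (by omega) (a + t * L) (by omega) (by omega) (by omega)
        omega
  have h1 : L ≤ r * L := Nat.le_mul_of_pos_left L hr
  have h2 := key r le_rfl (a + r * L - 1) (by omega) hr (by omega)
  have h3 := hlt (a + r * L - 1) (by omega) (by omega)
  omega

/-- Piece E -/
theorem comb {V : Type*} (r : ℕ) (hr : 1 ≤ r) (P : ℕ → Set V) (hP : Monotone P)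
    (ρ : ℕ → ℕ → V) (l : ℕ → ℕ) (pos : ℕ → ℕ → ℕ) (M : ℕ)
    (hl : ∀ i < M, l i ≤ r)
    (hpos : ∀ i j, i ≤ j → j < M → pos i j < l i)
    (hmono : ∀ i j j', i ≤ j → j ≤ j' → j' < M → pos i j ≤ pos i j')
    (hav : ∀ i < M, ∀ m ≤ l i, ρ i m ∉ P i)
    (he : ∀ i j, i ≤ j → j < M → ρ i (pos i j + 1) ∈ P (j + 1))
    (k a b : ℕ) (hb : b ≤ M) (hab : a + NN r k ≤ b) :
    ∃ j, a ≤ j ∧ j < b ∧ ∃ I : Finset ℕ, I.card = k ∧ (∀ i ∈ I, a ≤ i ∧ i ≤ j) ∧
      ∀ i ∈ I, ∀ i' ∈ I, i ≠ i' → ρ i (pos i j + 1) ≠ ρ i' (pos i' j + 1) ∧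
        ∀ m, pos i' j + 2 ≤ m → m ≤ l i' → ρ i (pos i j + 1) ≠ ρ i' m := by
  induction k generalizing a b with
  | zero =>
    have h1 : NN r 0 = 1 := rfl
    refine ⟨a, le_rfl, by omega, ∅, rfl, by simp, by simp⟩
  | succ k ih =>
    set N := NN r k with hN
    have hNN : NN r (k + 1) = r * (r * N + 1) := rfl
    rw [hNN] at hab
    set L := r * N + 1 with hL
    have hLr : L ≤ r * L := Nat.le_mul_of_pos_left L hr
    have haM : a < M := by omega
    obtain ⟨t, ht, hconst⟩ := exists_const_block (fun j => pos a j) a L r (by omega)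
      (fun j j' h1 h2 h3 => hmono a j j' h1 h2 (by omega))
      (fun j h1 h2 => lt_of_lt_of_le (hpos a j h1 (by omega)) (hl a haM)) hr
    have e1 : (t + 1) * L = t * L + L := by ring
    have e2 : (t + 1) * L ≤ r * L := Nat.mul_le_mul_right L ht
    set a' := a + t * L with ha'
    have ha'b : a' + L ≤ b := by omega
    set p := pos a a' with hp
    have hconst' : ∀ j, a' ≤ j → j < a' + L → pos a j = p := fun j h1 h2 => hconst j h1 h2
    have hpl : p < l a := hpos a a' (by omega) (by omega)
    have hlar : l a ≤ r := hl a haM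
    have hfirst : ρ a (p + 1) ∈ P (a' + 1) := he a a' (by omega) (by omega)
    -- the second family of blocks
    have hfree : ∃ u < r, ∀ m, p + 2 ≤ m → m ≤ l a → ρ a m ∈ P (a' + 1 + (u + 1) * N) →
        ρ a m ∈ P (a' + 1 + u * N) := by
      by_contra hcon
      push Not at hcon
      choose! g hg1 hg2 hg3 hg4 using hcon
      have hinj : Set.InjOn g (Finset.range r : Set ℕ) := by
        have hlt : ∀ u v, u < v → v < r → g u ≠ g v := by
          intro u v huv hv heq
          have h1 := hg3 u (by omega)
          have h2 := hg4 v hv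
          rw [heq] at h1
          have h3 : (u + 1) * N ≤ v * N := Nat.mul_le_mul_right N huv
          exact h2 (hP (by omega) h1)
        intro u hu v hv heq
        rw [Finset.mem_coe, Finset.mem_range] at hu hv
        rcases lt_trichotomy u v with h | h | h
        · exact absurd heq (hlt u v h hv)
        · exact h
        · exact absurd heq.symm (hlt v u h hu)
      have hmaps : ∀ u ∈ Finset.range r, g u ∈ Finset.Icc (p + 2) (l a) := by
        intro u hu
        rw [Finset.mem_range] at hu
        exact Finset.mem_Icc.2 ⟨hg1 u hu, hg2 u hu⟩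
      have hcard := Finset.card_le_card_of_injOn g hmaps hinj
      rw [Finset.card_range, Nat.card_Icc] at hcard
      omega
    obtain ⟨u, hu, hfree⟩ := hfree
    have e3 : (u + 1) * N = u * N + N := by ring
    have e4 : (u + 1) * N ≤ r * N := Nat.mul_le_mul_right N hu
    obtain ⟨j, hj1, hj2, I, hI, hI2, hI3⟩ := ih (a' + 1 + u * N) (a' + 1 + (u + 1) * N)
      (by omega) (by omega)
    have hjb : j < b := by omega
    have hpj : pos a j = p := hconst' j (by omega) (by omega)
    have haI : a ∉ I := fun h => by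
      have := (hI2 a h).1
      omega
    -- the main two facts
    have hA : ∀ i ∈ I, ∀ m ≤ l i, ρ a (p + 1) ≠ ρ i m := by
      intro i hi m hm heq
      have h1 := hI2 i hi
      have h2 := hav i (by omega) m hm
      rw [← heq] at h2
      exact h2 (hP (by omega) hfirst)
    have hB : ∀ i ∈ I, ∀ m, p + 2 ≤ m → m ≤ l a → ρ i (pos i j + 1) ≠ ρ a m := by
      intro i hi m hm1 hm2 heq
      have h1 := hI2 i hi
      have h2 := he i j h1.2 (by omega)
      have h3 := hpos i j h1.2 (by omega)
      have h4 := hav i (by omega) (pos i j + 1) (by omega)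
      rw [heq] at h2 h4
      exact h4 (hP h1.1 (hfree m hm1 hm2 (hP (by omega) h2)))
    refine ⟨j, by omega, hjb, insert a I, ?_, ?_, ?_⟩
    · rw [Finset.card_insert_of_notMem haI, hI]
    · intro i hi
      rcases Finset.mem_insert.1 hi with h | h
      · subst h; exact ⟨le_rfl, by omega⟩
      · have := hI2 i h
        exact ⟨by omega, this.2⟩
    · intro i hi i' hi' hne
      rcases Finset.mem_insert.1 hi with h | h
      · rcases Finset.mem_insert.1 hi' with h' | h'
        · exact absurd (h.trans h'.symm) hne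
        · subst h
          rw [hpj]
          have h1 := hI2 i' h'
          have h3 := hpos i' j h1.2 (by omega)
          exact ⟨hA i' h' _ (by omega), fun m _ hm => hA i' h' m hm⟩
      · rcases Finset.mem_insert.1 hi' with h' | h'
        · subst h'
          rw [hpj]
          have h1 := hI2 i h
          have h3 := hpos i j h1.2 (by omega)
          exact ⟨(hA i h _ (by omega)).symm, fun m hm1 hm2 => hB i h m hm1 hm2⟩
        · exact hI3 i h i' h' hne

end Pool.Agent.K6.H41.FF
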