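import Pool.Agent.K6.H41.FF.Exchange
import Pool.Agent.K6.H41.FF.PieceE

/-!
# Rounds without short cuts to the late vertices
-/

set_option autoImplicit false

namespace Pool.Agent.K6.H41.FF

open Relation

variable {V : Type*} {G : SimpleGraph V} {s : V} {c : ℕ → V}

/-- a shortest path into the ball -/
theorem ball_path {P F : Set V} : ∀ j v, v ∈ ball G P F j → (∀ j' < j, v ∉ ball G P F j') →
    ∃ ρ : ℕ → V, ρ j = v ∧ ρ 0 ∈ F ∧ (∀ m < j, G.Adj (ρ m) (ρ (m + 1)) ∧ ρ (m + 1) ∉ P) ∧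
      ∀ m ≤ j, ρ m ∈ ball G P F m ∧ ∀ m' < m, ρ m ∉ ball G P F m' := by
  intro j
  induction j with
  | zero =>
    intro v hv _
    refine ⟨fun _ => v, rfl, hv, fun m hm => absurd hm (by omega), ?_⟩
    intro m hm
    obtain rfl : m = 0 := by omega
    exact ⟨hv, fun m' hm' => absurd hm' (by omega)⟩
  | succ j ih =>
    intro v hv hmin
    rcases hv with hv | ⟨hvP, u, hu, ha⟩
    · exact absurd hv (hmin j (by omega))
    · have hu' : ∀ j' < j, u ∉ ball G P F j' := by
        intro j' hj' h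
        exact hmin (j' + 1) (by omega) (Or.inr ⟨hvP, u, h, ha⟩)
      obtain ⟨ρ, h1, h2, h3, h4⟩ := ih u hu hu'
      refine ⟨fun m => if m ≤ j then ρ m else v, by simp, by simpa using h2, ?_, ?_⟩
      · intro m hm
        by_cases hmj : m = j
        · subst hmj
          simp only [le_refl, if_true]
          rw [if_neg (by omega), h1]
          exact ⟨ha, hvP⟩
        · have := h3 m (by omega)
          simp only
          rw [if_pos (by omega), if_pos (by omega)]
          exact this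
      · intro m hm
        by_cases hmj : m ≤ j
        · simp only
          rw [if_pos hmj]; exact h4 m hmj
        · obtain rfl : m = j + 1 := by omega
          simp only
          rw [if_neg (by omega)]
          exact ⟨Or.inr ⟨hvP, u, hu, ha⟩, hmin⟩

theorem exists_path {P F : Set V} {r : ℕ} {v : V} (hv : v ∈ ball G P F r) :
    ∃ (l : ℕ) (ρ : ℕ → V), l ≤ r ∧ ρ l = v ∧ ρ 0 ∈ F ∧
      (∀ m < l, G.Adj (ρ m) (ρ (m + 1)) ∧ ρ (m + 1) ∉ P) ∧
      ∀ m m', m < m' → m' ≤ l → ρ m ≠ ρ m' := by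
  classical
  have hex : ∃ j, v ∈ ball G P F j := ⟨r, hv⟩
  obtain ⟨ρ, h1, h2, h3, h4⟩ := ball_path (Nat.find hex) v (Nat.find_spec hex)
    (fun j' hj' => Nat.find_min hex hj')
  refine ⟨Nat.find hex, ρ, Nat.find_min' hex hv, h1, h2, h3, ?_⟩
  intro m m' hm hm' he
  exact (h4 m' hm').2 m hm (he ▸ (h4 m (by omega)).1)

/-- the width of the windows -/
def WW (q β r : ℕ) : ℕ := (β * NN r (q - 1) * (r + 1) + 1) * (β * NN r (q - 1))

theorem exists_good [Finite V] {q β r τ : ℕ} (hq : Free G q) (hq2 : 2 ≤ q) (hr : 1 ≤ r)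
    (hβ : (layer G s c (τ + 1)).ncard ≤ β) (hW : WW q β r ≤ τ) (hM : 0 < β * NN r (q - 1)) :
    ∃ t, τ - WW q β r ≤ t ∧ t ≤ τ ∧
      ∀ v ∈ ball G (prot G s c t) (fire G s c t) r, v ∉ late G s c τ := by
  classical
  by_contra hcon
  push Not at hcon
  obtain ⟨M, hMd⟩ : ∃ M, M = NN r (q - 1) := ⟨_, rfl⟩
  obtain ⟨Q, hQ⟩ : ∃ Q, Q = β * M := ⟨_, rfl⟩
  obtain ⟨g, hg⟩ : ∃ g, g = Q * (r + 1) + 1 := ⟨_, rfl⟩
  have hWW : WW q β r = g * Q := by unfold WW; rw [← hMd, ← hQ, ← hg]
  rw [← hMd, ← hQ] at hM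
  rw [hWW] at hcon hW
  have hMQ : M ≤ Q := by
    rw [hQ]; exact Nat.le_mul_of_pos_left M (Nat.pos_of_ne_zero fun h => by
      rw [hQ, h, Nat.zero_mul] at hM; omega)
  have hne : Nonempty V := ⟨s⟩
  -- the paths
  have hpath : ∀ i : ℕ, i < Q → ∃ (l : ℕ) (ρ : ℕ → V), l ≤ r ∧ ρ l ∈ late G s c τ ∧
      ρ 0 ∈ fire G s c (τ - g * Q + g * i) ∧
      (∀ m < l, G.Adj (ρ m) (ρ (m + 1)) ∧ ρ (m + 1) ∉ prot G s c (τ - g * Q + g * i)) ∧
      ∀ m m', m < m' → m' ≤ l → ρ m ≠ ρ m' := by
    intro i hi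
    have h1 : g * i + g ≤ g * Q := by
      calc g * i + g = g * (i + 1) := by ring
        _ ≤ g * Q := Nat.mul_le_mul_left g hi
    obtain ⟨v, hv, hvl⟩ := hcon (τ - g * Q + g * i) (by omega) (by omega)
    obtain ⟨l, ρ, h2, h3, h4⟩ := exists_path hv
    exact ⟨l, ρ, h2, h3 ▸ hvl, h4⟩
  choose! l ρ hlr hlate h0 hstep hinj using hpath
  -- pigeonhole for the components
  have hw : ∀ i : ℕ, i < Q → ∃ w ∈ layer G s c (τ + 1), ρ i (l i) ∈ comp G s c τ w :=
    fun i hi => exists_comp (hlate i hi)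
  choose! w hwl hwc using hw
  obtain ⟨w₀, hw₀, hfib⟩ : ∃ w₀ ∈ layer G s c (τ + 1),
      M ≤ ((Finset.range Q).filter (fun i => w i = w₀)).card := by
    have := Finset.exists_le_card_fiber_of_mul_le_card_of_maps_to
      (s := Finset.range Q) (t := (Set.toFinite (layer G s c (τ + 1))).toFinset) (f := w)
      (n := M) (fun i hi => by
        rw [Set.Finite.mem_toFinset]; exact hwl i (Finset.mem_range.mp hi))
      ((Set.toFinite (layer G s c (τ + 1))).toFinset_nonempty.mpr
        ⟨w 0, hwl 0 hM⟩)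
      (by
        rw [Finset.card_range, hQ, ← Set.ncard_eq_toFinset_card]
        exact Nat.mul_le_mul_right M hβ)
    obtain ⟨y, hy, h⟩ := this
    exact ⟨y, (Set.Finite.mem_toFinset _).mp hy, h⟩
  obtain ⟨J, hJs, hJc⟩ := Finset.exists_subset_card_eq hfib
  -- increasing enumeration
  obtain ⟨idx, hidx, hidxJ⟩ : ∃ idx : ℕ → ℕ, (∀ i j, i < j → j < M → idx i < idx j) ∧
      ∀ i < M, idx i ∈ J := by
    refine ⟨fun i => if h : i < M then J.orderEmbOfFin hJc ⟨i, h⟩ else 0, ?_, ?_⟩
    · intro i j hij hj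
      simp only [dif_pos hj, dif_pos (hij.trans hj)]
      exact (J.orderEmbOfFin hJc).strictMono (by exact hij)
    · intro i hi
      simp only [dif_pos hi]
      exact Finset.orderEmbOfFin_mem _ _ _
  have hidxQ : ∀ i < M, idx i < Q := fun i hi =>
    Finset.mem_range.mp (Finset.mem_filter.mp (hJs (hidxJ i hi))).1
  have hidxw : ∀ i < M, w (idx i) = w₀ := fun i hi =>
    (Finset.mem_filter.mp (hJs (hidxJ i hi))).2
  -- the times
  let t : ℕ → ℕ := fun j => if j < M then τ - g * Q + g * idx j else τ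
  have htg : ∀ j < M, t j + g ≤ t (j + 1) := by
    intro j hj
    simp only [t, if_pos hj]
    by_cases hj1 : j + 1 < M
    · rw [if_pos hj1]
      have := hidx j (j + 1) (by omega) hj1
      have h1 : g * idx j + g ≤ g * idx (j + 1) := by
        calc g * idx j + g = g * (idx j + 1) := by ring
          _ ≤ g * idx (j + 1) := Nat.mul_le_mul_left g this
      omega
    · rw [if_neg hj1]
      have h1 : g * idx j + g ≤ g * Q := by
        calc g * idx j + g = g * (idx j + 1) := by ring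
          _ ≤ g * Q := Nat.mul_le_mul_left g (hidxQ j hj)
      omega
  have htτ : ∀ j, t j ≤ τ := by
    intro j
    simp only [t]
    split_ifs with hj
    · have h1 : g * idx j ≤ g * Q := Nat.mul_le_mul_left g (hidxQ j hj).le
      omega
    · exact le_rfl
  have htm : Monotone t := by
    apply monotone_nat_of_le_succ
    intro j
    by_cases hj : j < M
    · have := htg j hj; omega
    · simp only [t]; rw [if_neg hj, if_neg (by omega)]
  -- the thresholds
  have hthr : ∀ j < M, ∃ θ, t j ≤ θ ∧ θ + 1 ≤ t (j + 1) ∧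
      ∀ i < M, ∀ m ≤ r, tm G s c (ρ (idx i) m) ≠ θ + 1 := by
    intro j hj
    obtain ⟨θ, hθ, hθ'⟩ : ∃ θ ∈ Finset.Icc (t j) (t j + Q * (r + 1)), θ ∉
        ((Finset.range M ×ˢ Finset.range (r + 1)).image
          (fun x => tm G s c (ρ (idx x.1) x.2) - 1)) := by
      by_contra hno
      push Not at hno
      have h1 := Finset.card_le_card (show Finset.Icc (t j) (t j + Q * (r + 1)) ⊆ _ from hno)
      have h2 := Finset.card_image_le (s := Finset.range M ×ˢ Finset.range (r + 1))
        (f := fun x => tm G s c (ρ (idx x.1) x.2) - 1)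
      rw [Finset.card_product, Finset.card_range, Finset.card_range] at h2
      rw [Nat.card_Icc] at h1
      have h3 : M * (r + 1) ≤ Q * (r + 1) := Nat.mul_le_mul_right _ hMQ
      omega
    rw [Finset.mem_Icc] at hθ
    refine ⟨θ, hθ.1, ?_, ?_⟩
    · have := htg j hj
      omega
    · intro i hi m hm he
      apply hθ'
      rw [Finset.mem_image]
      exact ⟨(i, m), Finset.mem_product.mpr ⟨Finset.mem_range.mpr hi,
        Finset.mem_range.mpr (by omega)⟩, by simp only; omega⟩
  choose! θ hθ1 hθ2 hθ3 using hthr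
  have hθτ : ∀ j < M, θ j + 1 ≤ τ := fun j hj => (hθ2 j hj).trans (htτ _)
  -- last position in the fire
  let pos : ℕ → ℕ → ℕ := fun i j =>
    Nat.findGreatest (fun m => ρ (idx i) m ∈ fire G s c (θ j)) (l (idx i))
  have ht0 : ∀ i < M, ρ (idx i) 0 ∈ fire G s c (t i) := by
    intro i hi
    simp only [t, if_pos hi]
    exact h0 _ (hidxQ i hi)
  have hpos_mem : ∀ i j, i ≤ j → j < M → ρ (idx i) (pos i j) ∈ fire G s c (θ j) := by
    intro i j hij hj
    refine Nat.findGreatest_spec (P := fun m => ρ (idx i) m ∈ fire G s c (θ j)) (Nat.zero_le _) ?_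
    exact fire_mono ((htm hij).trans (hθ1 j hj)) (ht0 i (by omega))
  have hpos_lt : ∀ i j, i ≤ j → j < M → pos i j < l (idx i) := by
    intro i j hij hj
    refine lt_of_le_of_ne (Nat.findGreatest_le _) ?_
    intro he
    have h1 := hpos_mem i j hij hj
    rw [he] at h1
    have h2 := hlate _ (hidxQ i (by omega))
    have h3 := (mem_fire_iff h2.1 _).mp h1
    have h4 := h2.2
    have := hθτ j hj
    omega
  have hpos_max : ∀ i j m, pos i j < m → m ≤ l (idx i) → ρ (idx i) m ∉ fire G s c (θ j) := by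
    intro i j m h1 h2 h3
    exact absurd (Nat.le_findGreatest (P := fun m => ρ (idx i) m ∈ fire G s c (θ j)) h2 h3)
      (by simpa [pos] using h1)
  have he : ∀ i j, i ≤ j → j < M → ρ (idx i) (pos i j + 1) ∈ prot G s c (θ j + 1) := by
    intro i j hij hj
    by_contra hno
    have h1 := mem_fire_succ (hpos_mem i j hij hj)
      ((hstep _ (hidxQ i (by omega)) _ (hpos_lt i j hij hj)).1) hno
    have h2 := hpos_max i j (pos i j + 1) (by omega) (hpos_lt i j hij hj)
    have hb := fire_sub_burnt _ h1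
    rw [mem_fire_iff hb] at h1 h2
    exact hθ3 j hj i (by omega) (pos i j + 1)
      (le_trans (hpos_lt i j hij hj) (hlr _ (hidxQ i (by omega)))) (by omega)
  obtain ⟨j, _, hj, I, hIc, hIj, hI⟩ := comb r hr (fun j => prot G s c (t j))
    (fun a b hab => prot_mono (htm hab)) (fun i => ρ (idx i)) (fun i => l (idx i)) pos M
    (fun i hi => hlr _ (hidxQ i hi)) hpos_lt
    (by
      intro i j j' _ hjj' hj'
      refine Nat.findGreatest_mono_left ?_ _
      intro m hm
      refine fire_mono ?_ hm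
      rcases eq_or_lt_of_le hjj' with h | h
      · rw [h]
      · have h1 := hθ2 j (by omega)
        have h2 := htm (show j + 1 ≤ j' from h)
        have h3 := hθ1 j' hj'
        omega)
    (by
      intro i hi m hm
      rcases Nat.eq_zero_or_pos m with h | h
      · subst h; exact fire_notMem_prot (ht0 i hi)
      · obtain ⟨m', rfl⟩ : ∃ m', m = m' + 1 := ⟨m - 1, by omega⟩
        have := (hstep _ (hidxQ i hi) m' (by omega)).2
        simp only [t, if_pos hi]
        exact this)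
    (fun i j hij hj => prot_mono (hθ2 j hj) (he i j hij hj))
    (q - 1) 0 M le_rfl (by rw [hMd]; omega)
  -- the minor
  have hw₀b := hw₀.1
  have hw₀l : w₀ ∈ late G s c (θ j + 1) := ⟨hw₀b, by have := hw₀.2; have := hθτ j hj; omega⟩
  obtain ⟨w₁, hw₁b, hw₁t, hw₁j⟩ := exists_ancestor hw₀b (τ + 1 - (θ j + 2)) (θ j + 2)
    (by have := hw₀.2; have := hθτ j hj; omega)
  have hw₁l : w₁ ∈ late G s c (θ j + 1) := ⟨hw₁b, by omega⟩
  obtain ⟨w₂, hw₂b, hw₂t, hw₂a⟩ := exists_parent hw₁b (by omega)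
  obtain ⟨w₃, hw₃b, hw₃t, hw₃a⟩ := exists_parent hw₂b (by omega)
  have hsub : comp G s c τ w₀ ⊆ comp G s c (θ j + 1) w₀ := by
    have hl : late G s c τ ⊆ late G s c (θ j + 1) := fun v hv =>
      ⟨hv.1, by have := hv.2; have := hθτ j hj; omega⟩
    rintro v ⟨hv, hvj⟩
    exact ⟨hl hv, hvj.mono hl⟩
  let U : Set V := comp G s c (θ j + 1) w₀ ∪
    {v | ∃ i ∈ I, ∃ m, pos i j + 2 ≤ m ∧ m ≤ l (idx i) ∧ v = ρ (idx i) m}
  have hUc : Cn G U := by
    refine Cn.of_center w₀ (Or.inl ⟨hw₀l, Jn.refl _⟩) ?_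
    have h1 : ∀ v ∈ comp G s c (θ j + 1) w₀, Jn G U v w₀ := fun v hv =>
      ((comp_conn hw₀l).joined hv ⟨hw₀l, Jn.refl _⟩).mono Set.subset_union_left
    rintro v (hv | ⟨i, hi, m, hm1, hm2, rfl⟩)
    · exact h1 v hv
    · have hiM : i < M := lt_of_le_of_lt (hIj i hi).2 hj
      have key : ∀ k m, m + k = l (idx i) → pos i j + 2 ≤ m →
          Jn G U (ρ (idx i) m) (ρ (idx i) (l (idx i))) := by
        intro k
        induction k with
        | zero => intro m hm _; rw [← hm]; exact Jn.refl _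
        | succ k ih =>
          intro m hm hm'
          refine Jn.trans (Jn.single (hstep _ (hidxQ i hiM) m (by omega)).1
            (Or.inr ⟨i, hi, m, hm', by omega, rfl⟩)
            (Or.inr ⟨i, hi, m + 1, by omega, by omega, rfl⟩)) (ih (m + 1) (by omega) (by omega))
      refine (key (l (idx i) - m) m (by omega) hm1).trans (h1 _ (hsub ?_))
      have := hwc _ (hidxQ i hiM)
      rwa [hidxw i hiM] at this
  let E : Finset V := I.image (fun i => ρ (idx i) (pos i j + 1))
  have hE : E.card = q - 1 := by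
    rw [Finset.card_image_of_injOn, hIc]
    intro i hi i' hi' h
    by_contra hne
    exact (hI i hi i' hi' hne).1 h
  have hEp : ∀ v ∈ E, v ∈ prot G s c (θ j + 1) := by
    intro v hv
    obtain ⟨i, hi, rfl⟩ := Finset.mem_image.mp hv
    exact he i j (hIj i hi).2 hj
  have hw₂E : w₂ ∉ E := fun h => by
    obtain ⟨k, hk⟩ := hw₂b
    exact fire_notMem_prot hk (hEp _ h)
  have hcard : (insert w₂ E).card = q := by
    rw [Finset.card_insert_of_notMem hw₂E, hE]; omega
  have hlt := few_common hq (fire_conn (G := G) (s := s) (c := c) (θ j)) hUc ?_ (insert w₂ E) ?_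
  · omega
  · rw [Set.disjoint_left]
    rintro v hv (hv' | ⟨i, hi, m, hm1, hm2, rfl⟩)
    · have h1 := (mem_fire_iff hv'.1.1 _).mp hv
      have h2 := hv'.1.2
      omega
    · exact hpos_max i j m (by omega) hm2 hv
  · intro z hz
    rcases Finset.mem_insert.mp hz with rfl | hz
    · refine ⟨?_, ?_, ⟨w₃, ?_, hw₃a⟩, ⟨w₁, Or.inl ⟨hw₁l, ?_⟩, hw₂a.symm⟩⟩
      · rw [mem_fire_iff hw₂b]; omega
      · rintro (h | ⟨i, hi, m, hm1, hm2, h⟩)
        · have := h.1.2; omega
        · have hiM : i < M := lt_of_le_of_lt (hIj i hi).2 hj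
          exact hθ3 j hj i hiM m (hm2.trans (hlr _ (hidxQ i hiM))) (by rw [← h]; omega)
      · rw [mem_fire_iff hw₃b]; omega
      · refine (hw₁j.mono ?_).symm
        rintro x ⟨hx, hx1, _⟩
        exact ⟨hx, by omega⟩
    · have hzp := hEp z hz
      have hzb : z ∉ burnt G s c := by
        rintro ⟨k, hk⟩
        exact fire_notMem_prot hk hzp
      obtain ⟨i, hi, rfl⟩ := Finset.mem_image.mp hz
      have hiM : i < M := lt_of_le_of_lt (hIj i hi).2 hj
      have hij := (hIj i hi).2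
      have hlt2 := hpos_lt i j hij hj
      have hne : pos i j + 1 ≠ l (idx i) := by
        intro h
        apply hzb
        rw [h]
        exact (hlate _ (hidxQ i hiM)).1
      refine ⟨hpos_max i j _ (by omega) hlt2, ?_, ⟨_, hpos_mem i j hij hj,
        (hstep _ (hidxQ i hiM) _ hlt2).1⟩, ⟨ρ (idx i) (pos i j + 2),
          Or.inr ⟨i, hi, pos i j + 2, le_rfl, by omega, rfl⟩,
          ((hstep _ (hidxQ i hiM) (pos i j + 1) (by omega)).1).symm⟩⟩
      rintro (h | ⟨i', hi', m, hm1, hm2, h⟩)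
      · exact hzb h.1.1
      · by_cases hii : i = i'
        · subst hii
          exact hinj _ (hidxQ i hiM) _ _ (by omega) hm2 h
        · exact (hI i hi i' hi' hii).2 m hm1 hm2 h

end Pool.Agent.K6.H41.FF
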