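import Pool.Agent.K6.H41.FF.Bound

/-!
# The bound for the number of rounds: estimates
-/

set_option autoImplicit false

namespace Pool.Agent.K6.H41.FF

theorem NN_le {r : ℕ} (hr : 1 ≤ r) (k : ℕ) : 1 ≤ NN r k ∧ NN r k ≤ (2 * r ^ 2) ^ k := by
  induction k with
  | zero => simp [NN]
  | succ k ih =>
    obtain ⟨h1, h2⟩ := ih
    simp only [NN]
    refine ⟨Nat.mul_pos hr (by omega), ?_⟩
    have h3 : r * NN r k + 1 ≤ 2 * (r * NN r k) := by
      have : 1 ≤ r * NN r k := Nat.mul_pos hr h1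
      omega
    calc r * (r * NN r k + 1) ≤ r * (2 * (r * NN r k)) := Nat.mul_le_mul_left _ h3
      _ = (2 * r ^ 2) * NN r k := by ring
      _ ≤ (2 * r ^ 2) * (2 * r ^ 2) ^ k := Nat.mul_le_mul_left _ h2
      _ = (2 * r ^ 2) ^ (k + 1) := by ring

theorem WW_le (q : ℕ) (hq : 2 ≤ q) : ∃ A : ℕ, 1 ≤ A ∧ ∀ β : ℕ, 1 ≤ β →
    WW q β ((q - 1) * β + 1) + 1 ≤ A * β ^ (4 * q) := by
  obtain ⟨k, rfl⟩ : ∃ k, q = k + 1 := ⟨q - 1, by omega⟩
  refine ⟨5 * (k + 1) * ((2 * (k + 1) ^ 2) ^ k) ^ 2,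
    Nat.one_le_iff_ne_zero.mpr (by positivity), fun β hβ => ?_⟩
  have hr : (k + 1 - 1) * β + 1 ≤ (k + 1) * β := by
    rw [Nat.add_sub_cancel]
    calc k * β + 1 ≤ k * β + β := by omega
      _ = (k + 1) * β := by ring
  set r := (k + 1 - 1) * β + 1 with hrd
  have hr1 : 1 ≤ r := by omega
  set a := (2 * (k + 1) ^ 2) ^ k with ha
  have ha1 : 1 ≤ a := by rw [ha]; exact Nat.one_le_iff_ne_zero.mpr (by positivity)
  obtain ⟨h1, h2⟩ := NN_le hr1 k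
  have hM : NN r k ≤ a * β ^ (2 * k) := by
    calc NN r k ≤ (2 * r ^ 2) ^ k := h2
      _ ≤ (2 * ((k + 1) * β) ^ 2) ^ k :=
        Nat.pow_le_pow_left (Nat.mul_le_mul_left 2 (Nat.pow_le_pow_left hr 2)) k
      _ = (2 * (k + 1) ^ 2 * β ^ 2) ^ k := by congr 1; ring
      _ = a * β ^ (2 * k) := by rw [ha, mul_pow, ← pow_mul]
  have hQ : β * NN r k ≤ a * β ^ (2 * k + 1) := by
    calc β * NN r k ≤ β * (a * β ^ (2 * k)) := Nat.mul_le_mul_left _ hM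
      _ = a * β ^ (2 * k + 1) := by ring
  have hQ1 : 1 ≤ a * β ^ (2 * k + 1) := Nat.mul_pos ha1 (Nat.pow_pos hβ)
  have hr2 : r + 1 ≤ 2 * ((k + 1) * β) := by
    have : 1 ≤ (k + 1) * β := Nat.mul_pos (by omega) hβ
    omega
  unfold WW
  rw [Nat.add_sub_cancel]
  have e1 : β * NN r k * (r + 1) + 1 ≤ 4 * (k + 1) * a * β ^ (2 * k + 2) := by
    have h3 : β * NN r k * (r + 1) ≤ a * β ^ (2 * k + 1) * (2 * ((k + 1) * β)) :=
      Nat.mul_le_mul hQ hr2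
    have h4 : a * β ^ (2 * k + 1) * (2 * ((k + 1) * β)) = 2 * (k + 1) * a * β ^ (2 * k + 2) := by
      ring
    have h5 : 1 ≤ 2 * (k + 1) * a * β ^ (2 * k + 2) :=
      Nat.mul_pos (Nat.mul_pos (by omega) ha1) (Nat.pow_pos hβ)
    calc β * NN r k * (r + 1) + 1 ≤ 2 * (k + 1) * a * β ^ (2 * k + 2) +
        2 * (k + 1) * a * β ^ (2 * k + 2) := by omega
      _ = 4 * (k + 1) * a * β ^ (2 * k + 2) := by ring
  have e2 : (β * NN r k * (r + 1) + 1) * (β * NN r k) ≤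
      4 * (k + 1) * a ^ 2 * β ^ (4 * k + 3) := by
    calc (β * NN r k * (r + 1) + 1) * (β * NN r k) ≤
        4 * (k + 1) * a * β ^ (2 * k + 2) * (a * β ^ (2 * k + 1)) := Nat.mul_le_mul e1 hQ
      _ = 4 * (k + 1) * a ^ 2 * β ^ (4 * k + 3) := by ring
  have e3 : β ^ (4 * k + 3) ≤ β ^ (4 * (k + 1)) := Nat.pow_le_pow_right hβ (by omega)
  have e4 : 1 ≤ (k + 1) * a ^ 2 * β ^ (4 * (k + 1)) :=
    Nat.mul_pos (Nat.mul_pos (by omega) (Nat.pow_pos ha1)) (Nat.pow_pos hβ)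
  calc (β * NN r k * (r + 1) + 1) * (β * NN r k) + 1
      ≤ 4 * (k + 1) * a ^ 2 * β ^ (4 * (k + 1)) + (k + 1) * a ^ 2 * β ^ (4 * (k + 1)) :=
        Nat.add_le_add (e2.trans (Nat.mul_le_mul_left _ e3)) e4
    _ = 5 * (k + 1) * a ^ 2 * β ^ (4 * (k + 1)) := by ring

theorem num_bound {E A q n T W β : ℕ} (hE : 2 ≤ E) (hn : 1 ≤ n) (hβn : β ≤ n)
    (hβ1 : β ^ (2 * E) ≤ n) (hβ2 : n < (β + 1) ^ (2 * E)) (hW : W + 1 ≤ A * β ^ E)
    (h : (T / 2 - W - n / (β + 1)) * (T / 2) ≤ (W + 1) * ((q - 1) * n)) :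
    (T + 1) ^ (2 * E) ≤ ((64 * A ^ 2) ^ E + 10 ^ (2 * E) + (64 * A * q) ^ E) *
      n ^ (2 * E - 1) := by
  obtain ⟨e, he⟩ : ∃ e, 2 * E = e + 1 := ⟨2 * E - 1, by omega⟩
  have hn0 : n ≠ 0 := by omega
  have hpos : ∀ k, 1 ≤ n ^ k := fun k => Nat.one_le_iff_ne_zero.mpr (pow_ne_zero _ hn0)
  have hc1 : (64 * A ^ 2) ^ E ≤ (64 * A ^ 2) ^ E + 10 ^ (2 * E) + (64 * A * q) ^ E :=
    le_trans (Nat.le_add_right _ _) (Nat.le_add_right _ _)
  have hc2 : 10 ^ (2 * E) ≤ (64 * A ^ 2) ^ E + 10 ^ (2 * E) + (64 * A * q) ^ E :=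
    le_trans (Nat.le_add_left _ _) (Nat.le_add_right _ _)
  have hc3 : (64 * A * q) ^ E ≤ (64 * A ^ 2) ^ E + 10 ^ (2 * E) + (64 * A * q) ^ E :=
    Nat.le_add_left _ _
  by_cases h1 : T < 8 * (W + 1)
  · have h2 : T + 1 ≤ 8 * (A * β ^ E) := by
      have := Nat.mul_le_mul_left 8 hW
      omega
    have h3 : (T + 1) ^ (2 * E) ≤ (64 * A ^ 2) ^ E * n ^ E := by
      calc (T + 1) ^ (2 * E) ≤ (8 * (A * β ^ E)) ^ (2 * E) := Nat.pow_le_pow_left h2 _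
        _ = (64 * A ^ 2 * β ^ (2 * E)) ^ E := by
          rw [pow_mul]; congr 1; rw [mul_pow, mul_pow, ← pow_mul, mul_comm E 2]; ring
        _ ≤ (64 * A ^ 2 * n) ^ E := Nat.pow_le_pow_left (Nat.mul_le_mul_left _ hβ1) _
        _ = (64 * A ^ 2) ^ E * n ^ E := by rw [mul_pow]
    calc (T + 1) ^ (2 * E) ≤ (64 * A ^ 2) ^ E * n ^ E := h3
      _ ≤ ((64 * A ^ 2) ^ E + 10 ^ (2 * E) + (64 * A * q) ^ E) * n ^ (2 * E - 1) :=
        Nat.mul_le_mul hc1 (Nat.pow_le_pow_right hn (by omega))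
  by_cases h2 : T * (β + 1) ≤ 8 * n
  · have h3 : (T + 1) * (β + 1) ≤ 10 * n := by
      calc (T + 1) * (β + 1) = T * (β + 1) + (β + 1) := by ring
        _ ≤ 10 * n := by omega
    have h4 : (T + 1) ^ (2 * E) * n ≤ 10 ^ (2 * E) * n ^ (2 * E - 1) * n := by
      calc (T + 1) ^ (2 * E) * n ≤ (T + 1) ^ (2 * E) * (β + 1) ^ (2 * E) :=
            Nat.mul_le_mul_left _ hβ2.le
        _ = ((T + 1) * (β + 1)) ^ (2 * E) := by rw [mul_pow]
        _ ≤ (10 * n) ^ (2 * E) := Nat.pow_le_pow_left h3 _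
        _ = 10 ^ (2 * E) * n ^ (2 * E - 1) * n := by
          rw [mul_pow, he, Nat.add_sub_cancel]; ring
    have h5 := Nat.le_of_mul_le_mul_right h4 (by omega)
    exact h5.trans (Nat.mul_le_mul_right _ hc2)
  · push Not at h1 h2
    have h3 : 8 * (n / (β + 1)) < T := by
      by_contra hno
      push Not at hno
      have h4 := Nat.div_mul_le_self n (β + 1)
      have h5 : T * (β + 1) ≤ 8 * (n / (β + 1)) * (β + 1) := Nat.mul_le_mul_right _ hno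
      have h6 : 8 * (n / (β + 1)) * (β + 1) = 8 * (n / (β + 1) * (β + 1)) := by ring
      omega
    have h4 : T ≤ 4 * (T / 2 - W - n / (β + 1)) := by omega
    have h5 : T ≤ 4 * (T / 2) := by omega
    have h6 : (T + 1) ^ 2 ≤ 64 * A * q * (β ^ E * n) := by
      calc (T + 1) ^ 2 ≤ (2 * T) ^ 2 := Nat.pow_le_pow_left (by omega) 2
        _ = 4 * (T * T) := by ring
        _ ≤ 4 * ((4 * (T / 2 - W - n / (β + 1))) * (4 * (T / 2))) :=
          Nat.mul_le_mul_left _ (Nat.mul_le_mul h4 h5)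
        _ = 64 * ((T / 2 - W - n / (β + 1)) * (T / 2)) := by ring
        _ ≤ 64 * ((W + 1) * ((q - 1) * n)) := Nat.mul_le_mul_left _ h
        _ ≤ 64 * ((A * β ^ E) * (q * n)) :=
          Nat.mul_le_mul_left _ (Nat.mul_le_mul hW (Nat.mul_le_mul_right _ (by omega)))
        _ = 64 * A * q * (β ^ E * n) := by ring
    have h7 : ((T + 1) ^ (2 * E)) ^ 2 ≤ ((64 * A * q) ^ E * n ^ (2 * E - 1)) ^ 2 := by
      calc ((T + 1) ^ (2 * E)) ^ 2 = (((T + 1) ^ 2) ^ 2) ^ E := by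
            rw [← pow_mul, ← pow_mul, ← pow_mul]; congr 1; ring
        _ ≤ ((64 * A * q * (β ^ E * n)) ^ 2) ^ E :=
          Nat.pow_le_pow_left (Nat.pow_le_pow_left h6 2) E
        _ = ((64 * A * q) ^ 2 * (β ^ (2 * E) * n ^ 2)) ^ E := by
          congr 1
          rw [mul_pow (64 * A * q) (β ^ E * n) 2, mul_pow (β ^ E) n 2, ← pow_mul, mul_comm E 2]
        _ ≤ ((64 * A * q) ^ 2 * (n * n ^ 2)) ^ E :=
          Nat.pow_le_pow_left (Nat.mul_le_mul_left _ (Nat.mul_le_mul_right _ hβ1)) E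
        _ = (64 * A * q) ^ (2 * E) * n ^ (3 * E) := by
          rw [mul_pow ((64 * A * q) ^ 2) _ E, ← pow_mul, ← pow_succ', ← pow_mul]
        _ ≤ (64 * A * q) ^ (2 * E) * n ^ (2 * (2 * E - 1)) :=
          Nat.mul_le_mul_left _ (Nat.pow_le_pow_right hn (by omega))
        _ = ((64 * A * q) ^ E * n ^ (2 * E - 1)) ^ 2 := by
          rw [mul_pow ((64 * A * q) ^ E) _ 2, ← pow_mul, ← pow_mul, mul_comm E 2,
            mul_comm (2 * E - 1) 2]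
    have h8 := (Nat.pow_le_pow_iff_left (by norm_num)).mp h7
    exact h8.trans (Nat.mul_le_mul_right _ hc3)

/-- **The number of rounds of an optimal strategy.** -/
theorem time_bound (q : ℕ) (hq2 : 2 ≤ q) : ∃ C : ℕ, ∀ (V : Type) [Finite V]
    (G : SimpleGraph V), Free G q → ∀ (s : V) (c : ℕ → V),
    (∀ c', (burnt G s c).ncard ≤ (burnt G s c').ncard) → ∀ v ∈ burnt G s c,
    (tm G s c v + 1) ^ (8 * q) ≤ C * Nat.card V ^ (8 * q - 1) := by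
  obtain ⟨A, hA1, hA⟩ := WW_le q hq2
  refine ⟨(64 * A ^ 2) ^ (4 * q) + 10 ^ (2 * (4 * q)) + (64 * A * q) ^ (4 * q), ?_⟩
  intro V _ G hG s c hopt v hv
  have hne : Nonempty V := ⟨s⟩
  have hn : 1 ≤ Nat.card V := Nat.card_pos
  obtain ⟨n, hnd⟩ : ∃ n, n = Nat.card V := ⟨_, rfl⟩
  rw [← hnd] at hn ⊢
  obtain ⟨β, hβd⟩ : ∃ β, β = Nat.findGreatest (fun b => b ^ (2 * (4 * q)) ≤ n) n := ⟨_, rfl⟩
  have hβ1 : β ^ (2 * (4 * q)) ≤ n := by
    rw [hβd]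
    exact Nat.findGreatest_spec (P := fun b => b ^ (2 * (4 * q)) ≤ n) hn (by simpa using hn)
  have hβn : β ≤ n := by rw [hβd]; exact Nat.findGreatest_le n
  have hβ0 : 1 ≤ β := by
    rw [hβd]
    exact Nat.le_findGreatest hn (by simpa using hn)
  have hβ2 : n < (β + 1) ^ (2 * (4 * q)) := by
    by_contra hno
    push Not at hno
    have h1 : β + 1 ≤ n := (Nat.le_self_pow (by omega) _).trans hno
    have h2 := Nat.le_findGreatest (P := fun b => b ^ (2 * (4 * q)) ≤ n) h1 hno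
    rw [← hβd] at h2
    omega
  have hm := main_ineq hG hq2 hβ0 hopt hv rfl rfl
  rw [← hnd] at hm
  have := num_bound (E := 4 * q) (A := A) (q := q) (by omega) hn hβn hβ1 hβ2 (hA β hβ0) hm
  have e : 8 * q = 2 * (4 * q) := by ring
  rw [e]
  exact this

end Pool.Agent.K6.H41.FF
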