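import Pool.Agent.K6.H41.FF.Defs
import Pool.Agent.TH687.HL2

/-!
The brute force program, part 1: memory layout and subprograms.
-/

set_option autoImplicit false

namespace Pool.Agent.K6.H41.FF.RamB

open Pool.Agent.H588R2 Pool.Agent.TH687.HL Pool.Agent.K6.H41.FF

/-- Memory layout: adjacency matrix, array `A`, array `B`, digits `d`. -/
def lay (n : ℕ) (a A B d : ℕ → ℕ) : ℕ → ℕ := fun x =>
  if x < n * n then a x else if x < n * n + n then A (x - n * n) else
    if x < n * n + 2 * n then B (x - (n * n + n)) else d (x - (n * n + 2 * n))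

theorem lay_a {n x : ℕ} {a A B d : ℕ → ℕ} (h : x < n * n) : lay n a A B d x = a x := by
  simp [lay, h]

theorem lay_A {n v : ℕ} {a A B d : ℕ → ℕ} (h : v < n) : lay n a A B d (n * n + v) = A v := by
  unfold lay
  rw [if_neg (by omega), if_pos (by omega)]
  congr 1; omega

theorem lay_B {n v : ℕ} {a A B d : ℕ → ℕ} (h : v < n) :
    lay n a A B d (n * n + n + v) = B v := by
  unfold lay
  rw [if_neg (by omega), if_neg (by omega), if_pos (by omega)]
  congr 1; omega

theorem lay_d {n i : ℕ} {a A B d : ℕ → ℕ} :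
    lay n a A B d (n * n + 2 * n + i) = d i := by
  unfold lay
  rw [if_neg (by omega), if_neg (by omega), if_neg (by omega)]
  congr 1; omega

theorem upd_A {n v z : ℕ} {a A B d : ℕ → ℕ} (h : v < n) :
    Function.update (lay n a A B d) (n * n + v) z = lay n a (Function.update A v z) B d := by
  funext x
  unfold lay
  by_cases e : x = n * n + v
  · subst e
    rw [Function.update_self, if_neg (by omega), if_pos (by omega),
      show n * n + v - n * n = v by omega, Function.update_self]
  · rw [Function.update_of_ne e]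
    split_ifs with h1 h2 h3
    · rfl
    · rw [Function.update_of_ne (by omega)]
    · rfl
    · rfl

theorem upd_B {n v z : ℕ} {a A B d : ℕ → ℕ} (h : v < n) :
    Function.update (lay n a A B d) (n * n + n + v) z = lay n a A (Function.update B v z) d := by
  funext x
  unfold lay
  by_cases e : x = n * n + n + v
  · subst e
    rw [Function.update_self, if_neg (by omega), if_neg (by omega), if_pos (by omega),
      show n * n + n + v - (n * n + n) = v by omega, Function.update_self]
  · rw [Function.update_of_ne e]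
    split_ifs with h1 h2 h3
    · rfl
    · rfl
    · rw [Function.update_of_ne (by omega)]
    · rfl

theorem upd_d {n i z : ℕ} {a A B d : ℕ → ℕ} :
    Function.update (lay n a A B d) (n * n + 2 * n + i) z = lay n a A B (Function.update d i z) := by
  funext x
  unfold lay
  by_cases e : x = n * n + 2 * n + i
  · subst e
    rw [Function.update_self, if_neg (by omega), if_neg (by omega), if_neg (by omega),
      show n * n + 2 * n + i - (n * n + 2 * n) = i by omega, Function.update_self]
  · rw [Function.update_of_ne e]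
    split_ifs with h1 h2 h3
    · rfl
    · rfl
    · rfl
    · rw [Function.update_of_ne (by omega)]

/-- Registers during the main loop. -/
structure Env (n k sv T N : ℕ) (s : St) : Prop where
  r0 : s.reg 0 = n
  r1 : s.reg 1 = k
  r2 : s.reg 2 = sv
  r3 : s.reg 3 = T
  r4 : s.reg 4 = N
  r5 : s.reg 5 = T + n
  r8 : s.reg 8 = n * n
  r9 : s.reg 9 = n * n + n
  r10 : s.reg 10 = n * n + 2 * n

theorem Env.fr {n k sv T N : ℕ} {s s' : St} (E : Env n k sv T N s)
    (h : ∀ y, y < 11 → s'.reg y = s.reg y) : Env n k sv T N s' :=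
  ⟨by rw [h 0 (by omega), E.r0], by rw [h 1 (by omega), E.r1], by rw [h 2 (by omega), E.r2],
   by rw [h 3 (by omega), E.r3], by rw [h 4 (by omega), E.r4], by rw [h 5 (by omega), E.r5],
   by rw [h 8 (by omega), E.r8], by rw [h 9 (by omega), E.r9], by rw [h 10 (by omega), E.r10]⟩

/-- The word length is large enough. -/
structure Par (w n k sv T : ℕ) : Prop where
  hn : sv < n
  hk : k ≤ n
  hT : T ≤ n
  b : n * n + 3 * n + 10 < 2 ^ w

def aA (v : Ex) : Ex := .add (.r 8) v
def aB (v : Ex) : Ex := .add (.r 9) v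
def aD (v : Ex) : Ex := .add (.r 10) v

/-! ### Initialisation of the array `A` -/

def codeInit : HC := .seq (.loop 13 0 (.sto (aA (.r 13)) (.c 0))) (.sto (aA (.r 2)) (.c 1))

theorem tr_init {w n k sv T N : ℕ} {s : St} {a A B d : ℕ → ℕ} (P : Par w n k sv T)
    (E : Env n k sv T N s) (hm : s.mem = lay n a A B d) :
    Tr w codeInit s (21 * (n + 1)) (fun s' => ∃ A', s'.mem = lay n a A' B d ∧
      ∀ v < n, A' v = if v = sv then 1 else 0) := by
  obtain ⟨hn, hk, hT, hb⟩ := P
  refine (Tr.seq (T := n * (7 + 4) + 3) (T' := 7) ?_).mono (by omega) (fun _ h => h)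
  refine Tr.loop (fun i s' => ∃ A', s'.mem = lay n a A' B d ∧ ∀ v < i, A' v = 0) 7 E.r0
    (by omega) (by omega) le_rfl ⟨A, hm, fun v hv => by omega⟩ ?_ ?_
  · rintro i hi s' ⟨A', hm', hA'⟩ r13 hfr
    have E' : Env n k sv T N s' := E.fr (fun y hy => hfr y (by omega) (by simp [HC.wr]))
    apply Tr.sto
    · simp only [aA, Ex.ok, Ex.ev, E'.r8, r13]; omega
    · simp only [Ex.ok]; omega
    · simp only [aA, Ex.cost]; omega
    · refine ⟨Function.update A' i 0, ?_, ?_⟩
      · simp only [put, St.set_mem, aA, Ex.ev, E'.r8, r13, hm']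
        exact upd_A hi
      · intro v hv
        by_cases e : v = i
        · subst e; simp
        · rw [Function.update_of_ne e]; exact hA' v (by omega)
  · rintro s' ⟨A', hm', hA'⟩ r13 hfr
    have E' : Env n k sv T N s' := E.fr (fun y hy => hfr y (by omega) (by simp [HC.wr]))
    apply Tr.sto
    · simp only [aA, Ex.ok, Ex.ev, E'.r8, E'.r2]; omega
    · simp only [Ex.ok]; omega
    · simp only [aA, Ex.cost]; omega
    · refine ⟨Function.update A' sv 1, ?_, ?_⟩
      · simp only [put, aA, Ex.ev, E'.r8, E'.r2, hm']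
        exact upd_A hn
      · intro v hv
        by_cases e : v = sv
        · subst e; simp
        · rw [Function.update_of_ne e, if_neg e]; exact hA' v hv

/-! ### Copying `B` to `A` -/

def codeCopy : HC := .loop 13 0 (.sto (aA (.r 13)) (.ld (aB (.r 13))))

theorem tr_copy {w n k sv T N : ℕ} {s : St} {a A B d : ℕ → ℕ} (P : Par w n k sv T)
    (E : Env n k sv T N s) (hm : s.mem = lay n a A B d) (hB : ∀ v < n, B v ≤ 2) :
    Tr w codeCopy s (n * 16 + 3) (fun s' => ∃ A', s'.mem = lay n a A' B d ∧
      ∀ v < n, A' v = B v) := by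
  obtain ⟨hn, hk, hT, hb⟩ := P
  refine Tr.loop (fun i s' => ∃ A', s'.mem = lay n a A' B d ∧ ∀ v < i, A' v = B v) 12 E.r0
    (by omega) (by omega) le_rfl ⟨A, hm, fun v hv => by omega⟩ ?_ ?_
  · rintro i hi s' ⟨A', hm', hA'⟩ r13 hfr
    have E' : Env n k sv T N s' := E.fr (fun y hy => hfr y (by omega) (by simp [HC.wr]))
    have hld : s'.mem (n * n + n + i) = B i := by rw [hm', lay_B hi]
    have hBi := hB i hi
    apply Tr.sto
    · simp only [aA, Ex.ok, Ex.ev, E'.r8, r13]; omega
    · simp only [aB, Ex.ok, Ex.ev, E'.r9, r13, hld]; omega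
    · simp only [aA, aB, Ex.cost]; omega
    · refine ⟨Function.update A' i (B i), ?_, ?_⟩
      · simp only [put, St.set_mem, aA, aB, Ex.ev, E'.r8, E'.r9, r13, hld]
        rw [hm']
        exact upd_A hi
      · intro v hv
        by_cases e : v = i
        · subst e; simp
        · rw [Function.update_of_ne e]; exact hA' v (by omega)
  · rintro s' ⟨A', hm', hA'⟩ r13 hfr
    exact ⟨A', hm', hA'⟩

/-! ### Spreading of the fire -/

/-- `A[u]` is on fire. -/
def isF (u : Ex) : Ex := .mul (.ld (aA u)) (.sub (.c 2) (.ld (aA u)))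

def codeInner : HC := .loop 14 0 (.ite (.c 0)
  (.mul (.ld (.add (.mul (.r 13) (.r 0)) (.r 14))) (isF (.r 14))) (.asg 16 (.c 1)) .skip)

/-- new value of a vertex -/
def spr (n : ℕ) (a A : ℕ → ℕ) (v : ℕ) (i : ℕ) : ℕ :=
  if ∃ u < i, A u = 1 ∧ a (v * n + u) = 1 then 1 else 0

theorem mul_lt_sq {n v u : ℕ} (hv : v < n) (hu : u < n) : v * n + u < n * n := by
  have : (v + 1) * n ≤ n * n := Nat.mul_le_mul_right _ hv
  rw [Nat.add_mul] at this
  omega

theorem tr_inner {w n k sv T N v : ℕ} {s : St} {a A B d : ℕ → ℕ} (P : Par w n k sv T)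
    (E : Env n k sv T N s) (hm : s.mem = lay n a A B d) (hA : ∀ v < n, A v ≤ 2)
    (ha : ∀ x, x < n * n → a x ≤ 1) (h13 : s.reg 13 = v) (hv : v < n) (h16 : s.reg 16 = 0) :
    Tr w codeInner s (n * 35 + 3) (fun s' => s'.mem = lay n a A B d ∧
      s'.reg 16 = spr n a A v n) := by
  obtain ⟨hn, hk, hT, hb⟩ := P
  refine Tr.loop (fun i s' => s'.mem = lay n a A B d ∧ s'.reg 16 = spr n a A v i) 31 E.r0
    (by omega) (by omega) le_rfl ⟨hm, ?_⟩ ?_ ?_
  · rw [St.set_reg_ne _ _ (by omega), h16]; simp [spr]
  · rintro u hu s' ⟨hm', h16'⟩ r14 hfr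
    have E' : Env n k sv T N s' := E.fr (fun y hy => hfr y (by omega) (by simp [HC.wr]; omega))
    have r13 : s'.reg 13 = v := by rw [hfr 13 (by omega) (by simp [HC.wr]), h13]
    have hlt := mul_lt_sq hv hu
    have h1 : s'.mem (v * n + u) = a (v * n + u) := by rw [hm', lay_a hlt]
    have h2 : s'.mem (n * n + u) = A u := by rw [hm', lay_A hu]
    have ha1 := ha _ hlt
    have hA1 := hA u hu
    have hvn : v * n ≤ v * n + u := Nat.le_add_right _ _
    have hm2 : A u * (2 - A u) ≤ 1 := by
      interval_cases A u <;> simp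
    have hm3 : a (v * n + u) * (A u * (2 - A u)) ≤ 1 := by
      have := Nat.mul_le_mul ha1 hm2
      omega
    have hcond : (0 < a (v * n + u) * (A u * (2 - A u))) ↔ (A u = 1 ∧ a (v * n + u) = 1) := by
      constructor
      · intro h
        have h3 : 0 < a (v * n + u) := by
          rcases Nat.eq_zero_or_pos (a (v * n + u)) with h0 | h0
          · rw [h0] at h; simp at h
          · exact h0
        have h4 : 0 < A u * (2 - A u) := by
          rcases Nat.eq_zero_or_pos (A u * (2 - A u)) with h0 | h0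
          · rw [h0] at h; simp at h
          · exact h0
        refine ⟨?_, by omega⟩
        interval_cases A u <;> simp at h4 ⊢
      · rintro ⟨h3, h4⟩
        rw [h3, h4]; norm_num
    apply Tr.ite (T := 3)
    · simp only [Ex.ok]; omega
    · simp only [isF, aA, Ex.ok, Ex.ev, r13, r14, E'.r0, E'.r8, h1, h2]
      refine ⟨⟨⟨⟨by omega, by omega, by omega⟩, by omega, by omega⟩, by omega⟩,
        ⟨⟨⟨by omega, by omega, by omega⟩, by omega⟩,
        ⟨by omega, ⟨by omega, by omega, by omega⟩, by omega⟩, by omega⟩, by omega⟩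
    · simp only [isF, aA, Ex.cost]; omega
    · intro hlt'
      simp only [isF, aA, Ex.ev, r13, r14, E'.r0, E'.r8, h1, h2] at hlt'
      have hc := hcond.1 hlt'
      apply Tr.asg
      · simp only [Ex.ok]; omega
      · simp only [Ex.cost]; omega
      · refine ⟨hm', ?_⟩
        rw [St.set_reg_ne _ _ (by omega), St.set_reg_self]
        simp only [Ex.ev, spr]
        rw [if_pos ⟨u, by omega, hc⟩]
    · intro hlt'
      simp only [isF, aA, Ex.ev, r13, r14, E'.r0, E'.r8, h1, h2] at hlt'
      rw [hcond] at hlt'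
      apply Tr.skip
      refine ⟨hm', ?_⟩
      rw [St.set_reg_ne _ _ (by omega), h16']
      simp only [spr]
      congr 1
      apply propext
      constructor
      · rintro ⟨u', hu', h⟩; exact ⟨u', by omega, h⟩
      · rintro ⟨u', hu', h⟩
        refine ⟨u', ?_, h⟩
        rcases Nat.lt_succ_iff_lt_or_eq.1 hu' with h' | h'
        · exact h'
        · subst h'; exact absurd h hlt'
  · rintro s' ⟨hm', h16'⟩ r14 hfr
    exact ⟨hm', h16'⟩

/-- the new array -/
def newA (n : ℕ) (a A : ℕ → ℕ) (v : ℕ) : ℕ := if A v = 0 then spr n a A v n else A v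

theorem newA_le {n : ℕ} {a A : ℕ → ℕ} {v : ℕ} (h : A v ≤ 2) : newA n a A v ≤ 2 := by
  unfold newA spr; split_ifs <;> omega

def codeSpread : HC := .loop 13 0 (.seq (.asg 16 (.ld (aA (.r 13))))
  (.seq (.ite (.r 16) (.c 1) codeInner .skip) (.sto (aB (.r 13)) (.r 16))))

theorem tr_spread {w n k sv T N : ℕ} {s : St} {a A B d : ℕ → ℕ} (P : Par w n k sv T)
    (E : Env n k sv T N s) (hm : s.mem = lay n a A B d) (hA : ∀ v < n, A v ≤ 2)
    (ha : ∀ x, x < n * n → a x ≤ 1) :
    Tr w codeSpread s (n * (35 * n + 28) + 3) (fun s' => ∃ B', s'.mem = lay n a A B' d ∧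
      ∀ v < n, B' v = newA n a A v) := by
  have P' := P
  obtain ⟨hn, hk, hT, hb⟩ := P
  refine Tr.loop (fun i s' => ∃ B', s'.mem = lay n a A B' d ∧ ∀ v < i, B' v = newA n a A v)
    (35 * n + 24) E.r0 (by omega) (by omega) le_rfl ⟨B, hm, fun v hv => by omega⟩ ?_ ?_
  · rintro i hi s' ⟨B', hm', hB'⟩ r13 hfr
    have E' : Env n k sv T N s' := E.fr (fun y hy => hfr y (by omega)
      (by simp [HC.wr, codeInner]; omega))
    have hld : s'.mem (n * n + i) = A i := by rw [hm', lay_A hi]
    have hAi := hA i hi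
    refine (Tr.seq (T := 8) (T' := 35 * n + 16) (Tr.asg ?_ ?_ ?_)).mono (by omega) (fun _ h => h)
    · simp only [aA, Ex.ok, Ex.ev, E'.r8, r13, hld]; omega
    · simp only [aA, Ex.cost]; omega
    have hev : (Ex.ld (aA (.r 13))).ev s' = A i := by simp only [aA, Ex.ev, E'.r8, r13, hld]
    rw [hev]
    set s1 := s'.set 16 (A i) with hs1
    have E1 : Env n k sv T N s1 := E'.fr (fun y hy => St.set_reg_ne _ _ (by omega))
    have r13' : s1.reg 13 = i := by rw [hs1, St.set_reg_ne _ _ (by omega), r13]
    have r16 : s1.reg 16 = A i := by rw [hs1, St.set_reg_self]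
    have hm1 : s1.mem = lay n a A B' d := hm'
    refine (Tr.seq (T := 35 * n + 8) (T' := 8) ?_)
    have fin : ∀ s2 : St, s2.mem = lay n a A B' d → s2.reg 13 = i → s2.reg 16 = newA n a A i →
        Env n k sv T N s2 → Tr w (.sto (aB (.r 13)) (.r 16)) s2 8 (fun s'' =>
          (fun i s' => ∃ B', s'.mem = lay n a A B' d ∧ ∀ v < i, B' v = newA n a A v) (i + 1)
            (s''.set 13 (i + 1))) := by
      intro s2 hm2 h13 h16 E2
      have := newA_le (n := n) (a := a) hAi
      apply Tr.sto
      · simp only [aB, Ex.ok, Ex.ev, E2.r9, h13]; omega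
      · simp only [Ex.ok, h16]; omega
      · simp only [aB, Ex.cost]; omega
      · refine ⟨Function.update B' i (newA n a A i), ?_, ?_⟩
        · simp only [put, St.set_mem, aB, Ex.ev, E2.r9, h13, h16, hm2]
          exact upd_B hi
        · intro v hv
          by_cases e : v = i
          · subst e; simp
          · rw [Function.update_of_ne e]; exact hB' v (by omega)
    apply Tr.ite (T := 35 * n + 3)
    · simp only [Ex.ok, r16]; omega
    · simp only [Ex.ok]; omega
    · simp only [Ex.cost]; omega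
    · intro hlt
      simp only [Ex.ev, r16] at hlt
      have h0 : A i = 0 := by omega
      refine Tr.fr (tr_inner P' E1 hm1 hA ha r13' hi (by rw [r16, h0])) (by omega) ?_
      rintro s2 ⟨hm2, h16⟩ hfr2
      apply fin s2 hm2
      · rw [hfr2 13 (by decide), r13']
      · rw [h16, newA, if_pos h0]
      · exact E1.fr (fun y hy => hfr2 y (by simp [HC.wr, codeInner]; omega))
    · intro hlt
      simp only [Ex.ev, r16] at hlt
      apply Tr.skip
      apply fin s1 hm1 r13' _ E1
      rw [r16, newA, if_neg (by omega)]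
  · rintro s' ⟨B', hm', hB'⟩ r13 hfr
    exact ⟨B', hm', hB'⟩

end Pool.Agent.K6.H41.FF.RamB
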