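import Pool.Agent.K6.H41.FF.PB1

/-!
The brute force program, part 2: the rounds, counting, incrementing the digits.
-/

set_option autoImplicit false

namespace Pool.Agent.K6.H41.FF.RamB

open Pool.Agent.H588R2 Pool.Agent.TH687.HL Pool.Agent.K6.H41.FF

open Classical in
/-- adjacency matrix -/
noncomputable def adj {n : ℕ} (G : SimpleGraph (Fin n)) (x : ℕ) : ℕ :=
  if h : x / n < n ∧ x % n < n then
    (if G.Adj ⟨x / n, h.1⟩ ⟨x % n, h.2⟩ then 1 else 0) else 0

theorem adj_le {n : ℕ} (G : SimpleGraph (Fin n)) (x : ℕ) : adj G x ≤ 1 := by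
  unfold adj; split_ifs <;> omega

theorem adj_eq {n : ℕ} (G : SimpleGraph (Fin n)) (v u : Fin n) :
    adj G (v * n + u) = 1 ↔ G.Adj v u := by
  have h1 : ((v : ℕ) * n + u) / n = v := by
    rw [Nat.add_comm, Nat.add_mul_div_right _ _ (by have := v.2; omega), Nat.div_eq_of_lt u.2]
    simp
  have h2 : ((v : ℕ) * n + u) % n = u := by
    rw [Nat.add_comm, Nat.add_mul_mod_self_right, Nat.mod_eq_of_lt u.2]
  unfold adj
  rw [dif_pos ⟨by rw [h1]; exact v.2, by rw [h2]; exact u.2⟩]
  have e1 : (⟨((v : ℕ) * n + u) / n, by rw [h1]; exact v.2⟩ : Fin n) = v := Fin.ext h1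
  have e2 : (⟨((v : ℕ) * n + u) % n, by rw [h2]; exact u.2⟩ : Fin n) = u := Fin.ext h2
  rw [e1, e2]
  by_cases h : G.Adj v u
  · simp [h]
  · simp [h]

open Classical in
/-- encoding of a state -/
noncomputable def enc {n : ℕ} (x : Set (Fin n) × Set (Fin n)) (v : ℕ) : ℕ :=
  if h : v < n then (if (⟨v, h⟩ : Fin n) ∈ x.1 then 1 else if (⟨v, h⟩ : Fin n) ∈ x.2 then 2 else 0)
  else 0

theorem enc_le {n : ℕ} (x : Set (Fin n) × Set (Fin n)) (v : ℕ) : enc x v ≤ 2 := by
  unfold enc; split_ifs <;> omega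

theorem enc_one {n : ℕ} (x : Set (Fin n) × Set (Fin n)) (v : Fin n) :
    enc x v = 1 ↔ v ∈ x.1 := by
  unfold enc
  rw [dif_pos v.2]
  simp only [Fin.eta]
  split_ifs <;> simp_all

theorem enc_zero {n : ℕ} (x : Set (Fin n) × Set (Fin n)) (v : Fin n) :
    enc x v = 0 ↔ v ∉ x.1 ∧ v ∉ x.2 := by
  unfold enc
  rw [dif_pos v.2]
  simp only [Fin.eta]
  split_ifs <;> simp_all

/-- the array after the protection step -/
def prA (A : ℕ → ℕ) (c : ℕ) : ℕ → ℕ := Function.update A c (if A c = 0 then 2 else A c)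

theorem step_enc {n : ℕ} (G : SimpleGraph (Fin n)) (c : Fin n) (x : Set (Fin n) × Set (Fin n))
    (A : ℕ → ℕ) (hA : ∀ v < n, A v = enc x v) (v : ℕ) (hv : v < n) :
    newA n (adj G) (prA A c) v = enc (next G c x) v := by
  have h1 : ∀ u : Fin n, prA A c u = 1 ↔ u ∈ x.1 := by
    intro u
    unfold prA
    by_cases e : (u : ℕ) = c
    · have e' : u = c := Fin.ext e
      subst e'
      rw [Function.update_self]
      have := hA u u.2
      rw [← enc_one, ← this]
      split_ifs with h
      · omega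
      · rfl
    · rw [Function.update_of_ne e, hA u u.2, enc_one]
  have h0 : ∀ u : Fin n, prA A c u = 0 ↔ (u ∉ x.1 ∧ u ∉ x.2 ∧ u ≠ c) := by
    intro u
    unfold prA
    by_cases e : (u : ℕ) = c
    · have e' : u = c := Fin.ext e
      subst e'
      rw [Function.update_self]
      split_ifs with h
      · simp
      · simp [h]
    · rw [Function.update_of_ne e, hA u u.2, enc_zero]
      have : u ≠ c := fun h => e (by rw [h])
      tauto
  have hle : ∀ u : Fin n, prA A c u ≤ 2 := by
    intro u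
    have := enc_le x u
    have h' := hA u u.2
    unfold prA
    by_cases e : (u : ℕ) = c
    · have e' : u = c := Fin.ext e
      subst e'
      rw [Function.update_self]
      split_ifs <;> omega
    · rw [Function.update_of_ne e]; omega
  have hs : spr n (adj G) (prA A c) v n = 1 ↔ ∃ u : Fin n, u ∈ x.1 ∧ G.Adj u ⟨v, hv⟩ := by
    unfold spr
    constructor
    · intro h
      split_ifs at h with h'
      · obtain ⟨u, hu, h2, h3⟩ := h'
        refine ⟨⟨u, hu⟩, (h1 ⟨u, hu⟩).1 h2, ?_⟩
        exact ((adj_eq G ⟨v, hv⟩ ⟨u, hu⟩).1 h3).symm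
    · rintro ⟨u, h2, h3⟩
      rw [if_pos ⟨u, u.2, (h1 u).2 h2, (adj_eq G ⟨v, hv⟩ u).2 h3.symm⟩]
  have hs' : spr n (adj G) (prA A c) v n ≤ 1 := by unfold spr; split_ifs <;> omega
  set vv : Fin n := ⟨v, hv⟩ with hvv
  have hvn : (vv : ℕ) = v := rfl
  have e1 := enc_one (next G c x) vv
  have e0 := enc_zero (next G c x) vv
  have e2 := enc_le (next G c x) vv
  rw [hvn] at e1 e0 e2
  have a1 := h1 vv
  have a0 := h0 vv
  have a2 := hle vv
  rw [hvn] at a1 a0 a2
  have m1 : vv ∈ (next G c x).1 ↔ (vv ∈ x.1 ∨ (vv ∉ x.2 ∧ ¬ (vv = c ∧ vv ∉ x.1) ∧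
      ∃ u ∈ x.1, G.Adj u vv)) := by
    simp only [next, Set.mem_union, Set.mem_ofPred_eq, not_or]
    constructor
    · rintro (h | ⟨⟨h, h'⟩, h''⟩)
      · exact Or.inl h
      · exact Or.inr ⟨h, h', h''⟩
    · rintro (h | ⟨h, h', h''⟩)
      · exact Or.inl h
      · exact Or.inr ⟨⟨h, h'⟩, h''⟩
  have m2 : vv ∈ (next G c x).2 ↔ (vv ∈ x.2 ∨ (vv = c ∧ vv ∉ x.1)) := by
    simp only [next, Set.mem_union, Set.mem_ofPred_eq]
  rw [m1] at e1
  rw [m1, m2] at e0
  unfold newA
  by_cases hz : prA A c v = 0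
  · rw [if_pos hz]
    obtain ⟨b1, b2, b3⟩ := a0.1 hz
    by_cases hx : ∃ u : Fin n, u ∈ x.1 ∧ G.Adj u vv
    · rw [hs.2 hx]
      symm
      rw [e1]
      right
      exact ⟨b2, fun h => b3 h.1, hx⟩
    · have : spr n (adj G) (prA A c) v n = 0 := by
        rcases Nat.lt_or_ge (spr n (adj G) (prA A c) v n) 1 with h | h
        · omega
        · exact absurd (hs.1 (by omega)) hx
      rw [this]
      symm
      rw [e0]
      refine ⟨?_, ?_⟩
      · rintro (h | ⟨_, _, h⟩)
        · exact b1 h
        · exact hx h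
      · rintro (h | ⟨h, _⟩)
        · exact b2 h
        · exact b3 h
  · rw [if_neg hz]
    by_cases ho : prA A c v = 1
    · rw [ho]
      symm
      rw [e1]
      exact Or.inl (a1.1 ho)
    · have b1 : vv ∉ x.1 := fun h => ho (a1.2 h)
      have b2 : vv ∈ x.2 ∨ vv = c := by
        by_contra hcon
        rw [not_or] at hcon
        exact hz (a0.2 ⟨b1, hcon.1, hcon.2⟩)
      have f1 : enc (next G c x) v ≠ 1 := by
        intro h
        rw [e1] at h
        rcases h with h | ⟨h, h', _⟩
        · exact b1 h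
        · rcases b2 with h2 | h2
          · exact h h2
          · exact h' ⟨h2, b1⟩
      have f0 : enc (next G c x) v ≠ 0 := by
        intro h
        rw [e0] at h
        rcases b2 with h2 | h2
        · exact h.2 (Or.inl h2)
        · exact h.2 (Or.inr ⟨h2, b1⟩)
      omega

/-! ### One round -/

def codeMove : HC := .ite (.r 12) (.r 3) (.asg 17 (.ld (aD (.r 12)))) (.asg 17 (.r 2))

def codeProt : HC := .ite (.ld (aA (.r 17))) (.c 1) (.sto (aA (.r 17)) (.c 2)) .skip

def codeRound : HC := .seq codeMove (.seq codeProt (.seq codeSpread codeCopy))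

theorem tr_round {w n k T N r : ℕ} {G : SimpleGraph (Fin n)} {sv : Fin n} {s : St}
    {A B d : ℕ → ℕ} {x : Set (Fin n) × Set (Fin n)} (P : Par w n k sv T)
    (E : Env n k sv T N s) (hm : s.mem = lay n (adj G) A B d) (hA : ∀ v < n, A v = enc x v)
    (h12 : s.reg 12 = r) (hr : r < T + n) (c : Fin n)
    (hc : (if r < T then d r else sv) = c) :
    Tr w codeRound s (80 * ((n + 1) * (n + 1))) (fun s' => ∃ A' B',
      s'.mem = lay n (adj G) A' B' d ∧ ∀ v < n, A' v = enc (next G c x) v) := by
  have P' := P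
  obtain ⟨hn, hk, hT, hb⟩ := P
  have hcn := c.2
  refine (Tr.seq (T := 14) (T' := 16 + (n * (35 * n + 28) + 3 + (n * 16 + 3))) ?_).mono ?_
    (fun _ h => h)
  swap
  · nlinarith
  -- the move
  have key : ∀ s1 : St, s1.mem = s.mem → s1.reg 17 = c → Env n k sv T N s1 →
      Tr w (.seq codeProt (.seq codeSpread codeCopy)) s1
        (16 + (n * (35 * n + 28) + 3 + (n * 16 + 3))) (fun s' => ∃ A' B',
      s'.mem = lay n (adj G) A' B' d ∧ ∀ v < n, A' v = enc (next G c x) v) := by
    intro s1 hm1 h17 E1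
    rw [hm] at hm1
    apply Tr.seq
    have hA2 : ∀ v < n, A v ≤ 2 := fun v hv => by rw [hA v hv]; exact enc_le x v
    have key2 : ∀ s2 : St, s2.mem = lay n (adj G) (prA A c) B d → Env n k sv T N s2 →
        Tr w (.seq codeSpread codeCopy) s2 (n * (35 * n + 28) + 3 + (n * 16 + 3)) (fun s' => ∃ A' B',
      s'.mem = lay n (adj G) A' B' d ∧ ∀ v < n, A' v = enc (next G c x) v) := by
      intro s2 hm2 E2
      apply Tr.seq
      have hA3 : ∀ v < n, prA A c v ≤ 2 := by
        intro v hv
        unfold prA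
        by_cases e : v = c
        · subst e; rw [Function.update_self]; have := hA2 c c.2; split_ifs <;> omega
        · rw [Function.update_of_ne e]; exact hA2 v hv
      refine Tr.fr (tr_spread P' E2 hm2 hA3 (fun x _ => adj_le G x)) le_rfl ?_
      rintro s3 ⟨B', hm3, hB'⟩ hfr3
      have E3 : Env n k sv T N s3 := E2.fr (fun y hy => hfr3 y (by
        simp [HC.wr, codeSpread, codeInner]; omega))
      refine (tr_copy P' E3 hm3 (fun v hv => by rw [hB' v hv]; exact newA_le (hA3 v hv))).mono
        le_rfl ?_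
      rintro s4 ⟨A', hm4, hA'⟩
      refine ⟨A', B', hm4, fun v hv => ?_⟩
      rw [hA' v hv, hB' v hv, step_enc G c x A hA v hv]
    have hld : s1.mem (n * n + c) = A c := by rw [hm1, lay_A hcn]
    have hAc := hA2 c hcn
    apply Tr.ite (T := 7)
    · simp only [aA, Ex.ok, Ex.ev, E1.r8, h17, hld]; omega
    · simp only [Ex.ok]; omega
    · simp only [aA, Ex.cost]; omega
    · intro hlt
      simp only [aA, Ex.ev, E1.r8, h17, hld] at hlt
      apply Tr.sto
      · simp only [aA, Ex.ok, Ex.ev, E1.r8, h17]; omega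
      · simp only [Ex.ok]; omega
      · simp only [aA, Ex.cost]; omega
      · apply key2
        · simp only [put, aA, Ex.ev, E1.r8, h17, hm1]
          rw [upd_A hcn, prA, if_pos (by omega)]
        · exact E1.fr (fun y hy => rfl)
    · intro hlt
      simp only [aA, Ex.ev, E1.r8, h17, hld] at hlt
      apply Tr.skip
      apply key2 _ _ E1
      rw [hm1, prA, if_neg (by omega), Function.update_eq_self]
  apply Tr.ite (T := 8)
  · simp only [Ex.ok, h12]; omega
  · simp only [Ex.ok, E.r3]; omega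
  · simp only [Ex.cost]; omega
  · intro hlt
    simp only [Ex.ev, h12, E.r3] at hlt
    rw [if_pos hlt] at hc
    have hld : s.mem (n * n + 2 * n + r) = c := by rw [hm, lay_d, hc]
    apply Tr.asg
    · simp only [aD, Ex.ok, Ex.ev, E.r10, h12, hld]; omega
    · simp only [aD, Ex.cost]; omega
    · apply key
      · rfl
      · rw [St.set_reg_self]; simp only [aD, Ex.ev, E.r10, h12, hld]
      · exact E.fr (fun y hy => St.set_reg_ne _ _ (by omega))
  · intro hlt
    simp only [Ex.ev, h12, E.r3] at hlt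
    rw [if_neg hlt] at hc
    apply Tr.asg
    · simp only [Ex.ok, E.r2]; omega
    · simp only [Ex.cost]; omega
    · apply key
      · rfl
      · rw [St.set_reg_self]; simp only [Ex.ev, E.r2, hc]
      · exact E.fr (fun y hy => St.set_reg_ne _ _ (by omega))

def codeRounds : HC := .loop 12 5 codeRound

theorem tr_rounds {w n k T N : ℕ} {G : SimpleGraph (Fin n)} {sv : Fin n} {s : St}
    {A B d : ℕ → ℕ} (P : Par w n k sv T)
    (E : Env n k sv T N s) (hm : s.mem = lay n (adj G) A B d)
    (hA : ∀ v < n, A v = if v = sv then 1 else 0) (m : ℕ → Fin n)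
    (hc : ∀ r < T + n, (if r < T then d r else sv) = m r) :
    Tr w codeRounds s (200 * ((n + 1) * (n + 1) * (n + 1))) (fun s' => ∃ A' B',
      s'.mem = lay n (adj G) A' B' d ∧ ∀ v < n, A' v = enc (state G sv m (T + n)) v) := by
  have P' := P
  obtain ⟨hn, hk, hT, hb⟩ := P
  refine Tr.loop (fun i s' => ∃ A' B', s'.mem = lay n (adj G) A' B' d ∧
    ∀ v < n, A' v = enc (state G sv m i) v) (80 * ((n + 1) * (n + 1))) E.r5 (by omega)
    (by omega) ?_ ?_ ?_ ?_
  · have h1 : T + n ≤ 2 * (n + 1) := by omega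
    have h2 : 1 ≤ (n + 1) * (n + 1) := by nlinarith
    calc (T + n) * (80 * ((n + 1) * (n + 1)) + 4) + 3
        ≤ (2 * (n + 1)) * (84 * ((n + 1) * (n + 1))) + 3 * ((n + 1) * (n + 1) * (n + 1)) := by
          apply Nat.add_le_add
          · apply Nat.mul_le_mul h1; omega
          · have : 1 ≤ (n + 1) * (n + 1) * (n + 1) := Nat.mul_pos (by omega) (by omega)
            omega
      _ = 171 * ((n + 1) * (n + 1) * (n + 1)) := by ring
      _ ≤ _ := by omega
  · refine ⟨A, B, hm, fun v hv => ?_⟩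
    rw [hA v hv]
    unfold enc
    rw [dif_pos hv]
    simp only [state, Set.mem_singleton_iff, Set.mem_empty_iff_false, if_false, Fin.ext_iff]
  · rintro r hr s' ⟨A', B', hm', hA'⟩ r12 hfr
    have E' : Env n k sv T N s' := E.fr (fun y hy => hfr y (by omega)
      (by simp [HC.wr, codeRound, codeMove, codeProt, codeSpread, codeInner, codeCopy]; omega))
    refine (tr_round P' E' hm' hA' r12 hr (m r) (hc r hr)).mono le_rfl ?_
    rintro s'' ⟨A'', B'', hm'', hA''⟩
    exact ⟨A'', B'', hm'', hA''⟩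
  · rintro s' h _ _
    exact h

/-! ### Counting -/

def codeCount : HC := .seq (.asg 18 (.c 0)) (.loop 13 0 (.asg 18 (.add (.r 18) (isF (.r 13)))))

theorem count_enc {n : ℕ} (x : Set (Fin n) × Set (Fin n)) :
    ∑ v ∈ Finset.range n, enc x v * (2 - enc x v) = x.1.ncard := by
  classical
  rw [Finset.sum_range]
  have : ∀ v : Fin n, enc x v * (2 - enc x v) = if v ∈ x.1 then 1 else 0 := by
    intro v
    have h1 := enc_one x v
    have h2 := enc_le x v
    by_cases h : v ∈ x.1
    · rw [if_pos h, h1.2 h]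
    · rw [if_neg h]
      have h3 : enc x v ≠ 1 := fun h' => h (h1.1 h')
      have h4 : enc x v = 0 ∨ enc x v = 2 := by omega
      rcases h4 with h4 | h4 <;> rw [h4]
  rw [Finset.sum_congr rfl (fun v _ => this v), Set.ncard_eq_toFinset_card']
  simp

theorem sum_le_i {f : ℕ → ℕ} (h : ∀ i, f i ≤ 2) (i : ℕ) :
    ∑ v ∈ Finset.range i, f v * (2 - f v) ≤ i := by
  calc ∑ v ∈ Finset.range i, f v * (2 - f v) ≤ ∑ v ∈ Finset.range i, 1 := by
        apply Finset.sum_le_sum
        intro v _
        have := h v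
        interval_cases f v <;> simp
    _ = i := by simp

theorem tr_count {w n k T N : ℕ} {G : SimpleGraph (Fin n)} {sv : Fin n} {s : St}
    {A B d : ℕ → ℕ} {x : Set (Fin n) × Set (Fin n)} (P : Par w n k sv T)
    (E : Env n k sv T N s) (hm : s.mem = lay n (adj G) A B d) (hA : ∀ v < n, A v = enc x v) :
    Tr w codeCount s (30 * (n + 1)) (fun s' => s'.mem = s.mem ∧ s'.reg 18 = x.1.ncard) := by
  have P' := P
  obtain ⟨hn, hk, hT, hb⟩ := P
  refine (Tr.seq (T := 3) (T' := n * 24 + 3) (Tr.asg (by simp only [Ex.ok]; omega)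
    (by simp only [Ex.cost]; omega) ?_)).mono (by omega) (fun _ h => h)
  simp only [Ex.ev]
  refine Tr.loop (fun i s' => s'.mem = s.mem ∧ s'.reg 18 =
    ∑ v ∈ Finset.range i, enc x v * (2 - enc x v)) 20 (N := n) ?_ (by omega) (by omega) (by omega)
    ?_ ?_ ?_
  · rw [St.set_reg_ne _ _ (by omega), E.r0]
  · refine ⟨rfl, ?_⟩
    rw [St.set_reg_ne _ _ (by omega), St.set_reg_self]; simp
  · rintro i hi s' ⟨hm', h18⟩ r13 hfr
    have E' : Env n k sv T N s' := E.fr (fun y hy => by
      rw [hfr y (by omega) (by simp [HC.wr]; omega), St.set_reg_ne _ _ (by omega)])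
    have hld : s'.mem (n * n + i) = enc x i := by rw [hm', hm, lay_A hi, hA i hi]
    have h1 := enc_le x i
    have h2 := sum_le_i (f := enc x) (enc_le x) i
    have h3 : enc x i * (2 - enc x i) ≤ 1 := by
      interval_cases enc x i <;> simp
    apply Tr.asg
    · simp only [isF, aA, Ex.ok, Ex.ev, E'.r8, r13, hld, h18]
      refine ⟨by omega, ⟨⟨⟨by omega, by omega, by omega⟩, by omega⟩,
        ⟨by omega, ⟨by omega, by omega, by omega⟩, by omega⟩, by omega⟩, by omega⟩
    · simp only [isF, aA, Ex.cost]; omega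
    · refine ⟨hm', ?_⟩
      rw [St.set_reg_ne _ _ (by omega), St.set_reg_self, Finset.sum_range_succ, ← h18]
      simp only [isF, aA, Ex.ev, E'.r8, r13, hld]
  · rintro s' ⟨hm', h18⟩ _ _
    exact ⟨hm', by rw [h18, count_enc]⟩

/-! ### Incrementing the digits -/

def codeInc : HC := .seq (.asg 19 (.c 1)) (.loop 13 3 (.ite (.c 0) (.r 19)
  (.ite (.add (.ld (aD (.r 13))) (.c 1)) (.r 0)
    (.seq (.sto (aD (.r 13)) (.add (.ld (aD (.r 13))) (.c 1))) (.asg 19 (.c 0)))
    (.sto (aD (.r 13)) (.c 0))) .skip))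

open Classical in
theorem dig_succ {n e i : ℕ} :
    (e + 1) / n ^ i % n = (e / n ^ i + if n ^ i ∣ e + 1 then 1 else 0) % n := by
  rw [Nat.succ_div]

theorem carry_succ {n e i : ℕ} (hn : 0 < n) :
    n ^ (i + 1) ∣ e + 1 ↔ n ^ i ∣ e + 1 ∧ e / n ^ i % n + 1 = n := by
  constructor
  · intro h
    have h1 : n ^ i ∣ e + 1 := dvd_trans (pow_dvd_pow n (Nat.le_succ i)) h
    refine ⟨h1, ?_⟩
    have h2 : n ∣ (e + 1) / n ^ i := by
      rw [pow_succ] at h
      exact (Nat.dvd_div_iff_mul_dvd h1).2 h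
    rw [Nat.succ_div, if_pos h1] at h2
    have h3 := Nat.mod_lt (e / n ^ i) hn
    have h4 : (e / n ^ i % n + 1) % n = 0 := by
      rw [Nat.mod_add_mod]; exact Nat.mod_eq_zero_of_dvd h2
    rcases Nat.lt_or_ge (e / n ^ i % n + 1) n with h5 | h5
    · rw [Nat.mod_eq_of_lt h5] at h4; omega
    · omega
  · rintro ⟨h1, h2⟩
    rw [pow_succ]
    apply (Nat.dvd_div_iff_mul_dvd h1).1
    rw [Nat.succ_div, if_pos h1]
    apply Nat.dvd_of_mod_eq_zero
    rw [← Nat.mod_add_mod, h2, Nat.mod_self]

open Classical in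
theorem tr_inc {w n k T N e sv : ℕ} {a : ℕ → ℕ} {s : St}
    {A B d : ℕ → ℕ} (P : Par w n k sv T)
    (E : Env n k sv T N s) (hm : s.mem = lay n a A B d) (hd : ∀ i < T, d i = e / n ^ i % n) :
    Tr w codeInc s (50 * (n + 1)) (fun s' => ∃ d', s'.mem = lay n a A B d' ∧
      ∀ i < T, d' i = (e + 1) / n ^ i % n) := by
  have P' := P
  obtain ⟨hn, hk, hT, hb⟩ := P
  have hn0 : 0 < n := by omega
  refine (Tr.seq (T := 3) (T' := T * 38 + 3) (Tr.asg (by simp only [Ex.ok]; omega)
    (by simp only [Ex.cost]; omega) ?_)).mono (by omega) (fun _ h => h)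
  simp only [Ex.ev]
  refine Tr.loop (fun i s' => (∃ d', s'.mem = lay n a A B d' ∧
      (∀ j < i, d' j = (e + 1) / n ^ j % n) ∧ (∀ j, i ≤ j → j < T → d' j = e / n ^ j % n)) ∧
      s'.reg 19 = if n ^ i ∣ e + 1 then 1 else 0) 34 (N := T) ?_ (by omega) (by omega) (by omega)
    ?_ ?_ ?_
  · rw [St.set_reg_ne _ _ (by omega), E.r3]
  · refine ⟨⟨d, hm, fun j hj => by omega, fun j _ hj => hd j hj⟩, ?_⟩
    rw [St.set_reg_ne _ _ (by omega), St.set_reg_self]; simp
  · rintro i hi s' ⟨⟨d', hm', hlo, hhi⟩, h19⟩ r13 hfr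
    have E' : Env n k sv T N s' := E.fr (fun y hy => by
      rw [hfr y (by omega) (by simp [HC.wr]; omega), St.set_reg_ne _ _ (by omega)])
    have hdi : d' i = e / n ^ i % n := hhi i le_rfl hi
    have hld : s'.mem (n * n + 2 * n + i) = e / n ^ i % n := by rw [hm', lay_d, hdi]
    have hlt := Nat.mod_lt (e / n ^ i) hn0
    apply Tr.ite (T := 29)
    · simp only [Ex.ok]; omega
    · simp only [Ex.ok, h19]; split_ifs <;> omega
    · simp only [Ex.cost]; omega
    · intro hpos
      simp only [Ex.ev, h19] at hpos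
      have hdv : n ^ i ∣ e + 1 := by
        by_contra hcon; rw [if_neg hcon] at hpos; exact absurd hpos (lt_irrefl _)
      apply Tr.ite (T := 17)
      · simp only [aD, Ex.ok, Ex.ev, E'.r10, r13, hld]; omega
      · simp only [Ex.ok, E'.r0]; omega
      · simp only [aD, Ex.cost]; omega
      · intro hl
        simp only [aD, Ex.ev, E'.r10, r13, hld, E'.r0] at hl
        refine Tr.seq (T := 14) (T' := 3) (Tr.sto ?_ ?_ ?_ ?_)
        · simp only [aD, Ex.ok, Ex.ev, E'.r10, r13]; omega
        · simp only [aD, Ex.ok, Ex.ev, E'.r10, r13, hld]; omega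
        · simp only [aD, Ex.cost]; omega
        · apply Tr.asg (by simp only [Ex.ok]; omega) (by simp only [Ex.cost]; omega)
          refine ⟨⟨Function.update d' i (e / n ^ i % n + 1), ?_, ?_, ?_⟩, ?_⟩
          · simp only [put, St.set_mem, aD, Ex.ev, E'.r10, r13, hld]
            rw [hm']
            exact upd_d
          · intro j hj
            by_cases ej : j = i
            · subst ej
              rw [Function.update_self, dig_succ, if_pos hdv, ← Nat.mod_add_mod,
                Nat.mod_eq_of_lt hl]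
            · rw [Function.update_of_ne ej]; exact hlo j (by omega)
          · intro j hj hjT
            rw [Function.update_of_ne (by omega)]; exact hhi j (by omega) hjT
          · rw [St.set_reg_ne _ _ (by omega), St.set_reg_self]
            simp only [Ex.ev]
            rw [if_neg]
            rw [carry_succ hn0]
            rintro ⟨_, h⟩; omega
      · intro hl
        simp only [aD, Ex.ev, E'.r10, r13, hld, E'.r0] at hl
        apply Tr.sto
        · simp only [aD, Ex.ok, Ex.ev, E'.r10, r13]; omega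
        · simp only [Ex.ok]; omega
        · simp only [aD, Ex.cost]; omega
        · refine ⟨⟨Function.update d' i 0, ?_, ?_, ?_⟩, ?_⟩
          · simp only [put, St.set_mem, aD, Ex.ev, E'.r10, r13]
            rw [hm']
            exact upd_d
          · intro j hj
            by_cases ej : j = i
            · subst ej
              rw [Function.update_self, dig_succ, if_pos hdv, ← Nat.mod_add_mod,
                show e / n ^ j % n + 1 = n by omega, Nat.mod_self]
            · rw [Function.update_of_ne ej]; exact hlo j (by omega)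
          · intro j hj hjT
            rw [Function.update_of_ne (by omega)]; exact hhi j (by omega) hjT
          · rw [St.set_reg_ne _ _ (by omega)]
            show s'.reg 19 = _
            rw [h19, if_pos hdv, if_pos ((carry_succ hn0).2 ⟨hdv, by omega⟩)]
    · intro hpos
      simp only [Ex.ev, h19] at hpos
      have hdv : ¬ n ^ i ∣ e + 1 := by
        intro hcon; rw [if_pos hcon] at hpos; exact hpos Nat.one_pos
      apply Tr.skip
      refine ⟨⟨d', hm', ?_, ?_⟩, ?_⟩
      · intro j hj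
        by_cases ej : j = i
        · subst ej
          rw [hdi, dig_succ, if_neg hdv, Nat.add_zero]
        · exact hlo j (by omega)
      · intro j hj hjT
        exact hhi j (by omega) hjT
      · rw [St.set_reg_ne _ _ (by omega), h19, if_neg hdv, if_neg]
        rw [carry_succ hn0]; tauto
  · rintro s' ⟨⟨d', hm', hlo, _⟩, _⟩ _ _
    exact ⟨d', hm', hlo⟩

end Pool.Agent.K6.H41.FF.RamB
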