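import Pool.Agent.K6.H41.FF.PB2

/-!
The brute force program, part 3: the whole program (Piece B).
-/

set_option autoImplicit false

namespace Pool.Agent.K6.H41.FF.RamB

open Pool.Agent.H588R2 Pool.Agent.TH687.HL Pool.Agent.K6.H41.FF

/-- the moves with number `e` -/
def mv {n : ℕ} (T : ℕ) (sv : Fin n) (e i : ℕ) : Fin n :=
  if i < T then ⟨e / n ^ i % n, Nat.mod_lt _ sv.pos⟩ else sv

def codeCheck : HC := .ite (.r 18) (.add (.r 1) (.c 1)) (.asg 20 (.c 1)) .skip

def codeBody : HC :=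
  .seq codeInit (.seq codeRounds (.seq codeCount (.seq codeCheck codeInc)))

open Classical in
theorem tr_body {w n k T N e : ℕ} {G : SimpleGraph (Fin n)} {sv : Fin n} {s : St}
    {A B d : ℕ → ℕ} (P : Par w n k sv T)
    (E : Env n k sv T N s) (hm : s.mem = lay n (adj G) A B d)
    (hd : ∀ i < T, d i = e / n ^ i % n) :
    Tr w codeBody s (320 * ((n + 1) * (n + 1) * (n + 1))) (fun s' =>
      (∃ A' B' d', s'.mem = lay n (adj G) A' B' d' ∧ ∀ i < T, d' i = (e + 1) / n ^ i % n) ∧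
      s'.reg 20 = if (fire G sv (mv T sv e) (T + n)).ncard ≤ k then 1 else s.reg 20) := by
  have P' := P
  obtain ⟨hn, hk, hT, hb⟩ := P
  have hn1 : n + 1 ≤ (n + 1) * (n + 1) * (n + 1) := by nlinarith
  refine (Tr.seq (T := 21 * (n + 1)) (T' := 200 * ((n + 1) * (n + 1) * (n + 1)) +
    (30 * (n + 1) + (11 + 50 * (n + 1)))) ?_).mono (by omega) (fun _ h => h)
  refine Tr.fr (tr_init P' E hm) le_rfl ?_
  rintro s1 ⟨A1, hm1, hA1⟩ hf1
  have E1 : Env n k sv T N s1 := E.fr (fun y hy => hf1 y (by simp [HC.wr, codeInit]; omega))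
  have q1 : s1.reg 20 = s.reg 20 := hf1 20 (by decide)
  apply Tr.seq
  refine Tr.fr (tr_rounds P' E1 hm1 hA1 (mv T sv e) ?_) le_rfl ?_
  · intro r hr
    unfold mv
    by_cases h : r < T
    · rw [if_pos h, if_pos h, hd r h]
    · rw [if_neg h, if_neg h]
  rintro s2 ⟨A2, B2, hm2, hA2⟩ hf2
  have E2 : Env n k sv T N s2 := E1.fr (fun y hy => hf2 y (by
    simp [HC.wr, codeRounds, codeRound, codeMove, codeProt, codeSpread, codeInner, codeCopy]
    omega))
  have q2 : s2.reg 20 = s1.reg 20 := hf2 20 (by decide)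
  apply Tr.seq
  refine Tr.fr (tr_count P' E2 hm2 hA2) le_rfl ?_
  rintro s3 ⟨hm3, h18⟩ hf3
  have E3 : Env n k sv T N s3 := E2.fr (fun y hy => hf3 y (by simp [HC.wr, codeCount]; omega))
  have q3 : s3.reg 20 = s2.reg 20 := hf3 20 (by decide)
  rw [hm2] at hm3
  apply Tr.seq
  have hcard : (state G sv (mv T sv e) (T + n)).1.ncard ≤ n := by
    have := Set.ncard_le_card (state G sv (mv T sv e) (T + n)).1
    simpa using this
  have fin : ∀ s4 : St, s4.mem = s3.mem → Env n k sv T N s4 →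
      (s4.reg 20 = if (fire G sv (mv T sv e) (T + n)).ncard ≤ k then 1 else s.reg 20) →
      Tr w codeInc s4 (50 * (n + 1)) (fun s' =>
      (∃ A' B' d', s'.mem = lay n (adj G) A' B' d' ∧ ∀ i < T, d' i = (e + 1) / n ^ i % n) ∧
      s'.reg 20 = if (fire G sv (mv T sv e) (T + n)).ncard ≤ k then 1 else s.reg 20) := by
    intro s4 hm4 E4 h20
    rw [hm3] at hm4
    refine Tr.fr (tr_inc P' E4 hm4 hd) le_rfl ?_
    rintro s5 ⟨d', hm5, hd5⟩ hf5
    refine ⟨⟨A2, B2, d', hm5, hd5⟩, ?_⟩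
    rw [hf5 20 (by decide), h20]
  apply Tr.ite (T := 3)
  · simp only [Ex.ok, h18]; omega
  · simp only [Ex.ok, Ex.ev, E3.r1]; omega
  · simp only [Ex.cost]; omega
  · intro hlt
    simp only [Ex.ev, h18, E3.r1] at hlt
    apply Tr.asg (by simp only [Ex.ok]; omega) (by simp only [Ex.cost]; omega)
    apply fin
    · rfl
    · exact E3.fr (fun y hy => St.set_reg_ne _ _ (by omega))
    · rw [St.set_reg_self]
      simp only [Ex.ev]
      rw [if_pos]
      exact Nat.lt_succ_iff.1 hlt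
  · intro hlt
    simp only [Ex.ev, h18, E3.r1] at hlt
    apply Tr.skip
    apply fin _ rfl E3
    rw [q3, q2, q1, if_neg]
    intro h
    exact hlt (Nat.lt_succ_iff.2 h)

/-! ### Powers -/

def pw (e : Ex) : ℕ → Ex
  | 0 => .c 1
  | j + 1 => .mul (pw e j) e

theorem pw_ev (e : Ex) (s : St) (j : ℕ) : (pw e j).ev s = e.ev s ^ j := by
  induction j with
  | zero => simp [pw, Ex.ev]
  | succ j ih => simp only [pw, Ex.ev, ih, pow_succ]

theorem pw_cost (e : Ex) (j : ℕ) : (pw e j).cost = j * (e.cost + 1) + 1 := by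
  induction j with
  | zero => simp [pw, Ex.cost]
  | succ j ih => simp only [pw, Ex.cost, ih]; ring

theorem pw_ok {w : ℕ} (e : Ex) (s : St) (j : ℕ) (he : e.ok w s)
    (h : ∀ i ≤ j, e.ev s ^ i < 2 ^ w) : (pw e j).ok w s := by
  induction j with
  | zero => have := h 0 le_rfl; simpa [pw, Ex.ok] using this
  | succ j ih =>
    refine ⟨ih (fun i hi => h i (by omega)), he, ?_⟩
    rw [pw_ev, ← pow_succ]
    exact h _ le_rfl

theorem pw_wf (e : Ex) (j : ℕ) (he : e.wf = true) : (pw e j).wf = true := by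
  induction j with
  | zero => rfl
  | succ j ih => simp [pw, Ex.wf, ih, he]

/-! ### The program -/

def codeT (C D : ℕ) : HC := .seq (.asg 6 (.add (.r 0) (.c 1))) (.seq (.asg 3 (.c 0))
  (.loop 15 6 (.ite (pw (.r 15) D) (.add (.mul (.c C) (pw (.r 0) (D - 1))) (.c 1))
    (.asg 3 (.r 15)) .skip)))

def codeN : HC := .seq (.asg 4 (.c 1)) (.loop 15 3 (.asg 4 (.mul (.r 4) (.r 0))))

def codeE : HC := .seq (.asg 5 (.add (.r 3) (.r 0))) (.seq (.asg 8 (.mul (.r 0) (.r 0)))
  (.seq (.asg 9 (.add (.r 8) (.r 0))) (.seq (.asg 10 (.add (.r 9) (.r 0))) (.asg 20 (.c 0)))))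

def codeAll (C D : ℕ) : HC :=
  .seq (codeT C D) (.seq codeN (.seq codeE (.seq (.loop 11 4 codeBody) (.asg 0 (.r 20)))))

theorem wf_all (C D : ℕ) : (codeAll C D).wf = true := by
  have h1 : (codeT C D).wf = true := by
    simp only [codeT, HC.wf, Ex.wf, pw_wf _ _ (show (Ex.r 15).wf = true from rfl),
      pw_wf _ _ (show (Ex.r 0).wf = true from rfl)]
    rfl
  have h2 : HC.wf (.seq codeN (.seq codeE (.seq (.loop 11 4 codeBody) (.asg 0 (.r 20))))) = true := by
    decide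
  simp only [codeAll]
  rw [HC.wf, h1, h2]
  rfl

/-- The word length is large enough. -/
structure Par2 (w C D n T : ℕ) : Prop where
  b : n * n + 3 * n + 10 < 2 ^ w
  hC : C * n ^ (D - 1) + 1 < 2 ^ w
  hD : ∀ t ≤ n, ∀ j ≤ D, t ^ j < 2 ^ w
  hN : n ^ T < 2 ^ w

open Classical in
theorem tr_T {w C D n T : ℕ} {s : St} (P : Par2 w C D n T) (h0 : s.reg 0 = n) (hC1 : C < 2 ^ w) :
    Tr w (codeT C D) s ((6 * D + 40) * (n + 1)) (fun s' => s'.mem = s.mem ∧
      s'.reg 3 = rounds C D n) := by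
  obtain ⟨hb, hC, hD, _⟩ := P
  refine (Tr.seq (T := 6) (T' := 3 + ((n + 1) * (6 * D + 16) + 3)) (Tr.asg ?_ ?_ ?_)).mono ?_
    (fun _ h => h)
  · simp only [Ex.ok, Ex.ev, h0]; omega
  · simp only [Ex.cost]; omega
  swap
  · nlinarith
  refine Tr.seq (Tr.asg (by simp only [Ex.ok]; omega) (by simp only [Ex.cost]; omega) ?_)
  simp only [Ex.ev, h0]
  refine Tr.loop (fun i s' => s'.mem = s.mem ∧ s'.reg 3 =
    Nat.findGreatest (fun t => t ^ D ≤ C * n ^ (D - 1)) (i - 1)) (6 * D + 12) (N := n + 1)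
    ?_ (by omega) (by omega) le_rfl ?_ ?_ ?_
  · rw [St.set_reg_ne _ _ (by omega), St.set_reg_self]
  · refine ⟨rfl, ?_⟩
    rw [St.set_reg_ne _ _ (by omega), St.set_reg_self]; simp
  · rintro i hi s' ⟨hm', h3⟩ r15 hfr
    have r0 : s'.reg 0 = n := by
      rw [hfr 0 (by omega) (by simp [HC.wr]), St.set_reg_ne _ _ (by omega),
        St.set_reg_ne _ _ (by omega), h0]
    have e1 : (pw (.r 15) D).ev s' = i ^ D := by rw [pw_ev]; simp only [Ex.ev, r15]
    have e2 : (pw (.r 0) (D - 1)).ev s' = n ^ (D - 1) := by rw [pw_ev]; simp only [Ex.ev, r0]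
    have k1 : (pw (.r 15) D).ok w s' := by
      apply pw_ok
      · simp only [Ex.ok, r15]; omega
      · intro j hj; simp only [Ex.ev, r15]; exact hD i (by omega) j hj
    have k2 : (pw (.r 0) (D - 1)).ok w s' := by
      apply pw_ok
      · simp only [Ex.ok, r0]; omega
      · intro j hj; simp only [Ex.ev, r0]; exact hD n le_rfl j (by omega)
    have step : Nat.findGreatest (fun t => t ^ D ≤ C * n ^ (D - 1)) i =
        if i ^ D ≤ C * n ^ (D - 1) then i else
          Nat.findGreatest (fun t => t ^ D ≤ C * n ^ (D - 1)) (i - 1) := by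
      rcases i with _ | i
      · simp
      · rw [Nat.findGreatest_succ]; rfl
    apply Tr.ite (T := 4)
    · exact k1
    · refine ⟨⟨hC1, k2, ?_⟩, ?_, ?_⟩
      · rw [e2]; simp only [Ex.ev]; omega
      · simp only [Ex.ok]; omega
      · simp only [Ex.ev, e2]; omega
    · simp only [Ex.cost, pw_cost]
      have : (D - 1) * (2 + 1) ≤ D * 3 := Nat.mul_le_mul (by omega) (by omega)
      omega
    · intro hlt
      rw [e1] at hlt
      simp only [Ex.ev, e2] at hlt
      apply Tr.asg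
      · simp only [Ex.ok, r15]; omega
      · simp only [Ex.cost]; omega
      · refine ⟨hm', ?_⟩
        rw [St.set_reg_ne _ _ (by omega), St.set_reg_self]
        simp only [Ex.ev, r15, Nat.add_sub_cancel]
        rw [step, if_pos (Nat.lt_succ_iff.1 hlt)]
    · intro hlt
      rw [e1] at hlt
      simp only [Ex.ev, e2] at hlt
      apply Tr.skip
      refine ⟨hm', ?_⟩
      rw [St.set_reg_ne _ _ (by omega), h3]
      simp only [Nat.add_sub_cancel]
      rw [step, if_neg (fun h => hlt (Nat.lt_succ_iff.2 h))]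
  · rintro s' ⟨hm', h3⟩ _ _
    refine ⟨hm', ?_⟩
    rw [h3]
    simp only [Nat.add_sub_cancel, rounds]

theorem tr_N {w C D n T : ℕ} {s : St} (P : Par2 w C D n T) (h0 : s.reg 0 = n) (h3 : s.reg 3 = T)
    (hT : T ≤ n) (hn : 1 ≤ n) :
    Tr w codeN s (15 * (n + 1)) (fun s' => s'.mem = s.mem ∧ s'.reg 4 = n ^ T) := by
  obtain ⟨hb, hC, hD, hN⟩ := P
  refine (Tr.seq (T := 3) (T' := T * 11 + 3) (Tr.asg (by simp only [Ex.ok]; omega)
    (by simp only [Ex.cost]; omega) ?_)).mono (by omega) (fun _ h => h)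
  simp only [Ex.ev]
  refine Tr.loop (fun i s' => s'.mem = s.mem ∧ s'.reg 4 = n ^ i) 7 (N := T) ?_ (by omega)
    (by omega) (by omega) ?_ ?_ ?_
  · rw [St.set_reg_ne _ _ (by omega), h3]
  · refine ⟨rfl, ?_⟩
    rw [St.set_reg_ne _ _ (by omega), St.set_reg_self]; simp
  · rintro i hi s' ⟨hm', h4⟩ r15 hfr
    have r0 : s'.reg 0 = n := by
      rw [hfr 0 (by omega) (by simp [HC.wr]), St.set_reg_ne _ _ (by omega), h0]
    have h5 : n ^ (i + 1) ≤ n ^ T := Nat.pow_le_pow_right hn (by omega)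
    have h6 : n ^ i ≤ n ^ T := Nat.pow_le_pow_right hn (by omega)
    apply Tr.asg
    · simp only [Ex.ok, Ex.ev, h4, r0]
      rw [← pow_succ]; omega
    · simp only [Ex.cost]; omega
    · refine ⟨hm', ?_⟩
      rw [St.set_reg_ne _ _ (by omega), St.set_reg_self]
      simp only [Ex.ev, h4, r0]
      rw [pow_succ]
  · rintro s' h _ _
    exact h

theorem tr_E {w n T : ℕ} {s : St} (hb : n * n + 3 * n + 10 < 2 ^ w) (h0 : s.reg 0 = n)
    (h3 : s.reg 3 = T) (hT : T ≤ n) :
    Tr w codeE s 40 (fun s' => s'.mem = s.mem ∧ s'.reg 5 = T + n ∧ s'.reg 8 = n * n ∧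
      s'.reg 9 = n * n + n ∧ s'.reg 10 = n * n + 2 * n ∧ s'.reg 20 = 0) := by
  refine (Tr.seq (T := 7) (T' := 7 + (7 + (7 + 3))) (Tr.asg ?_ ?_ ?_)).mono
    (by omega) (fun _ h => h)
  · simp only [Ex.ok, Ex.ev, h0, h3]; omega
  · simp only [Ex.cost]; omega
  simp only [Ex.ev, h0, h3]
  have n0 : (s.set 5 (T + n)).reg 0 = n := by rw [St.set_reg_ne _ _ (by omega), h0]
  refine Tr.seq (Tr.asg ?_ ?_ ?_)
  · simp only [Ex.ok, Ex.ev, n0]; omega
  · simp only [Ex.cost]; omega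
  simp only [Ex.ev, n0]
  have n1 : ((s.set 5 (T + n)).set 8 (n * n)).reg 0 = n := by
    rw [St.set_reg_ne _ _ (by omega), n0]
  refine Tr.seq (Tr.asg ?_ ?_ ?_)
  · simp only [Ex.ok, Ex.ev, n1, St.set_reg_self]; omega
  · simp only [Ex.cost]; omega
  simp only [Ex.ev, n1, St.set_reg_self]
  have n2 : (((s.set 5 (T + n)).set 8 (n * n)).set 9 (n * n + n)).reg 0 = n := by
    rw [St.set_reg_ne _ _ (by omega), n1]
  refine Tr.seq (Tr.asg ?_ ?_ ?_)
  · simp only [Ex.ok, Ex.ev, n2, St.set_reg_self]; omega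
  · simp only [Ex.cost]; omega
  simp only [Ex.ev, n2, St.set_reg_self]
  refine Tr.asg (by simp only [Ex.ok]; omega) (by simp only [Ex.cost]; omega) ?_
  refine ⟨rfl, ?_, ?_, ?_, ?_, ?_⟩
  · rw [St.set_reg_ne _ _ (by omega), St.set_reg_ne _ _ (by omega), St.set_reg_ne _ _ (by omega),
      St.set_reg_ne _ _ (by omega), St.set_reg_self]
  · rw [St.set_reg_ne _ _ (by omega), St.set_reg_ne _ _ (by omega), St.set_reg_ne _ _ (by omega),
      St.set_reg_self]
  · rw [St.set_reg_ne _ _ (by omega), St.set_reg_ne _ _ (by omega), St.set_reg_self]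
  · rw [St.set_reg_ne _ _ (by omega), St.set_reg_self]; ring
  · rw [St.set_reg_self]; rfl

/-! ### Word length -/

theorem pow_T_le {C D n T : ℕ} (hD : 2 ≤ D) (hn : 1 ≤ n) (hT : T ^ D ≤ C * n ^ (D - 1)) :
    n ^ T ≤ 2 ^ (2 * D * C * n) := by
  rcases Nat.eq_zero_or_pos C with hC | hC
  · subst hC
    have hT0 : T = 0 := by
      rw [Nat.zero_mul, Nat.le_zero] at hT
      exact pow_eq_zero_iff (by omega) |>.1 hT
    subst hT0; simp
  -- the least `y` with `n ≤ y ^ D`
  have hex : ∃ y, n ≤ y ^ D := ⟨n, Nat.le_self_pow (by omega) n⟩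
  classical
  obtain ⟨y, hy, hmin⟩ : ∃ y, n ≤ y ^ D ∧ ∀ z < y, ¬ n ≤ z ^ D :=
    ⟨Nat.find hex, Nat.find_spec hex, fun z hz => Nat.find_min hex hz⟩
  have hy1 : 1 ≤ y := by
    rcases Nat.eq_zero_or_pos y with h | h
    · subst h; rw [zero_pow (by omega)] at hy; omega
    · exact h
  have h2 : y ^ D ≤ 2 ^ D * n := by
    rcases Nat.lt_or_ge y 2 with h | h
    · have : y = 1 := by omega
      subst this
      rw [one_pow]
      exact Nat.mul_pos (by positivity) (by omega)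
    · have h3 := hmin (y - 1) (by omega)
      calc y ^ D ≤ (2 * (y - 1)) ^ D := Nat.pow_le_pow_left (by omega) D
        _ = 2 ^ D * (y - 1) ^ D := by rw [mul_pow]
        _ ≤ 2 ^ D * n := Nat.mul_le_mul_left _ (by omega)
  have h4 : y * T ≤ 2 * C * n := by
    have h5 : (y * T) ^ D ≤ (2 * C * n) ^ D := by
      calc (y * T) ^ D = y ^ D * T ^ D := by rw [mul_pow]
        _ ≤ (2 ^ D * n) * (C * n ^ (D - 1)) := Nat.mul_le_mul h2 hT
        _ = 2 ^ D * C * (n * n ^ (D - 1)) := by ring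
        _ = 2 ^ D * C * n ^ D := by rw [← pow_succ', Nat.sub_add_cancel (by omega)]
        _ ≤ 2 ^ D * C ^ D * n ^ D := by
          apply Nat.mul_le_mul_right
          apply Nat.mul_le_mul_left
          exact Nat.le_self_pow (by omega) C
        _ = (2 * C * n) ^ D := by rw [mul_pow, mul_pow]
    exact (Nat.pow_le_pow_iff_left (by omega)).1 h5
  calc n ^ T ≤ (y ^ D) ^ T := Nat.pow_le_pow_left hy T
    _ ≤ ((2 ^ y) ^ D) ^ T := by
      apply Nat.pow_le_pow_left
      apply Nat.pow_le_pow_left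
      exact Nat.lt_two_pow_self.le
    _ = 2 ^ (D * (y * T)) := by rw [← pow_mul, ← pow_mul]; ring_nf
    _ ≤ 2 ^ (2 * D * C * n) := by
      apply Nat.pow_le_pow_right (by norm_num)
      calc D * (y * T) ≤ D * (2 * C * n) := Nat.mul_le_mul_left _ h4
        _ = _ := by ring

theorem par2_of {C D n T : ℕ} (hD : 2 ≤ D) (hn : 1 ≤ n) (hT : T ^ D ≤ C * n ^ (D - 1)) :
    Par2 ((2 * D * C + D + C + 6) * (n + 1)) C D n T ∧ C < 2 ^ ((2 * D * C + D + C + 6) * (n + 1)) := by
  have hlt : ∀ a b : ℕ, a < b → 2 ^ a < 2 ^ b := fun a b h => Nat.pow_lt_pow_right (by norm_num) h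
  have hn2 : n < 2 ^ n := Nat.lt_two_pow_self
  have hw : (2 * D * C + D + C + 6) * (n + 1) =
      2 * D * C * n + D * n + C * n + 6 * n + (2 * D * C + D + C + 6) := by ring
  have hCC : C < 2 ^ C := Nat.lt_two_pow_self
  refine ⟨⟨?_, ?_, ?_, ?_⟩, ?_⟩
  · have h1 : n * n + 3 * n + 10 ≤ 2 ^ (2 * n + 4) := by
      have h2 : n + 1 ≤ 2 ^ n := hn2
      have h3 : (n + 1) * (n + 1) ≤ 2 ^ n * 2 ^ n := Nat.mul_le_mul h2 h2
      have h4 : 2 ^ (2 * n + 4) = 16 * (2 ^ n * 2 ^ n) := by rw [pow_add, two_mul, pow_add]; ring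
      rw [h4]; nlinarith
    refine lt_of_le_of_lt h1 (hlt _ _ ?_)
    rw [hw]
    omega
  · have h1 : 1 ≤ n ^ (D - 1) := Nat.one_le_pow _ _ hn
    have h2 : n ^ (D - 1) ≤ 2 ^ (n * (D - 1)) := by
      rw [pow_mul]; exact Nat.pow_le_pow_left hn2.le _
    calc C * n ^ (D - 1) + 1 ≤ (C + 1) * n ^ (D - 1) := by rw [Nat.add_mul]; omega
      _ ≤ 2 ^ C * 2 ^ (n * (D - 1)) := Nat.mul_le_mul hCC h2
      _ = 2 ^ (C + n * (D - 1)) := by rw [pow_add]
      _ < _ := by
        apply hlt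
        rw [hw]
        have : n * (D - 1) ≤ D * n := by rw [Nat.mul_comm]; exact Nat.mul_le_mul_right _ (by omega)
        omega
  · intro t ht j hj
    calc t ^ j ≤ n ^ j := Nat.pow_le_pow_left ht j
      _ ≤ n ^ D := Nat.pow_le_pow_right hn hj
      _ ≤ (2 ^ n) ^ D := Nat.pow_le_pow_left hn2.le D
      _ = 2 ^ (D * n) := by rw [← pow_mul, Nat.mul_comm]
      _ < _ := by
        apply hlt
        rw [hw]
        omega
  · refine lt_of_le_of_lt (pow_T_le hD hn hT) (hlt _ _ ?_)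
    rw [hw]
    omega
  · refine lt_trans hCC (hlt _ _ ?_)
    rw [hw]
    omega

/-! ### Strategies and numbers -/

theorem exists_iff {n k T : ℕ} (G : SimpleGraph (Fin n)) (s : Fin n) :
    (∃ e < n ^ T, (fire G s (mv T s e) (T + n)).ncard ≤ k) ↔
    ∃ m : ℕ → Fin n, (∀ i, T ≤ i → m i = s) ∧ (fire G s m (T + n)).ncard ≤ k := by
  constructor
  · rintro ⟨e, _, h⟩
    refine ⟨mv T s e, fun i hi => ?_, h⟩
    unfold mv; rw [if_neg (by omega)]
  · rintro ⟨m, hm, h⟩
    set e := finFunctionFinEquiv (fun i : Fin T => m i) with he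
    have key : ∀ i (hi : i < T), (e : ℕ) / n ^ i % n = m i := by
      intro i hi
      have h1 : finFunctionFinEquiv.symm e ⟨i, hi⟩ = m i := by rw [he, Equiv.symm_apply_apply]
      rw [← h1]; rfl
    have : mv T s e = m := by
      funext i
      unfold mv
      by_cases hi : i < T
      · rw [if_pos hi]; exact Fin.ext (key i hi)
      · rw [if_neg hi, hm i (by omega)]
    exact ⟨e, e.2, by rw [this]; exact h⟩

theorem mem_input {n k : ℕ} (G : SimpleGraph (Fin n)) (s : Fin n) :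
    (inputConfig G s k).st.mem = lay n (adj G) (fun _ => 0) (fun _ => 0) (fun _ => 0) := by
  funext x
  have h : lay n (adj G) (fun _ => 0) (fun _ => 0) (fun _ => 0) x =
      if x < n * n then adj G x else 0 := by
    unfold lay; split_ifs <;> rfl
  rw [h]
  have h2 : (inputConfig G s k).st.mem x = adj G x := rfl
  rw [h2]
  by_cases hx : x < n * n
  · rw [if_pos hx]
  · rw [if_neg hx]
    unfold adj
    rw [dif_neg]
    rintro ⟨h3, _⟩
    apply hx
    exact (Nat.div_lt_iff_lt_mul s.pos).1 h3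

end Pool.Agent.K6.H41.FF.RamB

namespace Pool.Agent.K6.H41.FF

open Pool.Agent.H588R2 Pool.Agent.TH687.HL RamB

open Classical in
/-- Piece B -/
theorem ram (C D : ℕ) (hD : 2 ≤ D) : ∃ (P : List Instr) (c d : ℕ) (K : ℝ),
    ∀ (n k : ℕ), k ≤ n → ∀ (G : SimpleGraph (Fin n)) (s : Fin n),
      HaltsWithin (c * (n + 1)) P (inputConfig G s k)
        (K * ((n : ℝ) + 1) ^ (rounds C D n + d))
        (if ∃ m : ℕ → Fin n, (∀ i, rounds C D n ≤ i → m i = s) ∧
          (fire G s m (rounds C D n + n)).ncard ≤ k then 1 else 0) := by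
  refine ⟨(codeAll C D).comp.compile 0, 2 * D * C + D + C + 6, 3, ((6 * D + 500 : ℕ) : ℝ), ?_⟩
  intro n k hk G s
  set w := (2 * D * C + D + C + 6) * (n + 1) with hw
  set T := rounds C D n with hTdef
  have hn : 1 ≤ n := s.pos
  have hTn : T ≤ n := Nat.findGreatest_le n
  have hTD : T ^ D ≤ C * n ^ (D - 1) := by
    have : (fun t => t ^ D ≤ C * n ^ (D - 1)) (rounds C D n) := by
      unfold rounds
      apply Nat.findGreatest_spec (P := fun t => t ^ D ≤ C * n ^ (D - 1)) (m := 0)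
      · omega
      · rw [zero_pow (by omega)]
        exact Nat.zero_le _
    exact this
  obtain ⟨P2, hC1⟩ := par2_of hD hn hTD
  rw [← hw] at P2 hC1
  have PP : Par w n k s T := ⟨s.2, hk, hTn, P2.b⟩
  have hb := P2.b
  have hN := P2.hN
  set s0 := (inputConfig G s k).st with hs0
  have r0 : s0.reg 0 = n := rfl
  have r1 : s0.reg 1 = k := rfl
  have r2 : s0.reg 2 = s := rfl
  have hm0 := mem_input (k := k) G s
  rw [← hs0] at hm0
  set n3 := (n + 1) * (n + 1) * (n + 1) with hn3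
  have hn3' : n + 1 ≤ n3 := by rw [hn3]; nlinarith
  have main : Tr w (codeAll C D) s0 ((6 * D + 500) * (n ^ T * n3)) (fun s' => s'.reg 0 =
      if ∃ m : ℕ → Fin n, (∀ i, T ≤ i → m i = s) ∧ (fire G s m (T + n)).ncard ≤ k
        then 1 else 0) := by
    have hNpos : 1 ≤ n ^ T := Nat.one_le_pow _ _ hn
    have hbig : n3 ≤ n ^ T * n3 := Nat.le_mul_of_pos_left _ hNpos
    refine (Tr.seq (T := (6 * D + 40) * (n + 1)) (T' := 15 * (n + 1) + (40 +
      ((n ^ T * (320 * n3 + 4) + 3) + 4))) ?_).mono ?_ (fun _ h => h)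
    swap
    · have e1 : (6 * D + 40) * (n + 1) ≤ (6 * D + 40) * (n ^ T * n3) :=
        Nat.mul_le_mul_left _ (hn3'.trans hbig)
      have e2 : n ^ T * (320 * n3 + 4) ≤ 324 * (n ^ T * n3) := by
        calc n ^ T * (320 * n3 + 4) ≤ n ^ T * (324 * n3) := Nat.mul_le_mul_left _ (by omega)
          _ = 324 * (n ^ T * n3) := by ring
      have e3 : (6 * D + 500) * (n ^ T * n3) = (6 * D + 40) * (n ^ T * n3) +
        460 * (n ^ T * n3) := by ring
      rw [e3]
      omega
    refine Tr.fr (tr_T P2 r0 hC1) le_rfl ?_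
    rintro s1 ⟨hm1, h3⟩ hf1
    have a0 : s1.reg 0 = n := by rw [hf1 0 (by simp [HC.wr, codeT]), r0]
    have a1 : s1.reg 1 = k := by rw [hf1 1 (by simp [HC.wr, codeT]), r1]
    have a2 : s1.reg 2 = s := by rw [hf1 2 (by simp [HC.wr, codeT]), r2]
    apply Tr.seq
    refine Tr.fr (tr_N P2 a0 h3 hTn hn) le_rfl ?_
    rintro s2 ⟨hm2, h4⟩ hf2
    have b0 : s2.reg 0 = n := by rw [hf2 0 (by decide), a0]
    have b1 : s2.reg 1 = k := by rw [hf2 1 (by decide), a1]
    have b2 : s2.reg 2 = s := by rw [hf2 2 (by decide), a2]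
    have b3 : s2.reg 3 = T := by rw [hf2 3 (by decide), h3]
    apply Tr.seq
    refine Tr.fr (tr_E hb b0 b3 hTn) le_rfl ?_
    rintro s3 ⟨hm3, h5, h8, h9, h10, h20⟩ hf3
    have E3 : Env n k s T (n ^ T) s3 :=
      ⟨by rw [hf3 0 (by decide), b0], by rw [hf3 1 (by decide), b1],
       by rw [hf3 2 (by decide), b2], by rw [hf3 3 (by decide), b3],
       by rw [hf3 4 (by decide), h4], h5, h8, h9, h10⟩
    have hm3' : s3.mem = lay n (adj G) (fun _ => 0) (fun _ => 0) (fun _ => 0) := by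
      rw [hm3, hm2, hm1, hm0]
    apply Tr.seq
    refine Tr.loop (fun e s' => (∃ A B d, s'.mem = lay n (adj G) A B d ∧
      ∀ i < T, d i = e / n ^ i % n) ∧ s'.reg 20 =
      if ∃ e' < e, (fire G s (mv T s e') (T + n)).ncard ≤ k then 1 else 0) (320 * n3)
      E3.r4 hN (by omega) le_rfl ?_ ?_ ?_
    · refine ⟨⟨_, _, _, hm3', fun i _ => by simp⟩, ?_⟩
      rw [St.set_reg_ne _ _ (by omega), h20]; simp
    · rintro e he s' ⟨⟨A, B, d, hm', hd⟩, h20'⟩ r11 hfr
      have E' : Env n k s T (n ^ T) s' := E3.fr (fun y hy => hfr y (by omega) (by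
        simp [HC.wr, codeBody, codeInit, codeCount, codeCheck, codeInc, codeRounds, codeRound,
          codeMove, codeProt, codeSpread, codeInner, codeCopy]
        omega))
      refine (tr_body PP E' hm' hd).mono le_rfl ?_
      rintro s'' ⟨h, h20''⟩
      refine ⟨h, ?_⟩
      rw [St.set_reg_ne _ _ (by omega), h20'', h20']
      by_cases hg : (fire G s (mv T s e) (T + n)).ncard ≤ k
      · rw [if_pos hg, if_pos ⟨e, by omega, hg⟩]
      · rw [if_neg hg]
        congr 1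
        apply propext
        constructor
        · rintro ⟨e', he', h'⟩; exact ⟨e', by omega, h'⟩
        · rintro ⟨e', he', h'⟩
          refine ⟨e', ?_, h'⟩
          rcases Nat.lt_succ_iff_lt_or_eq.1 he' with h1 | h1
          · exact h1
          · subst h1; exact absurd h' hg
    · rintro s' ⟨_, h20'⟩ _ _
      have hle : s'.reg 20 ≤ 1 := by rw [h20']; split_ifs <;> omega
      apply Tr.asg
      · simp only [Ex.ok]; omega
      · simp only [Ex.cost]; omega
      · rw [St.set_reg_self]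
        simp only [Ex.ev]
        rw [h20']
        congr 1
        exact propext (exists_iff G s)
  have hcast : (((6 * D + 500) * (n ^ T * n3) : ℕ) : ℝ) ≤
      ((6 * D + 500 : ℕ) : ℝ) * ((n : ℝ) + 1) ^ (T + 3) := by
    have h1 : n ^ T * n3 ≤ (n + 1) ^ (T + 3) := by
      rw [pow_add]
      apply Nat.mul_le_mul
      · exact Nat.pow_le_pow_left (by omega) T
      · rw [hn3]; apply le_of_eq; ring
    have h2 : (6 * D + 500) * (n ^ T * n3) ≤ (6 * D + 500) * (n + 1) ^ (T + 3) :=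
      Nat.mul_le_mul_left _ h1
    calc (((6 * D + 500) * (n ^ T * n3) : ℕ) : ℝ)
        ≤ (((6 * D + 500) * (n + 1) ^ (T + 3) : ℕ) : ℝ) := by exact_mod_cast h2
      _ = _ := by push_cast; ring
  exact Tr.halts (wf_all C D) main (fun s' h => h) _ hcast

end Pool.Agent.K6.H41.FF
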