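import Pool.Agent.K6.H41.FF.Good

/-!
# The sum over disjoint windows
-/

set_option autoImplicit false

namespace Pool.Agent.K6.H41.FF

open Relation

variable {V : Type*} {G : SimpleGraph V} {s : V} {c : ℕ → V}

theorem assoc_card [Finite V] {q : ℕ} (hq : Free G q) (hq2 : 2 ≤ q) (v : V) (S : Finset V)
    (hS : ∀ p ∈ S, Assoc G s c v p) : S.card ≤ q - 1 := by
  classical
  by_cases hv : v ∈ inn G s c
  · have hY : Cn G {x | x ∈ inn G s c ∧ Jn G (inn G s c) v x} := by
      refine ⟨v, ⟨hv, Jn.refl _⟩, ?_⟩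
      rintro b ⟨hb, hj⟩
      have key : ∀ b, Jn G (inn G s c) v b →
          Jn G {x | x ∈ inn G s c ∧ Jn G (inn G s c) v x} v b := by
        intro b hb
        unfold Jn at hb
        induction hb with
        | refl => exact Jn.refl _
        | tail h1 h2 ih =>
          exact ih.trans (Jn.single h2.1 ⟨h2.2.1, h1⟩ ⟨h2.2.2, h1.tail h2⟩)
      exact key b hj
    have := few_common hq (burnt_conn (G := G) (s := s) (c := c)) hY ?_ S ?_
    · omega
    · rw [Set.disjoint_left]
      intro x hx hx'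
      exact hx'.1.1 hx
    · intro p hp
      obtain ⟨hpb, h | ⟨_, u, hu, hj, ha⟩⟩ := hS p hp
      · exact absurd (h ▸ hpb) hv.2
      · exact ⟨hpb.1, fun h => h.1.2 hpb, hpb.2, u, ⟨hu, hj⟩, ha⟩
  · have : S ⊆ {v} := by
      intro p hp
      obtain ⟨_, h | ⟨h, _⟩⟩ := hS p hp
      · rw [h]; exact Finset.mem_singleton_self _
      · exact absurd h hv
    have := Finset.card_le_card this
    rw [Finset.card_singleton] at this
    omega

/-- disjoint windows `(t τ, τ + 1]` -/
theorem sum_windows [Finite V] {q : ℕ} (hq : Free G q) (hq2 : 2 ≤ q) (S : Finset ℕ) (t : ℕ → ℕ)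
    (hdis : ∀ τ ∈ S, ∀ τ' ∈ S, τ < τ' → τ + 1 ≤ t τ')
    (hD : ∀ τ ∈ S, ∃ D : Set V, (late G s c τ).ncard ≤ D.ncard ∧ ∀ v ∈ D, v ∉ burnt G s c ∧
      ∃ p, Assoc G s c v p ∧ p ∈ prot G s c (τ + 1) ∧ p ∉ prot G s c (t τ)) :
    ∑ τ ∈ S, (late G s c τ).ncard ≤ (q - 1) * Nat.card V := by
  classical
  have hne : Nonempty V := ⟨s⟩
  have hft := Fintype.ofFinite V
  choose! D hDc hDm using hD
  calc ∑ τ ∈ S, (late G s c τ).ncard ≤ ∑ τ ∈ S, (D τ).ncard := Finset.sum_le_sum hDc
    _ = ∑ τ ∈ S, ∑ v : V, (if v ∈ D τ then 1 else 0) := by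
      refine Finset.sum_congr rfl fun τ _ => ?_
      rw [Finset.sum_boole, Set.ncard_eq_toFinset_card']
      congr 1
      ext v
      simp
    _ = ∑ v : V, ∑ τ ∈ S, (if v ∈ D τ then 1 else 0) := Finset.sum_comm
    _ ≤ ∑ v : V, (q - 1) := by
      refine Finset.sum_le_sum fun v _ => ?_
      rw [Finset.sum_boole]
      simp only [Nat.cast_id]
      have hp : ∀ τ, τ ∈ S.filter (fun τ => v ∈ D τ) →
          ∃ p, Assoc G s c v p ∧ p ∈ prot G s c (τ + 1) ∧ p ∉ prot G s c (t τ) := by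
        intro τ hτ
        rw [Finset.mem_filter] at hτ
        exact (hDm τ hτ.1 v hτ.2).2
      choose! p hp1 hp2 hp3 using hp
      rw [← Finset.card_image_of_injOn (f := p)]
      · refine assoc_card (s := s) (c := c) hq hq2 v _ ?_
        intro x hx
        obtain ⟨τ, hτ, rfl⟩ := Finset.mem_image.mp hx
        exact hp1 τ hτ
      · have key : ∀ τ ∈ S.filter (fun τ => v ∈ D τ), ∀ τ' ∈ S.filter (fun τ => v ∈ D τ),
            τ < τ' → p τ ≠ p τ' := by
          intro τ hτ τ' hτ' hlt he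
          have h1 := prot_mono (hdis τ (Finset.mem_filter.mp hτ).1 τ'
            (Finset.mem_filter.mp hτ').1 hlt) (hp2 τ hτ)
          rw [he] at h1
          exact hp3 τ' hτ' h1
        intro τ hτ τ' hτ' he
        rcases lt_trichotomy τ τ' with h | h | h
        · exact absurd he (key τ hτ τ' hτ' h)
        · exact h
        · exact absurd he.symm (key τ' hτ' τ hτ h)
    _ = (q - 1) * Nat.card V := by
      rw [Finset.sum_const, Finset.card_univ, Nat.card_eq_fintype_card, smul_eq_mul, Nat.mul_comm]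

end Pool.Agent.K6.H41.FF
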